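import Pool.Agent.Lib.MP_226de1_co.XBasic
import Pool.Agent.Lib.MP_226de1_co.NNS

/-!
# MP_226de1_co, exponents `1 ≤ k ≤ 2`: basic definitions

`μ > 1` is the ratio of the far and the near distance on the axis; near distance `1`, far distance `μ`,
`2a = μ - 1`, `c = 1 + μ^k`, `m = μ^2`, `ℓ = log μ`.  A chord through a centre has a near part `r` and
a far part `s`, `r^k + s^k = c`.  Everything is written with `d = 1 - r^2`: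
`rk d = r^k = (1-d)^(k/2)`, `ek d = s^k = c - rk d`, `Lg d = log (s/r)`, `Sg d = s/r`,
`ps d = s^2 - μ^2`.
The chart is one power series `D = dd F v = ∑ F n v^n` with nonnegative coefficients, `dd F 1 = 1`,
radius of convergence at least `μ^2`; `v = - exp (2x)` (`xv x`, in namespace `EQ2`).
-/

set_option autoImplicit false

namespace EQG1

open Complex Set Filter Topology
open EQ2 (dd dr xv ell pt NNS)

noncomputable section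

/-- `c = 1 + μ^k` -/
def cK (k μ : ℝ) : ℝ := 1 + μ ^ k

/-- `r^k` as a function of `d = 1 - r²` -/
def rk (k : ℝ) (d : ℂ) : ℂ := Complex.exp ((k : ℂ) / 2 * Complex.log (1 - d))

/-- `s^k = c - r^k` -/
def ek (k μ : ℝ) (d : ℂ) : ℂ := (cK k μ : ℂ) - rk k d

/-- `log (s/r)` -/
def Lg (k μ : ℝ) (d : ℂ) : ℂ := Complex.log (ek k μ d) / (k : ℂ) - Complex.log (1 - d) / 2

/-- `s/r` -/
def Sg (k μ : ℝ) (d : ℂ) : ℂ := Complex.exp (Lg k μ d)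

/-- `s² - μ²` -/
def ps (k μ : ℝ) (d : ℂ) : ℂ := Complex.exp (2 / (k : ℂ) * Complex.log (ek k μ d)) - (μ : ℂ) ^ 2

/-- `r` (principal) -/
def rg (d : ℂ) : ℂ := Complex.exp (Complex.log (1 - d) / 2)

/-- real version of `s² = S(T)`, `T = r²` -/
def ST (k μ T : ℝ) : ℝ := (1 + μ ^ k - T ^ (k / 2)) ^ (2 / k)

/-- real version of `ps` -/
def psr (k μ d : ℝ) : ℝ := ST k μ (1 - d) - μ ^ 2

/-- real version of `Sg` -/
def Sr (k μ d : ℝ) : ℝ := Real.sqrt (ST k μ (1 - d) / (1 - d))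

/-- upper end of the real admissible interval for `r²`: `r² < c^(2/k)` -/
def cT (k μ : ℝ) : ℝ := cK k μ ^ (2 / k)

/-- the data of the chart at the end `A` (normalised so that `dd F 1 = 1`).
`F1_ge` and `base` are comparisons with `Dbar = (m-1)w/(1-w)`, `w = γ v`, `γ = F 1/(m-1)`. -/
structure HF (k μ : ℝ) (F : ℕ → ℝ) : Prop where
  hk : 1 ≤ k
  hk2 : k ≤ 2
  hμ : 1 < μ
  F0 : F 0 = 0
  F1 : 0 < F 1
  nonneg : ∀ n, 0 ≤ F n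
  sum1 : HasSum F 1
  summ : ∀ ρ : ℝ, 0 ≤ ρ → ρ < μ ^ 2 → Summable fun n => F n * ρ ^ n
  feq : ∀ v : ℂ, ‖v‖ < 1 →
    dd F ((μ : ℂ) ^ 2 * v) + ps k μ (dd F v) + 2 * (μ : ℂ) * ((μ : ℂ) - 1) =
      Sg k μ (dd F v) * (2 * ((μ : ℂ) - 1) + dd F v + ps k μ (dd F (v / (μ : ℂ) ^ 2)))
  F1_ge : (μ ^ 2 - 1) / μ ^ 2 ≤ F 1
  base : ∃ ε : ℝ, 0 < ε ∧ ∀ τ : ℝ, 0 ≤ τ → τ < ε →
    (μ ^ 2 - 1) * (F 1 / (μ ^ 2 - 1) * τ) / (1 + F 1 / (μ ^ 2 - 1) * τ) ≤ - dr F (-τ)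

/-- horizontal coordinate, as a function of `v` -/
def Xv (k μ : ℝ) (F : ℕ → ℝ) (v : ℂ) : ℂ :=
  1 + (dd F v + ps k μ (dd F (v / (μ : ℂ) ^ 2))) / (2 * ((μ : ℂ) - 1))

/-- square of the vertical coordinate, as a function of `v` -/
def Rv (k μ : ℝ) (F : ℕ → ℝ) (v : ℂ) : ℂ := 1 - dd F v - Xv k μ F v ^ 2

/-- `ly v = log y(v)`, where `Y = t y(v)`, `Y² = R`, i.e. `v y(v)² = - R(v)`; in `x`:
`log Y = x + ly (xv x)` -/
structure HY (k μ : ℝ) (F : ℕ → ℝ) (ly : ℂ → ℂ) : Prop where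
  an : DifferentiableOn ℂ ly (Metric.ball 0 (μ ^ 2))
  sq : ∀ v ∈ Metric.ball (0 : ℂ) (μ ^ 2), v * Complex.exp (2 * ly v) = - Rv k μ F v
  conj : ∀ v ∈ Metric.ball (0 : ℂ) (μ ^ 2), ly ((starRingEnd ℂ) v) = (starRingEnd ℂ) (ly v)
  feq : ∀ v : ℂ, ‖v‖ < 1 →
    (Real.log μ : ℂ) + ly ((μ : ℂ) ^ 2 * v) = Lg k μ (dd F v) + ly v

def Dx (F : ℕ → ℝ) (x : ℂ) : ℂ := dd F (xv x)
def Xx (k μ : ℝ) (F : ℕ → ℝ) (x : ℂ) : ℂ := Xv k μ F (xv x)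
/-- `log Y` -/
def LY (ly : ℂ → ℂ) (x : ℂ) : ℂ := x + ly (xv x)
def Yx (ly : ℂ → ℂ) (x : ℂ) : ℂ := Complex.exp (LY ly x)
/-- `q = X / Y`, the cotangent of the angle of the line -/
def qx (k μ : ℝ) (F : ℕ → ℝ) (ly : ℂ → ℂ) (x : ℂ) : ℂ := Xx k μ F x / Yx ly x
/-- `log p`, `p = (Y/2a)^k` -/
def lp (k μ : ℝ) (ly : ℂ → ℂ) (x : ℂ) : ℂ := (k : ℂ) * (LY ly x - (Real.log (μ - 1) : ℂ))
/-- `p = D_{n-1}^(-k) = (Y/2a)^k` -/
def px (k μ : ℝ) (ly : ℂ → ℂ) (x : ℂ) : ℂ := Complex.exp (lp k μ ly x)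
/-- the constant `C = c/(2a)^k` -/
def Cc (k μ : ℝ) : ℝ := cK k μ / (μ - 1) ^ k
/-- `G(q) = C (1+q²)^(-k/2)`, principal branch -/
def GC (k μ : ℝ) (q : ℂ) : ℂ :=
  (Cc k μ : ℂ) * Complex.exp (-((k : ℂ) / 2) * Complex.log (1 + q ^ 2))
/-- `log (1+q²) = log (1 - D) - 2 log Y` -/
def LQ (F : ℕ → ℝ) (ly : ℂ → ℂ) (x : ℂ) : ℂ := Complex.log (1 - Dx F x) - 2 * LY ly x

end

end EQG1
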