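import Pool.Agent.Lib.MP_226de1_co.E1.G.Cmp1

/-! Monotonicity of the one-step maps `Psi`, `Ph`. -/

set_option autoImplicit false

namespace EQG1

open Complex Set Filter Topology
open EQ2 (dd dr xv ell pt NNS)

variable {k μ : ℝ}

private theorem Cmp_re_mono {f : ℂ → ℂ} (hf : NNS 1 f) {t s : ℝ} (h0 : 0 ≤ t) (hts : t ≤ s)
    (hs : s < 1) : (f (t : ℂ)).re ≤ (f (s : ℂ)).re ∧ 0 ≤ (f (t : ℂ)).re := by
  obtain ⟨a, ha, hsum⟩ := hf
  have h1 := NNS.real' ha hsum h0 (hts.trans_lt hs)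
  have h2 := NNS.real' ha hsum (h0.trans hts) hs
  exact ⟨hasSum_le (fun n => mul_le_mul_of_nonneg_left (pow_le_pow_left₀ h0 hts n) (ha n))
    h1.1 h2.1, h1.2.2.1⟩

private theorem Cmp_Psi (hk : 1 ≤ k) (hk2 : k ≤ 2) (hμ : 1 < μ) {d d' : ℝ} (h0 : 0 ≤ d)
    (h1 : d < 1) (h0' : 0 ≤ d') (h1' : d' < 1) : Psi k μ d d' =
      (gg k μ (d : ℂ)).re + (Sg k μ (d : ℂ)).re * (ps k μ (d' : ℂ)).re := by
  have hc := cT_ge hk hk2 hμ
  have hμ2 : 0 < μ ^ 2 := by positivity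
  have e : gg k μ (d : ℂ) = ((2 * (μ - 1) * (Sr k μ d - μ) + Sr k μ d * d - psr k μ d : ℝ) : ℂ) := by
    unfold gg
    rw [Sg_ofReal hk hμ (by linarith) h1, ps_ofReal hk hμ (by linarith) h1]
    push_cast
    ring
  rw [e, Sg_ofReal hk hμ (by linarith) h1, ps_ofReal hk hμ (by linarith) h1',
    Complex.ofReal_re, Complex.ofReal_re, Complex.ofReal_re]
  unfold Psi
  ring

/-- `Psi d d' = (gg d).re + Sr d * psr d'` for real `0 ≤ d, d' < 1` (`Sg_ofReal`, `ps_ofReal`);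
`gg`, `Sg`, `ps` have nonnegative coefficients (`NNS_gg`, `NNS_Sg`, `NNS_ps`), so they are monotone and
`≥ 0` on `[0,1)`. -/
theorem Psi_mono (hk : 1 ≤ k) (hk2 : k ≤ 2) (hμ : 1 < μ) {d₁ d₁' d₂ d₂' : ℝ} (h0 : 0 ≤ d₁)
    (h0' : 0 ≤ d₁') (h1 : d₁ ≤ d₂) (h1' : d₁' ≤ d₂') (h2 : d₂ < 1) (h2' : d₂' < 1) :
    Psi k μ d₁ d₁' ≤ Psi k μ d₂ d₂' := by
  rw [Cmp_Psi hk hk2 hμ h0 (h1.trans_lt h2) h0' (h1'.trans_lt h2'),
    Cmp_Psi hk hk2 hμ (h0.trans h1) h2 (h0'.trans h1') h2']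
  have a1 := Cmp_re_mono (NNS_gg hk hk2 hμ) h0 h1 h2
  have a2 := Cmp_re_mono (NNS_Sg hk hk2 hμ) h0 h1 h2
  have a3 := Cmp_re_mono (NNS_ps hk hk2 hμ) h0' h1' h2'
  exact add_le_add a1.1 (mul_le_mul a2.1 a3.1 a3.2 (a2.2.trans a2.1))

private theorem Cmp_pow (hk : 1 ≤ k) {x : ℝ} (hx : 0 ≤ x) : (x ^ (2 / k)) ^ (k / 2) = x := by
  have hk0 : 0 < k := by linarith
  rw [← Real.rpow_mul hx]
  have : 2 / k * (k / 2) = 1 := by field_simp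
  rw [this, Real.rpow_one]

private theorem Cmp_pow' (hk : 1 ≤ k) {x : ℝ} (hx : 0 ≤ x) : (x ^ (k / 2)) ^ (2 / k) = x := by
  have hk0 : 0 < k := by linarith
  rw [← Real.rpow_mul hx]
  have : k / 2 * (2 / k) = 1 := by field_simp
  rw [this, Real.rpow_one]

/-- `λ = (w/z)^(1/k)` -/
private theorem Cmp_lam (hk : 1 ≤ k) {T : ℝ} (hT : 0 < T) (hw : 0 ≤ 1 + μ ^ k - T ^ (k / 2)) :
    Real.sqrt (ST k μ T / T) = ((1 + μ ^ k - T ^ (k / 2)) / T ^ (k / 2)) ^ (1 / k) := by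
  have hk0 : 0 < k := by linarith
  have hz : 0 < T ^ (k / 2) := Real.rpow_pos_of_pos hT _
  have h2 : ST k μ T / T = ((1 + μ ^ k - T ^ (k / 2)) / T ^ (k / 2)) ^ (2 / k) := by
    rw [Real.div_rpow hw hz.le, Cmp_pow' hk hT.le]
    rfl
  rw [h2, Real.sqrt_eq_rpow, ← Real.rpow_mul (by positivity)]
  congr 1
  field_simp

/-- `A' = (w/z)^(2/k-1)` -/
private theorem Cmp_A' {T w : ℝ} (hk : 1 ≤ k) (hT : 0 < T) (hw : 0 ≤ w) :
    T ^ (k / 2 - 1) * w ^ (2 / k - 1) = (w / T ^ (k / 2)) ^ (2 / k - 1) := by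
  have hk0 : 0 < k := by linarith
  have hz : 0 < T ^ (k / 2) := Real.rpow_pos_of_pos hT _
  rw [Real.div_rpow hw hz.le, ← Real.rpow_mul hT.le]
  have e : k / 2 * (2 / k - 1) = -(k / 2 - 1) := by
    field_simp
    ring
  rw [e, Real.rpow_neg hT.le, div_inv_eq_mul, mul_comm]

/-- Put `A e = μ² - ST (1+e)`, `λ e = sqrt (ST (1+e)/(1+e))`.  `A' = λ^(2-k)` and `λ` is decreasing, and
`λ ≥ 1` for `1+e ≤ (c/2)^(2/k)` (there `(1+e)^(k/2) ≤ c/2 ≤ c - (1+e)^(k/2)`), so by the mean value theorem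
`A e₂ - A e₁ ≤ λ e₁ (e₂ - e₁)`.  With `B_i = 2(μ-1) - e_i - A e_i'`, `B₁ ≥ B₂ ≥ 0`, `B₁ - B₂ ≥ e₂ - e₁`:
`Ph₂ - Ph₁ = λ₁ B₁ - λ₂ B₂ - (A e₂ - A e₁) ≥ λ₁ (B₁ - B₂) - λ₁ (e₂ - e₁) ≥ 0`. -/
theorem Ph_mono (hk : 1 ≤ k) (hk2 : k ≤ 2) (hμ : 1 < μ) {e₁ e₁' e₂ e₂' : ℝ} (h0 : 0 ≤ e₁)
    (h0' : 0 ≤ e₁') (h1 : e₁ ≤ e₂) (h1' : e₁' ≤ e₂') (h2 : 1 + e₂ ≤ (cK k μ / 2) ^ (2 / k))
    (h2' : 1 + e₂' ≤ cT k μ) (h3 : e₂ + (μ ^ 2 - ST k μ (1 + e₂')) ≤ 2 * (μ - 1)) :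
    Ph k μ e₁ e₁' ≤ Ph k μ e₂ e₂' := by
  have _ := hk2
  have hk0 : 0 < k := by linarith
  have hμk : 1 < μ ^ k := Real.one_lt_rpow hμ hk0
  have hc : 0 < cK k μ := by
    unfold cK
    linarith
  have hcK : cK k μ = 1 + μ ^ k := rfl
  -- `z = T^(k/2) ≤ c/2`
  have hz2 : ∀ e : ℝ, 0 ≤ e → e ≤ e₂ → (1 + e) ^ (k / 2) ≤ cK k μ / 2 := by
    intro e he0 he
    calc (1 + e) ^ (k / 2) ≤ ((cK k μ / 2) ^ (2 / k)) ^ (k / 2) :=
          Real.rpow_le_rpow (by linarith) (by linarith) (by positivity)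
      _ = cK k μ / 2 := Cmp_pow hk (by positivity)
  have hzpos : ∀ e : ℝ, 0 ≤ e → 0 < (1 + e) ^ (k / 2) := fun e he =>
    Real.rpow_pos_of_pos (by linarith) _
  have hwpos : ∀ e : ℝ, 0 ≤ e → e ≤ e₂ → cK k μ / 2 ≤ 1 + μ ^ k - (1 + e) ^ (k / 2) := by
    intro e he0 he
    have := hz2 e he0 he
    linarith
  -- `λ` is decreasing
  have hlam : ∀ e e' : ℝ, 0 ≤ e → e ≤ e' → e' ≤ e₂ →
      ((1 + μ ^ k - (1 + e') ^ (k / 2)) / (1 + e') ^ (k / 2)) ^ (1 / k) ≤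
        ((1 + μ ^ k - (1 + e) ^ (k / 2)) / (1 + e) ^ (k / 2)) ^ (1 / k) := by
    intro e e' he hee he'
    have a1 := hwpos e' (he.trans hee) he'
    have a2 := hwpos e he (hee.trans he')
    have a3 := hzpos e he
    have a4 : (1 + e) ^ (k / 2) ≤ (1 + e') ^ (k / 2) :=
      Real.rpow_le_rpow (by linarith) (by linarith) (by positivity)
    refine Real.rpow_le_rpow (div_nonneg (by linarith) (hzpos e' (he.trans hee)).le) ?_
      (by positivity)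
    exact div_le_div₀ (by linarith) (by linarith) a3 a4
  set L1 : ℝ := Real.sqrt (ST k μ (1 + e₁) / (1 + e₁)) with hL1
  set L2 : ℝ := Real.sqrt (ST k μ (1 + e₂) / (1 + e₂)) with hL2
  have hL1e : L1 = ((1 + μ ^ k - (1 + e₁) ^ (k / 2)) / (1 + e₁) ^ (k / 2)) ^ (1 / k) :=
    Cmp_lam hk (by linarith) (by have := hwpos e₁ h0 h1; linarith)
  have hL2e : L2 = ((1 + μ ^ k - (1 + e₂) ^ (k / 2)) / (1 + e₂) ^ (k / 2)) ^ (1 / k) :=
    Cmp_lam hk (by linarith) (by have := hwpos e₂ (h0.trans h1) le_rfl; linarith)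
  have hL21 : L2 ≤ L1 := by
    rw [hL1e, hL2e]
    exact hlam e₁ e₂ h0 h1 le_rfl
  have hL10 : 0 ≤ L1 := Real.sqrt_nonneg _
  -- `A e₂ - A e₁ ≤ L1 (e₂ - e₁)`
  have hder : ∀ e ∈ Set.Icc e₁ e₂, HasDerivAt (fun e : ℝ => L1 * e + ST k μ (1 + e))
      (L1 * 1 + -(1 * (k / 2) * (1 + e) ^ (k / 2 - 1)) * (2 / k) *
        (1 + μ ^ k - (1 + e) ^ (k / 2)) ^ (2 / k - 1)) e := by
    intro e he
    have he0 : 0 ≤ e := h0.trans he.1
    have hw := hwpos e he0 he.2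
    have d1 : HasDerivAt (fun y : ℝ => 1 + y) 1 e := (hasDerivAt_id e).const_add 1
    have d2 := d1.rpow_const (p := k / 2) (Or.inl (by positivity))
    have d3 := (d2.const_sub (1 + μ ^ k)).rpow_const (p := 2 / k)
      (Or.inl (by
        have : 0 < 1 + μ ^ k - (1 + e) ^ (k / 2) := by linarith
        exact this.ne'))
    exact ((hasDerivAt_id e).const_mul L1).add d3
  have hmono : MonotoneOn (fun e : ℝ => L1 * e + ST k μ (1 + e)) (Set.Icc e₁ e₂) := by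
    refine monotoneOn_of_deriv_nonneg (convex_Icc _ _)
      (fun e he => (hder e he).continuousAt.continuousWithinAt)
      (fun e he => (hder e (interior_subset he)).differentiableAt.differentiableWithinAt) ?_
    intro e he
    have he' := interior_subset he
    rw [(hder e he').deriv]
    have he0 : 0 ≤ e := h0.trans he'.1
    have hw := hwpos e he0 he'.2
    have hz := hz2 e he0 he'.2
    have hzp := hzpos e he0
    have e1 : -(1 * (k / 2) * (1 + e) ^ (k / 2 - 1)) * (2 / k) *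
        (1 + μ ^ k - (1 + e) ^ (k / 2)) ^ (2 / k - 1) =
        -((1 + e) ^ (k / 2 - 1) * (1 + μ ^ k - (1 + e) ^ (k / 2)) ^ (2 / k - 1)) := by
      field_simp
    rw [e1, Cmp_A' hk (by linarith) (by linarith)]
    have hx1 : 1 ≤ (1 + μ ^ k - (1 + e) ^ (k / 2)) / (1 + e) ^ (k / 2) := by
      rw [one_le_div hzp]
      linarith
    have e2 : ((1 + μ ^ k - (1 + e) ^ (k / 2)) / (1 + e) ^ (k / 2)) ^ (2 / k - 1) ≤
        ((1 + μ ^ k - (1 + e) ^ (k / 2)) / (1 + e) ^ (k / 2)) ^ (1 / k) := by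
      refine Real.rpow_le_rpow_of_exponent_le hx1 ?_
      have h4 : 1 / k ≤ 1 := by
        rw [div_le_one hk0]
        exact hk
      have h5 : 2 / k - 1 = 1 / k + (1 / k - 1) := by ring
      linarith
    have e3 := hlam e₁ e h0 he'.1 he'.2
    rw [← hL1e] at e3
    linarith
  have hA := hmono (Set.left_mem_Icc.2 h1) (Set.right_mem_Icc.2 h1) h1
  simp only at hA
  -- the brackets
  have hcT : 0 ≤ 1 + e₁' := by linarith
  have hA' : ST k μ (1 + e₂') ≤ ST k μ (1 + e₁') :=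
    (ST_strictAnti hk hμ).antitoneOn ⟨by linarith, by linarith⟩ ⟨by linarith, h2'⟩ (by linarith)
  unfold Ph
  rw [← hL1, ← hL2]
  have hB2 : 0 ≤ 2 * (μ - 1) - e₂ - (μ ^ 2 - ST k μ (1 + e₂')) := by linarith
  have b1 := mul_le_mul_of_nonneg_right hL21 hB2
  have b2 : L1 * (2 * (μ - 1) - e₂ - (μ ^ 2 - ST k μ (1 + e₂'))) + L1 * (e₂ - e₁) ≤
      L1 * (2 * (μ - 1) - e₁ - (μ ^ 2 - ST k μ (1 + e₁'))) := by
    rw [← mul_add]
    exact mul_le_mul_of_nonneg_left (by linarith) hL10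
  linarith

end EQG1
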