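import Pool.Agent.Lib.MP_226de1_co.E1.G.SqB
import Pool.Agent.Lib.MP_226de1_co.SqSeries

/-! Power series with nonnegative coefficients: `Lg - log μ`, `Sg`, `ps` and the bracket of the
functional equation, on `|d| < 1`, for `1 ≤ k ≤ 2`.

With `p = k/2 ∈ (1/2, 1]`, `β = μ^(-k) < 1`, `U d = 1 - (1-d)^p`, `L = Sg/μ = exp (Lg - log μ)`,
`u = (1 + β U)^(1/p) = s²/μ²`, `L² = u/(1-d)`:
* `U' = p (1-d)^(p-1) = p exp ((1-p) (-log (1-d)))`, so `U` has nonnegative coefficients;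
  `V = (1-d)^(p+1) - 1 + (p+1) d` has `V' = (p+1) U`, so the same for `V`;
* `(Lg)' = (1+β)/(2 (1-d)(1+βU)) = (1+β)/(2 (1-h))`, `h = 1 - (1-d)(1+βU) = (1-βp) d + β V`,
  and `0 ≤ h < 1` on `[0,1)`;
* `(ps)' = μ² u' = μ² β exp ((2-2p)(Lg - log μ))`;
* `g = 2(μ-1)(Sg - μ) + Sg d - ps`: `g(0) = 0`,
  `g' = μ² β (L - L^t) + (μ - μ² β) L + (2 μ (μ-1) + μ d) L'`, `t = 2 - 2p ∈ [0,1)`,
  `μ² β = μ^(2-k) ≤ μ`, and `L - L^t = exp w - exp (t w)`, `w = Lg - log μ`, has nonnegative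
  coefficients. -/

set_option autoImplicit false

namespace EQG1

open Complex Set Filter Topology
open EQ2 (dd dr xv ell pt NNS)

private theorem Ser_diff {r : ℝ} {f : ℂ → ℂ} (hf : NNS r f) {z : ℂ} (hz : ‖z‖ < r) :
    DifferentiableAt ℂ f z := by
  obtain ⟨a, ha, hfa⟩ := hf
  obtain ⟨ρ, h1, h2⟩ := exists_between hz
  have hρ : 0 ≤ ρ := (norm_nonneg z).trans h1.le
  have hs : Summable (fun n => a n * ρ ^ n) := (NNS.real' ha hfa hρ h2).1.summable
  have hd : DifferentiableOn ℂ (fun w : ℂ => ∑' n : ℕ, (a n : ℂ) * w ^ n) (Metric.ball 0 ρ) := by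
    refine differentiableOn_tsum_of_summable_norm hs (fun i => ?_) Metric.isOpen_ball
      (fun i w hw => ?_)
    · exact ((differentiable_id.pow i).const_mul _).differentiableOn
    · rw [norm_mul, norm_pow, Complex.norm_real, Real.norm_of_nonneg (ha i)]
      have hw' : ‖w‖ ≤ ρ := by
        have := mem_ball_zero_iff.mp hw
        exact this.le
      exact mul_le_mul_of_nonneg_left (pow_le_pow_left₀ (norm_nonneg _) hw' _) (ha i)
  have hmem : Metric.ball (0 : ℂ) ρ ∈ 𝓝 z :=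
    Metric.isOpen_ball.mem_nhds (mem_ball_zero_iff.mpr h1)
  refine (hd.differentiableAt hmem).congr_of_eventuallyEq ?_
  filter_upwards [hmem] with w hw
  have hw' : ‖w‖ < r := (mem_ball_zero_iff.mp hw).trans h2
  exact (hfa w hw').tsum_eq.symm

private theorem Ser_coeff {r : ℝ} (hr : 0 < r) {f : ℂ → ℂ} (hf : NNS r f) (n : ℕ) :
    ∃ c : ℝ, 0 ≤ c ∧ iteratedDeriv n f 0 = (c : ℂ) := by
  have hd : DifferentiableOn ℂ f (Metric.ball 0 r) := fun z hz =>
    (Ser_diff hf (mem_ball_zero_iff.mp hz)).differentiableWithinAt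
  obtain ⟨a, ha, hfa⟩ := hf
  have h2 : ∀ z : ℂ, ‖z‖ < r →
      HasSum (fun n : ℕ => ((n.factorial : ℂ)⁻¹ * iteratedDeriv n f 0) * z ^ n) (f z) := by
    intro z hz
    have h := Complex.hasSum_taylorSeries_on_ball hd (mem_ball_zero_iff.mpr hz)
    refine h.congr_fun fun n => ?_
    rw [sub_zero, smul_eq_mul, smul_eq_mul]
    ring
  have h3 := NNS.unique hr hfa h2
  have h4 := congrFun h3 n
  refine ⟨n.factorial * a n, mul_nonneg (Nat.cast_nonneg _) (ha n), ?_⟩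
  have hn : (n.factorial : ℂ) ≠ 0 := by exact_mod_cast n.factorial_ne_zero
  push_cast
  rw [h4, mul_inv_cancel_left₀ hn]

private theorem Ser_mk {r : ℝ} {f : ℂ → ℂ} (hd : ∀ z : ℂ, ‖z‖ < r → DifferentiableAt ℂ f z)
    (h : ∀ n, ∃ c : ℝ, 0 ≤ c ∧ iteratedDeriv n f 0 = (c : ℂ)) : NNS r f := by
  have hd' : DifferentiableOn ℂ f (Metric.ball 0 r) := fun z hz =>
    (hd z (mem_ball_zero_iff.mp hz)).differentiableWithinAt
  choose c hc hcn using h
  refine ⟨fun n => (n.factorial : ℝ)⁻¹ * c n, fun n => mul_nonneg (by positivity) (hc n),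
    fun z hz => ?_⟩
  have h := Complex.hasSum_taylorSeries_on_ball hd' (mem_ball_zero_iff.mpr hz)
  refine h.congr_fun fun n => ?_
  rw [sub_zero, smul_eq_mul, smul_eq_mul, hcn]
  push_cast
  ring

/-- differentiable on the disc and `NNS` on a small disc -/
private theorem Ser_ext {r ε : ℝ} (hε : 0 < ε) {f : ℂ → ℂ}
    (hd : ∀ z : ℂ, ‖z‖ < r → DifferentiableAt ℂ f z) (h : NNS ε f) : NNS r f :=
  Ser_mk hd fun n => Ser_coeff hε h n

private theorem Ser_mono {r s : ℝ} {f : ℂ → ℂ} (hf : NNS r f) (h : s ≤ r) : NNS s f := by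
  obtain ⟨a, ha, hfa⟩ := hf
  exact ⟨a, ha, fun z hz => hfa z (hz.trans_le h)⟩

private theorem Ser_re_mono {r : ℝ} {g : ℂ → ℂ} (hg : NNS r g) {t s : ℝ} (h0 : 0 ≤ t) (hts : t ≤ s)
    (hs : s < r) : (g (t : ℂ)).re ≤ (g (s : ℂ)).re := by
  obtain ⟨a, ha, hsum⟩ := hg
  have h1 := (NNS.real' ha hsum h0 (hts.trans_lt hs)).1
  have h2 := (NNS.real' ha hsum (h0.trans hts) hs).1
  exact hasSum_le (fun n => mul_le_mul_of_nonneg_left (pow_le_pow_left₀ h0 hts n) (ha n)) h1 h2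

/-- composition with an entire `F` which is `NNS` on every disc -/
private theorem Ser_comp {r : ℝ} (hr : 0 < r) {F f : ℂ → ℂ} (hF : ∀ R : ℝ, NNS R F)
    (hf : NNS r f) : NNS r (fun z => F (f z)) := by
  have hs : NNS (r / 2) (fun z => F (f z)) := by
    refine NNS.comp (r := (f ((r / 2 : ℝ) : ℂ)).re + 1) (hF _) (Ser_mono hf (by linarith)) ?_
    intro t ht0 hts
    have := Ser_re_mono hf ht0 hts.le (by linarith)
    linarith
  refine Ser_ext (half_pos hr) (fun z hz => ?_) hs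
  have h1 := Ser_diff hf hz
  have h2 : DifferentiableAt ℂ F (f z) :=
    Ser_diff (hF (‖f z‖ + 1)) (by linarith)
  exact h2.comp z h1

theorem NNS_smul {r : ℝ} {f : ℂ → ℂ} (hf : NNS r f) {c : ℝ} (hc : 0 ≤ c) :
    NNS r (fun z => (c : ℂ) * f z) :=
  (NNS.const r c hc).mul hf

/-- termwise differentiation -/
theorem NNS_deriv {r : ℝ} {f : ℂ → ℂ} (hf : NNS r f) : NNS r (deriv f) := by
  rcases le_or_gt r 0 with hr | hr
  · exact ⟨fun _ => 0, fun _ => le_rfl, fun z hz => absurd (norm_nonneg z) (by linarith)⟩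
  · refine Ser_mk (fun z hz => ?_) (fun n => ?_)
    · have hd : DifferentiableOn ℂ f (Metric.ball 0 r) := fun w hw =>
        (Ser_diff hf (mem_ball_zero_iff.mp hw)).differentiableWithinAt
      exact (hd.deriv Metric.isOpen_ball).differentiableAt
        (Metric.isOpen_ball.mem_nhds (mem_ball_zero_iff.mpr hz))
    · obtain ⟨c, hc, h⟩ := Ser_coeff hr hf (n + 1)
      rw [iteratedDeriv_succ'] at h
      exact ⟨c, hc, h⟩

/-- the Taylor series of `f` on the disc; its coefficients are those of `f'` divided by `n` -/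
theorem NNS_antideriv {r : ℝ} (hr : 0 < r) {f : ℂ → ℂ}
    (hf : ∀ z : ℂ, ‖z‖ < r → DifferentiableAt ℂ f z) {c : ℝ} (hc : 0 ≤ c) (h0 : f 0 = (c : ℂ))
    (hd : NNS r (deriv f)) : NNS r f := by
  refine Ser_mk hf fun n => ?_
  cases n with
  | zero => exact ⟨c, hc, by rw [iteratedDeriv_zero]; exact h0⟩
  | succ n =>
    obtain ⟨c, hc, h⟩ := Ser_coeff hr hd n
    exact ⟨c, hc, by rw [iteratedDeriv_succ']; exact h⟩

theorem NNS_congr {r : ℝ} {f g : ℂ → ℂ} (hf : NNS r f) (h : ∀ z : ℂ, ‖z‖ < r → f z = g z) :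
    NNS r g := by
  obtain ⟨a, ha, hfa⟩ := hf
  exact ⟨a, ha, fun z hz => by rw [← h z hz]; exact hfa z hz⟩

/-- `exp ∘ f` (no bound on `f` needed: `NNS.comp` on every smaller disc with `NNS_exp`, the
coefficients do not depend on the disc, `NNS.unique`) -/
theorem NNS_exp_comp {r : ℝ} (hr : 0 < r) {f : ℂ → ℂ} (hf : NNS r f) :
    NNS r (fun z => Complex.exp (f z)) :=
  Ser_comp hr EQ2.NNS_exp hf

/-- `exp f - exp (t f)` for `0 ≤ t ≤ 1`: `exp w - exp (t w) = ∑ (1 - t^n) w^n / n!` -/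
theorem NNS_exp_sub_comp {r : ℝ} (hr : 0 < r) {f : ℂ → ℂ} (hf : NNS r f) {t : ℝ} (h0 : 0 ≤ t)
    (h1 : t ≤ 1) : NNS r (fun z => Complex.exp (f z) - Complex.exp ((t : ℂ) * f z)) := by
  refine Ser_comp hr (F := fun w => Complex.exp w - Complex.exp ((t : ℂ) * w)) (fun R => ?_) hf
  refine ⟨fun n => (1 - t ^ n) * ((n.factorial : ℝ))⁻¹, fun n => ?_, fun z _ => ?_⟩
  · exact mul_nonneg (by linarith [pow_le_one₀ (n := n) h0 h1]) (by positivity)
  · have ha := NormedSpace.expSeries_div_hasSum_exp z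
    have hb := NormedSpace.expSeries_div_hasSum_exp ((t : ℂ) * z)
    rw [← Complex.exp_eq_exp_ℂ] at ha hb
    refine (ha.sub hb).congr_fun fun n => ?_
    push_cast
    rw [mul_pow]
    ring

theorem NNS_neglog : NNS 1 (fun d : ℂ => -Complex.log (1 - d)) := by
  refine ⟨fun n => (n : ℝ)⁻¹, fun n => by positivity, fun z hz => ?_⟩
  refine (Complex.hasSum_taylorSeries_neg_log hz).congr_fun fun n => ?_
  push_cast
  rw [div_eq_mul_inv, mul_comm]

/-- `1/(1-h)` -/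
theorem NNS_geom {h : ℂ → ℂ} (hh : NNS 1 h) (hb : ∀ t : ℝ, 0 ≤ t → t < 1 → (h (t : ℂ)).re < 1) :
    NNS 1 (fun z => 1 / (1 - h z)) := by
  have hg : NNS 1 (fun w : ℂ => 1 / (1 - w)) := by
    refine ⟨fun _ => 1, fun _ => zero_le_one, fun z hz => ?_⟩
    have h1 := hasSum_geometric_of_norm_lt_one hz
    show HasSum (fun n : ℕ => (((1 : ℝ) : ℂ)) * z ^ n) (1 / (1 - z))
    rw [one_div]
    refine h1.congr_fun fun n => ?_
    push_cast
    rw [one_mul]
  exact hg.comp hh hb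

variable {k μ : ℝ}

/-- `1 - rk k d` -/
private theorem Ser_slit {d : ℂ} (hd : ‖d‖ < 1) : 1 - d ∈ Complex.slitPlane := by
  left
  have := (abs_le.mp (Complex.abs_re_le_norm d)).2
  simp only [Complex.sub_re, Complex.one_re]
  linarith

private theorem Ser_rk_deriv (k : ℝ) {d : ℂ} (hd : 1 - d ∈ Complex.slitPlane) :
    HasDerivAt (rk k) (-((k : ℂ) / 2) * rk k d / (1 - d)) d := by
  have h1 : HasDerivAt (fun z : ℂ => 1 - z) (-1) d := by
    simpa using (hasDerivAt_id d).const_sub 1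
  have h2 := ((h1.clog hd).const_mul ((k : ℂ) / 2)).cexp
  have hne := Complex.slitPlane_ne_zero hd
  refine h2.congr_deriv ?_
  unfold rk
  field_simp

private theorem Ser_rk_zero (k : ℝ) : rk k 0 = 1 := by
  unfold rk
  simp

theorem NNS_U (hk : 1 ≤ k) (hk2 : k ≤ 2) : NNS 1 (fun d : ℂ => 1 - rk k d) := by
  have hder : ∀ z : ℂ, ‖z‖ < 1 →
      HasDerivAt (fun d : ℂ => 1 - rk k d) ((k : ℂ) / 2 * rk k z / (1 - z)) z := by
    intro z hz
    refine ((Ser_rk_deriv k (Ser_slit hz)).const_sub 1).congr_deriv ?_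
    ring
  refine NNS_antideriv one_pos (fun z hz => (hder z hz).differentiableAt) le_rfl (c := 0) ?_ ?_
  · show 1 - rk k 0 = _
    rw [Ser_rk_zero]
    simp
  · have h1 := NNS_smul (NNS_exp_comp one_pos
      (NNS_smul NNS_neglog (c := 1 - k / 2) (by linarith))) (c := k / 2) (by linarith)
    refine NNS_congr h1 fun z hz => ?_
    rw [(hder z hz).deriv]
    have hne := Complex.slitPlane_ne_zero (Ser_slit hz)
    have e : Complex.exp (((1 - k / 2 : ℝ) : ℂ) * -Complex.log (1 - z)) = rk k z / (1 - z) := by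
      rw [eq_div_iff hne]
      nth_rewrite 2 [← Complex.exp_log hne]
      rw [← Complex.exp_add]
      unfold rk
      congr 1
      push_cast
      ring
    show ((k / 2 : ℝ) : ℂ) * Complex.exp (((1 - k / 2 : ℝ) : ℂ) * -Complex.log (1 - z)) = _
    rw [e]
    push_cast
    ring

/-- `V = (1-d) rk - 1 + (k/2+1) d` -/
theorem NNS_V (hk : 1 ≤ k) (hk2 : k ≤ 2) :
    NNS 1 (fun d : ℂ => (1 - d) * rk k d - 1 + ((k : ℂ) / 2 + 1) * d) := by
  have hder : ∀ z : ℂ, ‖z‖ < 1 →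
      HasDerivAt (fun d : ℂ => (1 - d) * rk k d - 1 + ((k : ℂ) / 2 + 1) * d)
        (((k : ℂ) / 2 + 1) * (1 - rk k z)) z := by
    intro z hz
    have hne := Complex.slitPlane_ne_zero (Ser_slit hz)
    have h1 : HasDerivAt (fun z : ℂ => 1 - z) (-1) z := by
      simpa using (hasDerivAt_id z).const_sub 1
    have h2 : HasDerivAt (fun d : ℂ => ((k : ℂ) / 2 + 1) * d) ((k : ℂ) / 2 + 1) z := by
      simpa using (hasDerivAt_id z).const_mul ((k : ℂ) / 2 + 1)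
    refine (((h1.mul (Ser_rk_deriv k (Ser_slit hz))).sub_const 1).add h2).congr_deriv ?_
    field_simp
    ring
  refine NNS_antideriv one_pos (fun z hz => (hder z hz).differentiableAt) le_rfl (c := 0) ?_ ?_
  · show (1 - 0) * rk k 0 - 1 + ((k : ℂ) / 2 + 1) * 0 = _
    rw [Ser_rk_zero]
    simp
  · refine NNS_congr (NNS_smul (NNS_U hk hk2) (c := k / 2 + 1) (by linarith)) fun z hz => ?_
    rw [(hder z hz).deriv]
    push_cast
    ring

private theorem Ser_ek_deriv {d : ℂ} (hd : Adm k μ d) :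
    HasDerivAt (ek k μ) ((k : ℂ) / 2 * rk k d / (1 - d)) d := by
  refine ((Ser_rk_deriv k hd.slit1).const_sub (cK k μ : ℂ)).congr_deriv ?_
  ring

/-- `(Lg)' = c / (2 (1-d) ek)` -/
theorem Lg_deriv (hk : 1 ≤ k) (hk2 : k ≤ 2) (hμ : 1 < μ) {d : ℂ} (hd : Adm k μ d) :
    HasDerivAt (Lg k μ) ((cK k μ : ℂ) / (2 * (1 - d) * ek k μ d)) d := by
  have hne := hd.ne1
  have hne2 := Complex.slitPlane_ne_zero (hd.slit2 hk hk2 hμ)
  have hk0 : (k : ℂ) ≠ 0 := by exact_mod_cast (by linarith : k ≠ 0)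
  have h1 : HasDerivAt (fun z : ℂ => 1 - z) (-1) d := by
    simpa using (hasDerivAt_id d).const_sub 1
  have h2 := (Ser_ek_deriv hd).clog (hd.slit2 hk hk2 hμ)
  have h3 := (h2.div_const (k : ℂ)).sub ((h1.clog hd.slit1).div_const 2)
  refine h3.congr_deriv ?_
  have e : (cK k μ : ℂ) = ek k μ d + rk k d := by
    unfold ek
    ring
  rw [e]
  field_simp
  ring

/-- `(ps)' = (s/r)^(2-k)` -/
theorem ps_deriv (hk : 1 ≤ k) (hk2 : k ≤ 2) (hμ : 1 < μ) {d : ℂ} (hd : Adm k μ d) :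
    HasDerivAt (ps k μ) (Complex.exp ((2 - (k : ℂ)) * Lg k μ d)) d := by
  have hne := hd.ne1
  have hne2 := Complex.slitPlane_ne_zero (hd.slit2 hk hk2 hμ)
  have hk0 : (k : ℂ) ≠ 0 := by exact_mod_cast (by linarith : k ≠ 0)
  have h2 := (Ser_ek_deriv hd).clog (hd.slit2 hk hk2 hμ)
  have h3 := (((h2.const_mul (2 / (k : ℂ))).cexp).sub_const ((μ : ℂ) ^ 2))
  refine h3.congr_deriv ?_
  have e : Complex.exp ((2 - (k : ℂ)) * Lg k μ d) * (ek k μ d * (1 - d))
      = Complex.exp (2 / (k : ℂ) * Complex.log (ek k μ d)) * rk k d := by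
    calc Complex.exp ((2 - (k : ℂ)) * Lg k μ d) * (ek k μ d * (1 - d))
        = Complex.exp ((2 - (k : ℂ)) * Lg k μ d) *
          (Complex.exp (Complex.log (ek k μ d)) * Complex.exp (Complex.log (1 - d))) := by
          rw [Complex.exp_log hne2, Complex.exp_log hne]
      _ = Complex.exp (2 / (k : ℂ) * Complex.log (ek k μ d)) *
          Complex.exp ((k : ℂ) / 2 * Complex.log (1 - d)) := by
          rw [← Complex.exp_add, ← Complex.exp_add, ← Complex.exp_add]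
          congr 1
          unfold Lg
          field_simp
          ring
      _ = Complex.exp (2 / (k : ℂ) * Complex.log (ek k μ d)) * rk k d := rfl
  have e2 : Complex.exp ((2 - (k : ℂ)) * Lg k μ d)
      = Complex.exp (2 / (k : ℂ) * Complex.log (ek k μ d)) * rk k d / (ek k μ d * (1 - d)) := by
    rw [eq_div_iff (mul_ne_zero hne2 hne), e]
  rw [e2]
  field_simp

/-- `Sg = μ exp (Lg - log μ)` -/
private theorem Ser_Sg (hμ0 : 0 < μ) (z : ℂ) :
    Sg k μ z = (μ : ℂ) * Complex.exp (Lg k μ z - (Real.log μ : ℂ)) := by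
  have h1 : (μ : ℂ) = Complex.exp (Real.log μ : ℂ) := by
    rw [← Complex.ofReal_exp, Real.exp_log hμ0]
  unfold Sg
  nth_rewrite 1 [h1]
  rw [← Complex.exp_add]
  congr 1
  ring

/-- `exp ((2-k) Lg) = μ^(2-k) exp ((2-k) (Lg - log μ))` -/
private theorem Ser_pow (hμ0 : 0 < μ) (z : ℂ) :
    Complex.exp ((2 - (k : ℂ)) * Lg k μ z) =
      ((μ ^ (2 - k) : ℝ) : ℂ) *
        Complex.exp (((2 - k : ℝ) : ℂ) * (Lg k μ z - (Real.log μ : ℂ))) := by
  have h1 : ((μ ^ (2 - k) : ℝ) : ℂ) = Complex.exp ((2 - (k : ℂ)) * (Real.log μ : ℂ)) := by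
    rw [Real.rpow_def_of_pos hμ0, Complex.ofReal_exp]
    congr 1
    push_cast
    ring
  rw [h1, ← Complex.exp_add]
  congr 1
  push_cast
  ring

theorem NNS_Lg (hk : 1 ≤ k) (hk2 : k ≤ 2) (hμ : 1 < μ) :
    NNS 1 (fun d : ℂ => Lg k μ d - (Real.log μ : ℂ)) := by
  have hμ0 : 0 < μ := by linarith
  have hμk : 1 < μ ^ k := Real.one_lt_rpow hμ (by linarith)
  have hμk0 : 0 < μ ^ k := by linarith
  set β : ℝ := (μ ^ k)⁻¹ with hβ
  have hβ0 : 0 ≤ β := by positivity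
  have hβ1 : β ≤ 1 := inv_le_one_of_one_le₀ hμk.le
  have hder : ∀ z : ℂ, ‖z‖ < 1 →
      HasDerivAt (fun d : ℂ => Lg k μ d - (Real.log μ : ℂ))
        ((cK k μ : ℂ) / (2 * (1 - z) * ek k μ z)) z := fun z hz =>
    (Lg_deriv hk hk2 hμ (Adm.of_norm hk hk2 hμ hz)).sub_const _
  refine NNS_antideriv one_pos (fun z hz => (hder z hz).differentiableAt) le_rfl (c := 0) ?_ ?_
  · show Lg k μ 0 - (Real.log μ : ℂ) = _
    rw [Lg_zero hk hμ]
    simp
  · -- `1 - h = (1-d)(1+βU)`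
    have hh : NNS 1 (fun d : ℂ => ((1 - β * (k / 2) : ℝ) : ℂ) * d +
        (β : ℂ) * ((1 - d) * rk k d - 1 + ((k : ℂ) / 2 + 1) * d)) :=
      (NNS_smul (NNS.id 1) (by nlinarith)).add (NNS_smul (NNS_V hk hk2) hβ0)
    have h1h : ∀ d : ℂ, 1 - (((1 - β * (k / 2) : ℝ) : ℂ) * d +
        (β : ℂ) * ((1 - d) * rk k d - 1 + ((k : ℂ) / 2 + 1) * d)) =
        (1 - d) * (1 + (β : ℂ) * (1 - rk k d)) := by
      intro d
      push_cast
      ring
    have hg := NNS_geom hh (fun t ht0 ht1 => ?_)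
    · have h2 := NNS_smul hg (c := (1 + β) / 2) (by positivity)
      refine NNS_congr h2 fun z hz => ?_
      rw [(hder z hz).deriv]
      show (((1 + β) / 2 : ℝ) : ℂ) * (1 / (1 - (((1 - β * (k / 2) : ℝ) : ℂ) * z +
        (β : ℂ) * ((1 - z) * rk k z - 1 + ((k : ℂ) / 2 + 1) * z)))) = _
      rw [h1h]
      have hadm := Adm.of_norm hk hk2 hμ hz
      have hne := hadm.ne1
      have hne2 := Complex.slitPlane_ne_zero (hadm.slit2 hk hk2 hμ)
      have hm : ((μ ^ k : ℝ) : ℂ) ≠ 0 := by exact_mod_cast hμk0.ne'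
      have e1 : ek k μ z = ((μ ^ k : ℝ) : ℂ) * (1 + (β : ℂ) * (1 - rk k z)) := by
        unfold ek cK
        rw [hβ]
        push_cast
        field_simp
        ring
      have e2 : (cK k μ : ℂ) = ((μ ^ k : ℝ) : ℂ) * (1 + (β : ℂ)) := by
        unfold cK
        rw [hβ]
        push_cast
        field_simp
        ring
      have hne3 : (1 + (β : ℂ) * (1 - rk k z)) ≠ 0 := by
        intro h
        rw [e1, h, mul_zero] at hne2
        exact hne2 rfl
      rw [e1, e2]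
      push_cast
      field_simp
    · obtain ⟨a, ha, hfa⟩ := NNS_U hk hk2
      have h3 := NNS.real' ha hfa ht0 ht1
      have h4 := h1h (t : ℂ)
      rw [h3.2.2.2] at h4
      have h5 : (1 - (((1 - β * (k / 2) : ℝ) : ℂ) * (t : ℂ) +
        (β : ℂ) * ((1 - (t : ℂ)) * rk k (t : ℂ) - 1 + ((k : ℂ) / 2 + 1) * (t : ℂ)))).re =
        (1 - t) * (1 + β * (1 - rk k (t : ℂ)).re) := by
        rw [h4, ← Complex.ofReal_one, ← Complex.ofReal_sub, ← Complex.ofReal_mul,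
          ← Complex.ofReal_add, ← Complex.ofReal_mul, Complex.ofReal_re]
      have h6 : 0 < (1 - t) * (1 + β * (1 - rk k (t : ℂ)).re) := by
        have h7 := h3.2.2.1
        have h8 : 0 < 1 - t := by linarith
        have h9 : 0 ≤ β * (1 - rk k (t : ℂ)).re := mul_nonneg hβ0 h7
        have h10 : 0 < 1 + β * (1 - rk k (t : ℂ)).re := by linarith
        exact mul_pos h8 h10
      rw [Complex.sub_re, Complex.one_re] at h5
      linarith

theorem NNS_Sg (hk : 1 ≤ k) (hk2 : k ≤ 2) (hμ : 1 < μ) : NNS 1 (Sg k μ) := by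
  have hμ0 : 0 < μ := by linarith
  refine NNS_congr (NNS_smul (NNS_exp_comp one_pos (NNS_Lg hk hk2 hμ)) hμ0.le) fun z _ => ?_
  exact (Ser_Sg hμ0 z).symm

theorem NNS_ps (hk : 1 ≤ k) (hk2 : k ≤ 2) (hμ : 1 < μ) : NNS 1 (ps k μ) := by
  have hμ0 : 0 < μ := by linarith
  refine NNS_antideriv one_pos
    (fun z hz => ps_differentiableAt hk hk2 hμ (Adm.of_norm hk hk2 hμ hz)) le_rfl (c := 0)
    (by rw [ps_zero hk hμ]; simp) ?_
  have h := NNS_smul (NNS_exp_comp one_pos (NNS_smul (NNS_Lg hk hk2 hμ) (c := 2 - k)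
    (by linarith))) (c := μ ^ (2 - k)) (by positivity)
  refine NNS_congr h fun z hz => ?_
  rw [(ps_deriv hk hk2 hμ (Adm.of_norm hk hk2 hμ hz)).deriv]
  exact (Ser_pow hμ0 z).symm

/-- the bracket of the functional equation -/
noncomputable def gg (k μ : ℝ) (d : ℂ) : ℂ :=
  2 * ((μ : ℂ) - 1) * (Sg k μ d - (μ : ℂ)) + Sg k μ d * d - ps k μ d

private theorem Ser_gg_deriv (hk : 1 ≤ k) (hk2 : k ≤ 2) (hμ : 1 < μ) {z : ℂ} (hz : ‖z‖ < 1) :
    HasDerivAt (gg k μ) ((2 * ((μ : ℂ) - 1) + z) * deriv (Sg k μ) z + Sg k μ z -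
      Complex.exp ((2 - (k : ℂ)) * Lg k μ z)) z := by
  have hadm := Adm.of_norm hk hk2 hμ hz
  have h1 := (Sg_differentiableAt hk hk2 hμ hadm).hasDerivAt
  have h2 := ps_deriv hk hk2 hμ hadm
  have h3 := (((h1.sub_const (μ : ℂ)).const_mul (2 * ((μ : ℂ) - 1))).add
    (h1.mul (hasDerivAt_id z))).sub h2
  refine h3.congr_deriv ?_
  simp only [id]
  ring

theorem NNS_gg (hk : 1 ≤ k) (hk2 : k ≤ 2) (hμ : 1 < μ) : NNS 1 (gg k μ) := by
  have hμ0 : 0 < μ := by linarith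
  refine NNS_antideriv one_pos (fun z hz => (Ser_gg_deriv hk hk2 hμ hz).differentiableAt)
    le_rfl (c := 0) ?_ ?_
  · unfold gg
    rw [Ser_Sg hμ0, Lg_zero hk hμ, ps_zero hk hμ]
    simp
  · have hμk : μ ^ (2 - k) ≤ μ := by
      have h := Real.rpow_le_rpow_of_exponent_le hμ.le (by linarith : 2 - k ≤ 1)
      rwa [Real.rpow_one] at h
    have hA : NNS 1 (fun z : ℂ => ((2 * (μ - 1) : ℝ) : ℂ) + z) :=
      (NNS.const 1 _ (by linarith)).add (NNS.id 1)
    have hL := NNS_Lg (k := k) hk hk2 hμ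
    have h := ((hA.mul (NNS_deriv (NNS_Sg hk hk2 hμ))).add
      (NNS_smul (NNS_exp_sub_comp one_pos hL (t := 2 - k) (by linarith) (by linarith))
        (c := μ ^ (2 - k)) (by positivity))).add
      (NNS_smul (NNS_exp_comp one_pos hL) (c := μ - μ ^ (2 - k)) (by linarith))
    refine NNS_congr h fun z hz => ?_
    rw [(Ser_gg_deriv hk hk2 hμ hz).deriv, Ser_pow hμ0, Ser_Sg hμ0]
    push_cast
    ring

/-- `g'(0) = μ² - μ^(1-k)` -/
theorem gg_deriv_zero (hk : 1 ≤ k) (hk2 : k ≤ 2) (hμ : 1 < μ) :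
    HasDerivAt (gg k μ) ((μ ^ 2 - μ ^ (1 - k) : ℝ) : ℂ) 0 := by
  have hμ0 : 0 < μ := by linarith
  have h0 : ‖(0 : ℂ)‖ < 1 := by simp
  have hadm := Adm.of_norm hk hk2 hμ h0
  have hS : HasDerivAt (Sg k μ) (Sg k μ 0 * ((cK k μ : ℂ) / (2 * (1 - 0) * ek k μ 0))) 0 :=
    (Lg_deriv hk hk2 hμ hadm).cexp
  refine (Ser_gg_deriv hk hk2 hμ h0).congr_deriv ?_
  rw [hS.deriv, Ser_pow hμ0, Ser_Sg hμ0, Lg_zero hk hμ]
  have hek : ek k μ 0 = ((μ ^ k : ℝ) : ℂ) := by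
    unfold ek cK
    rw [Ser_rk_zero]
    push_cast
    ring
  rw [hek]
  have hμk0 : (0 : ℝ) < μ ^ k := by positivity
  have hr : (2 * (μ - 1) + 0) * (μ * 1 * ((1 + μ ^ k) / (2 * (1 - 0) * μ ^ k))) + μ * 1 -
      μ ^ (2 - k) * 1 = μ ^ 2 - μ ^ (1 - k) := by
    have e1 : μ ^ (2 - k) = μ ^ 2 / μ ^ k := by
      rw [Real.rpow_sub hμ0]
      norm_cast
    have e2 : μ ^ (1 - k) = μ / μ ^ k := by
      rw [Real.rpow_sub hμ0, Real.rpow_one]
    rw [e1, e2]
    field_simp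
    ring
  unfold cK
  rw [← hr]
  push_cast
  simp

/-- `ps'(0) = μ^(2-k)` -/
theorem ps_deriv_zero (hk : 1 ≤ k) (hk2 : k ≤ 2) (hμ : 1 < μ) :
    HasDerivAt (ps k μ) ((μ ^ (2 - k) : ℝ) : ℂ) 0 := by
  have hμ0 : 0 < μ := by linarith
  have h0 : ‖(0 : ℂ)‖ < 1 := by simp
  refine (ps_deriv hk hk2 hμ (Adm.of_norm hk hk2 hμ h0)).congr_deriv ?_
  rw [Ser_pow hμ0, Lg_zero hk hμ]
  simp

end EQG1
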