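import Pool.Agent.Lib.MP_226de1_co.E1.G.Gam
import Pool.Agent.Lib.MP_226de1_co.E1.G.Ser

/-! One-step maps on the positive and on the negative axis, monotonicity, and the explicit
super/sub-solution `Dbar = (m-1) w/(1-w)` (`m = μ²`). -/

set_option autoImplicit false

namespace EQG1

open Complex Set Filter Topology
open EQ2 (dd dr xv ell pt NNS)

noncomputable section

/-- one step on the positive axis: `D(m v) = Psi (D v) (D (v/m))` -/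
def Psi (k μ d d' : ℝ) : ℝ :=
  Sr k μ d * (2 * (μ - 1) + d + psr k μ d') - psr k μ d - 2 * μ * (μ - 1)

/-- one step on the negative axis (`e = -D`): `e(m v) = Ph (e v) (e (v/m))` -/
def Ph (k μ e e' : ℝ) : ℝ :=
  2 * μ * (μ - 1) - (μ ^ 2 - ST k μ (1 + e)) -
    Real.sqrt (ST k μ (1 + e) / (1 + e)) * (2 * (μ - 1) - e - (μ ^ 2 - ST k μ (1 + e')))

end

variable {k μ : ℝ}

private theorem Cmp1_pow (hμ : 1 < μ) : (μ ^ 2) ^ (k / 2) = μ ^ k := by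
  rw [← Real.rpow_natCast, ← Real.rpow_mul (by linarith)]
  congr 1
  push_cast
  ring

private theorem Cmp1_pos (hk : 1 ≤ k) (hμ : 1 < μ) {T : ℝ} (h0 : 0 < T)
    (h1 : T ≤ (1 + μ ^ 2) / 2) : 0 < ST k μ T := by
  unfold ST
  have hm : 1 < μ ^ 2 := by nlinarith
  have h2 : T ^ (k / 2) ≤ (μ ^ 2) ^ (k / 2) :=
    Real.rpow_le_rpow h0.le (by linarith) (by linarith)
  rw [Cmp1_pow hμ] at h2
  exact Real.rpow_pos_of_pos (by linarith) _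

/-- `Gam` with `p = k/2`, `m = μ²` (`m^p = μ^k`, `1/p = 2/k`) -/
theorem ST_Gam (hk : 1 ≤ k) (hk2 : k ≤ 2) (hμ : 1 < μ) {T : ℝ} (h0 : 0 < T)
    (h1 : T ≤ (1 + μ ^ 2) / 2) :
    μ ^ 2 / ST k μ T + ST k μ (μ ^ 2 / (1 + μ ^ 2 - T)) ≤ 1 + μ ^ 2 := by
  have hm : 1 < μ ^ 2 := by nlinarith
  have h := Gam (p := k / 2) (m := μ ^ 2) (T := T) (by linarith) (by linarith) hm h0 h1
  have e1 : (μ ^ 2) ^ (k / 2) = μ ^ k := Cmp1_pow hμ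
  have e2 : 1 / (k / 2) = 2 / k := by
    rw [one_div, inv_div]
  rw [e1, e2] at h
  exact h

/-- With `S = ST T`, `V = ST (m/(1+m-T)) ≤ 1 + m - m/S` (`ST_Gam`), `π = sqrt (T S) = T sqrt (S/T)`:
`T (right side - left side) = π² - π (V - T - (μ-1)²) - 2 μ T + m
 ≥ π² - π (2μ - m/S - T) - 2μT + m = (π - μ)² (1 + T/π) ≥ 0`  (`π m/S = m T/π`). -/
theorem KB (hk : 1 ≤ k) (hk2 : k ≤ 2) (hμ : 1 < μ) {T : ℝ} (h0 : 0 < T)
    (h1 : T ≤ (1 + μ ^ 2) / 2) :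
    1 + μ ^ 2 - μ ^ 2 / T ≤ ST k μ T - Real.sqrt (ST k μ T / T) *
      (ST k μ (μ ^ 2 / (1 + μ ^ 2 - T)) - T - (μ - 1) ^ 2) + (μ - 1) ^ 2 := by
  have hS := Cmp1_pos hk hμ h0 h1
  have hG := ST_Gam hk hk2 hμ h0 h1
  set S := ST k μ T with hSdef
  set V := ST k μ (μ ^ 2 / (1 + μ ^ 2 - T)) with hVdef
  set s := Real.sqrt (S / T) with hs
  have hs0 : 0 < s := Real.sqrt_pos.mpr (by positivity)
  have hs2 : s ^ 2 = S / T := Real.sq_sqrt (by positivity)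
  have hS2 : S = T * s ^ 2 := by
    rw [hs2]
    field_simp
  have hV : V ≤ 1 + μ ^ 2 - μ ^ 2 / S := by linarith
  have h3 : s * (V - T - (μ - 1) ^ 2) ≤ s * (1 + μ ^ 2 - μ ^ 2 / S - T - (μ - 1) ^ 2) :=
    mul_le_mul_of_nonneg_left (by linarith) hs0.le
  have h4 : 0 ≤ S - s * (1 + μ ^ 2 - μ ^ 2 / S - T - (μ - 1) ^ 2) + (μ - 1) ^ 2 -
      (1 + μ ^ 2 - μ ^ 2 / T) := by
    have : S - s * (1 + μ ^ 2 - μ ^ 2 / S - T - (μ - 1) ^ 2) + (μ - 1) ^ 2 -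
      (1 + μ ^ 2 - μ ^ 2 / T) = (T * s - μ) ^ 2 * (1 + 1 / s) / T := by
      rw [hS2]
      field_simp
      ring
    rw [this]
    positivity
  linarith

/-- `KB` with `T = 1 - Dbar = (1 - m w)/(1 - w) ∈ (0, 1]`, `1 - Dbar₋ = m (1-w)/(m-w) = m/(1+m-T)`,
`1 - Dbar₊ = (1 - m² w)/(1 - m w) = 1 + m - m/T`. -/
theorem Psi_bar (hk : 1 ≤ k) (hk2 : k ≤ 2) (hμ : 1 < μ) {w : ℝ} (h0 : 0 ≤ w) (h1 : μ ^ 2 * w < 1) :
    Psi k μ ((μ ^ 2 - 1) * w / (1 - w)) ((μ ^ 2 - 1) * w / (μ ^ 2 - w)) ≤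
      (μ ^ 2 - 1) * (μ ^ 2 * w) / (1 - μ ^ 2 * w) := by
  have hm : 1 < μ ^ 2 := by nlinarith
  have hw1 : w < 1 := by nlinarith
  have a1 : 0 < 1 - w := by linarith
  have a2 : 0 < μ ^ 2 - w := by linarith
  have a3 : 0 < 1 - μ ^ 2 * w := by linarith
  have a5 : 0 < μ ^ 2 := by positivity
  have hT0 : 0 < (1 - μ ^ 2 * w) / (1 - w) := by positivity
  have hT1 : (1 - μ ^ 2 * w) / (1 - w) ≤ 1 := by
    rw [div_le_one a1]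
    nlinarith
  have e1 : 1 - (μ ^ 2 - 1) * w / (1 - w) = (1 - μ ^ 2 * w) / (1 - w) := by
    field_simp
    ring
  have e2 : 1 - (μ ^ 2 - 1) * w / (μ ^ 2 - w) =
      μ ^ 2 / (1 + μ ^ 2 - (1 - μ ^ 2 * w) / (1 - w)) := by
    have e3 : 1 + μ ^ 2 - (1 - μ ^ 2 * w) / (1 - w) = (μ ^ 2 - w) / (1 - w) := by
      field_simp
      ring
    rw [e3]
    field_simp
    ring
  have e4 : (μ ^ 2 - 1) * (μ ^ 2 * w) / (1 - μ ^ 2 * w) =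
      μ ^ 2 / ((1 - μ ^ 2 * w) / (1 - w)) - μ ^ 2 := by
    field_simp
    ring
  have e5 : (μ ^ 2 - 1) * w / (1 - w) = 1 - (1 - μ ^ 2 * w) / (1 - w) := by linarith
  have hK := KB hk hk2 hμ hT0 (by linarith)
  unfold Psi Sr psr
  rw [e1, e2, e4, e5]
  nlinarith

/-- the same at `w = -σ`: `T = (1 + m σ)/(1 + σ) ∈ [1, (1+m)/2]` -/
theorem Ph_bar (hk : 1 ≤ k) (hk2 : k ≤ 2) (hμ : 1 < μ) {σ : ℝ} (h0 : 0 ≤ σ) (h1 : σ ≤ 1) :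
    (μ ^ 2 - 1) * (μ ^ 2 * σ) / (1 + μ ^ 2 * σ) ≤
      Ph k μ ((μ ^ 2 - 1) * σ / (1 + σ)) ((μ ^ 2 - 1) * σ / (μ ^ 2 + σ)) := by
  have hm : 1 < μ ^ 2 := by nlinarith
  have a1 : 0 < 1 + σ := by linarith
  have a2 : 0 < μ ^ 2 + σ := by linarith
  have a3 : 0 < 1 + μ ^ 2 * σ := by positivity
  have a5 : 0 < μ ^ 2 := by positivity
  have hT0 : 0 < (1 + μ ^ 2 * σ) / (1 + σ) := by positivity
  have hT1 : (1 + μ ^ 2 * σ) / (1 + σ) ≤ (1 + μ ^ 2) / 2 := by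
    rw [div_le_div_iff₀ a1 (by norm_num)]
    nlinarith
  have e1 : 1 + (μ ^ 2 - 1) * σ / (1 + σ) = (1 + μ ^ 2 * σ) / (1 + σ) := by
    field_simp
    ring
  have e2 : 1 + (μ ^ 2 - 1) * σ / (μ ^ 2 + σ) =
      μ ^ 2 / (1 + μ ^ 2 - (1 + μ ^ 2 * σ) / (1 + σ)) := by
    have e3 : 1 + μ ^ 2 - (1 + μ ^ 2 * σ) / (1 + σ) = (μ ^ 2 + σ) / (1 + σ) := by
      field_simp
      ring
    rw [e3]
    field_simp
    ring
  have e4 : (μ ^ 2 - 1) * (μ ^ 2 * σ) / (1 + μ ^ 2 * σ) =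
      μ ^ 2 - μ ^ 2 / ((1 + μ ^ 2 * σ) / (1 + σ)) := by
    field_simp
    ring
  have e5 : (μ ^ 2 - 1) * σ / (1 + σ) = (1 + μ ^ 2 * σ) / (1 + σ) - 1 := by linarith
  have hK := KB hk hk2 hμ hT0 hT1
  unfold Ph
  rw [e1, e2, e4, e5]
  nlinarith

end EQG1
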