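import Pool.Agent.Lib.MP_226de1_co.E1.G.NCorner2

/-! Starting pair on the real line, and the conclusion of the end game (compare `NStart.lean`,
`k = 2`). -/

set_option autoImplicit false

namespace EQG1

open Complex Set Filter Topology
open EQ2 (dd dr xv ell pt NNS Dom US)

variable {k μ : ℝ} {Q P : ℂ → ℂ} {u w : ℝ → ℝ}

private theorem nsG_ell (hp : Pack k μ Q P u w) : 0 < ell μ := Real.log_pos hp.hμ

private theorem nsG_dom_open (μ : ℝ) : IsOpen {x : ℂ | Dom μ x} := by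
  have h1 : IsOpen {x : ℂ | x.re < 3 * ell μ / 2} :=
    isOpen_lt Complex.continuous_re continuous_const
  have h2 : IsOpen {x : ℂ | |x.im| < Real.pi / 2} :=
    isOpen_lt Complex.continuous_im.abs continuous_const
  have h3 : IsOpen {x : ℂ | x.re < ell μ} := isOpen_lt Complex.continuous_re continuous_const
  exact (h1.inter h2).union h3

private theorem nsG_an (f : ℂ → ℂ) (hf : ∀ x : ℂ, Dom μ x → DifferentiableAt ℂ f x) {x : ℂ}
    (hx : Dom μ x) : AnalyticAt ℂ f x := by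
  have h1 : DifferentiableOn ℂ f {x : ℂ | Dom μ x} := fun y hy => (hf y hy).differentiableWithinAt
  exact h1.analyticAt ((nsG_dom_open μ).mem_nhds hx)

private theorem nsG_real (hp : Pack k μ Q P u w) {s : ℝ} (hs : s < ell μ) :
    Q (s : ℂ) = (((Q (s : ℂ)).re : ℝ) : ℂ) := by
  have hd : Dom μ (s : ℂ) := Or.inr (by simpa using hs)
  have h := hp.conjQ (s : ℂ) hd
  rw [Complex.conj_ofReal] at h
  exact (Complex.conj_eq_iff_re.mp h.symm).symm

private theorem nsG_deriv (hp : Pack k μ Q P u w) {s : ℝ} (hs : s < ell μ) :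
    HasDerivAt (fun t : ℝ => (Q (t : ℂ)).re) (deriv Q (s : ℂ)).re s := by
  have hd : Dom μ (s : ℂ) := Or.inr (by simpa using hs)
  have h1 : HasDerivAt Q (deriv Q (s : ℂ)) (s : ℂ) := (hp.dQ _ hd).hasDerivAt
  exact h1.real_of_complex

/-- real points `0 < x₁, z₁ < ℓ` with `Q x₁ = -Q z₁`, `Q' z₁ ≠ 0`.  (`Q` is real on the real
axis.  `Q 0 > 0 > Q t`.  Let `c = sup {s ≤ t : Q ≥ 0 on ...}` be a zero of `Q` such that `Q < 0` on `(c, t]`;
by the mean value theorem there is `z₁ ∈ (c, t)` with `Q' z₁ ≠ 0` and `-Q 0 < Q z₁ < 0`; then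
`x₁ ∈ (0, c)` by the intermediate value theorem.) -/
theorem exists_start (hp : Pack k μ Q P u w) (h0 : 0 < (Q 0).re) {t : ℝ} (ht0 : 0 < t)
    (ht : t < ell μ) (hneg : (Q (t : ℂ)).re < 0) :
    ∃ x₁ z₁ : ℝ, 0 < x₁ ∧ x₁ < ell μ ∧ 0 < z₁ ∧ z₁ < ell μ ∧
      Q (x₁ : ℂ) + Q (z₁ : ℂ) = 0 ∧ deriv Q (z₁ : ℂ) ≠ 0 := by
  set f : ℝ → ℝ := fun s => (Q (s : ℂ)).re with hf
  have hfd : ∀ s, s < ell μ → HasDerivAt f (deriv Q (s : ℂ)).re s := fun s hs => nsG_deriv hp hs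
  have hfc : ∀ s, s < ell μ → ContinuousAt f s := fun s hs => (hfd s hs).continuousAt
  have hf0 : 0 < f 0 := by
    show 0 < (Q ((0 : ℝ) : ℂ)).re
    rw [Complex.ofReal_zero]; exact h0
  have hft : f t < 0 := hneg
  -- the last zero
  set K : Set ℝ := {s ∈ Icc (0 : ℝ) t | 0 ≤ f s} with hK
  have hcont : ContinuousOn f (Icc 0 t) := fun s hs =>
    (hfc s (lt_of_le_of_lt hs.2 ht)).continuousWithinAt
  have hKc : IsCompact K := by
    have h1 : K = Icc (0 : ℝ) t ∩ f ⁻¹' (Ici 0) := by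
      ext s; rfl
    rw [h1]
    exact isCompact_Icc.of_isClosed_subset
      (hcont.preimage_isClosed_of_isClosed isClosed_Icc isClosed_Ici) inter_subset_left
  have hKne : K.Nonempty := ⟨0, ⟨le_rfl, ht0.le⟩, hf0.le⟩
  set c := sSup K with hc
  have hcK : c ∈ K := hKc.sSup_mem hKne
  have hc0 : 0 ≤ c := hcK.1.1
  have hct : c ≤ t := hcK.1.2
  have hfc0 : 0 ≤ f c := hcK.2
  have hctlt : c < t := lt_of_le_of_ne hct (fun h => by rw [h] at hfc0; linarith)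
  have hafter : ∀ s, c < s → s ≤ t → f s < 0 := by
    intro s hs1 hs2
    by_contra h
    push Not at h
    have h1 : s ∈ K := ⟨⟨hc0.trans hs1.le, hs2⟩, h⟩
    have h2 := le_csSup hKc.bddAbove h1
    linarith
  have hfc1 : f c ≤ 0 := by
    have h1 : Tendsto f (𝓝[>] c) (𝓝 (f c)) := (hfc c (hctlt.trans ht)).mono_left nhdsWithin_le_nhds
    refine le_of_tendsto h1 ?_
    filter_upwards [Ioo_mem_nhdsGT hctlt] with s hs
    exact (hafter s hs.1 hs.2.le).le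
  have hfcz : f c = 0 := le_antisymm hfc1 hfc0
  have hcpos : 0 < c := lt_of_le_of_ne hc0 (fun h => by rw [← h] at hfcz; linarith)
  -- near `c`, `f > - f 0`
  have hnear : ∀ᶠ s in 𝓝[>] c, -f 0 < f s := by
    have h1 : Tendsto f (𝓝[>] c) (𝓝 (f c)) := (hfc c (hctlt.trans ht)).mono_left nhdsWithin_le_nhds
    exact h1.eventually_const_lt (by rw [hfcz]; linarith)
  obtain ⟨e, he1, he2⟩ := mem_nhdsGT_iff_exists_Ioc_subset.mp hnear
  set b := min e t with hb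
  have hcb : c < b := lt_min he1 hctlt
  have hbt : b ≤ t := min_le_right _ _
  obtain ⟨z, hz, hzd⟩ := exists_hasDerivAt_eq_slope f (fun s => (deriv Q (s : ℂ)).re) hcb
    (fun s hs => (hfc s (lt_of_le_of_lt (hs.2.trans hbt) ht)).continuousWithinAt)
    (fun s hs => hfd s (lt_of_lt_of_le hs.2 (hbt.trans ht.le)))
  have hfb : f b < 0 := hafter b hcb hbt
  have hdneg : (deriv Q (z : ℂ)).re < 0 := by
    rw [hzd, hfcz, sub_zero]
    exact div_neg_of_neg_of_pos hfb (by linarith)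
  have hzt : z < t := lt_of_lt_of_le hz.2 hbt
  have hfz1 : f z < 0 := hafter z hz.1 hzt.le
  have hfz2 : -f 0 < f z := he2 ⟨hz.1, (hz.2.le.trans (min_le_left _ _))⟩
  -- the partner
  have hivt := intermediate_value_Icc' hc0 (hcont.mono (Icc_subset_Icc le_rfl hct))
  have hmem : -f z ∈ Icc (f c) (f 0) := ⟨by rw [hfcz]; linarith, by linarith⟩
  obtain ⟨x, hx, hxf⟩ := hivt hmem
  have hx0 : 0 < x := by
    refine lt_of_le_of_ne hx.1 (fun h => ?_)
    rw [← h] at hxf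
    linarith
  have hxl : x < ell μ := lt_of_le_of_lt (hx.2.trans hct) ht
  have hzl : z < ell μ := hzt.trans ht
  refine ⟨x, z, hx0, hxl, hcpos.trans hz.1, hzl, ?_, ?_⟩
  · rw [nsG_real hp hxl, nsG_real hp hzl, ← Complex.ofReal_add]
    have h1 : (Q (x : ℂ)).re + (Q (z : ℂ)).re = 0 := by
      have h2 : f x = - f z := hxf
      have h3 : f x = (Q (x : ℂ)).re := rfl
      have h4 : f z = (Q (z : ℂ)).re := rfl
      linarith
    rw [h1, Complex.ofReal_zero]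
  · intro h
    rw [h] at hdneg
    simp at hdneg

/-- The local inverse of `Q` at `z₁` gives `Z` with `Q (Z x) = - Q x`, `Z x₁ = z₁`; for real `x`
near `x₁`, `Z x` is real (`conj (Z x)` solves the same equation), so `LM x (Z x)` by `hbody`; then
the identity theorem. -/
theorem start_good (hp : Pack k μ Q P u w)
    (hbody : ∀ x z : ℝ, x < ell μ → z < ell μ → Q (x : ℂ) + Q (z : ℂ) = 0 →
      P (x : ℂ) + P (z : ℂ) = GC k μ (Q (x : ℂ)))
    {x₁ z₁ : ℝ} (hx : x₁ < ell μ) (hz : z₁ < ell μ) (hq : Q (x₁ : ℂ) + Q (z₁ : ℂ) = 0)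
    (hd : deriv Q (z₁ : ℂ) ≠ 0) : GG k μ Q P (x₁ : ℂ) (z₁ : ℂ) := by
  have hl := nsG_ell hp
  have hpi := Real.pi_pos
  have hDx : Dom μ (x₁ : ℂ) := Or.inr (by simpa using hx)
  have hDz : Dom μ (z₁ : ℂ) := Or.inr (by simpa using hz)
  refine ⟨⟨?_, ?_⟩, ⟨?_, ?_⟩, ?_⟩
  · rw [Complex.ofReal_re]; linarith
  · rw [Complex.ofReal_im, abs_zero]; positivity
  · rw [Complex.ofReal_re]; linarith
  · rw [Complex.ofReal_im, abs_zero]; positivity
  have hQx : AnalyticAt ℂ Q (x₁ : ℂ) := nsG_an Q hp.dQ hDx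
  have hQz : AnalyticAt ℂ Q (z₁ : ℂ) := nsG_an Q hp.dQ hDz
  have hPx : AnalyticAt ℂ P (x₁ : ℂ) := nsG_an P hp.dP hDx
  have hPz : AnalyticAt ℂ P (z₁ : ℂ) := nsG_an P hp.dP hDz
  set g := hQz.hasStrictDerivAt.localInverse _ _ _ hd with hg
  have hga : AnalyticAt ℂ g (Q (z₁ : ℂ)) := hQz.analyticAt_localInverse hd
  have hgl : ∀ᶠ y in 𝓝 (z₁ : ℂ), g (Q y) = y :=
    hQz.hasStrictDerivAt.eventually_left_inverse hd
  have hgr : ∀ᶠ y in 𝓝 (Q (z₁ : ℂ)), Q (g y) = y :=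
    hQz.hasStrictDerivAt.eventually_right_inverse hd
  have hgz : g (Q (z₁ : ℂ)) = (z₁ : ℂ) := hgl.self_of_nhds
  have hqq : Q (z₁ : ℂ) = - Q (x₁ : ℂ) := by
    linear_combination hq
  rw [hqq] at hga hgr hgz
  set Z : ℂ → ℂ := fun x => g (-Q x) with hZ
  have hZa : AnalyticAt ℂ Z (x₁ : ℂ) := by
    have h1 : AnalyticAt ℂ (fun x => -Q x) (x₁ : ℂ) := hQx.neg
    exact AnalyticAt.comp (g := g) (f := fun x => -Q x) hga h1
  have hZ1 : Z (x₁ : ℂ) = (z₁ : ℂ) := hgz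
  have hZc : Tendsto Z (𝓝 (x₁ : ℂ)) (𝓝 (z₁ : ℂ)) := by
    have := hZa.continuousAt.tendsto
    rwa [hZ1] at this
  have hQn : Tendsto (fun x => -Q x) (𝓝 (x₁ : ℂ)) (𝓝 (-Q (x₁ : ℂ))) :=
    hQx.continuousAt.tendsto.neg
  have hQZ : ∀ᶠ x in 𝓝 (x₁ : ℂ), Q (Z x) = - Q x := hQn.eventually hgr
  have hnz₁ : ∀ᶠ x in 𝓝 (x₁ : ℂ), 1 + Q x ^ 2 ∈ Complex.slitPlane := by
    have h1 : ∀ᶠ x in 𝓝 (x₁ : ℂ), x.re < ell μ :=
      (isOpen_lt Complex.continuous_re continuous_const).mem_nhds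
        (show (x₁ : ℂ).re < ell μ by rw [Complex.ofReal_re]; exact hx)
    have h2 : ∀ᶠ x in 𝓝 (x₁ : ℂ), |x.im| < Real.pi / 2 :=
      (isOpen_lt Complex.continuous_im.abs continuous_const).mem_nhds
        (show |(x₁ : ℂ).im| < Real.pi / 2 by rw [Complex.ofReal_im, abs_zero]; positivity)
    filter_upwards [h1, h2] with x h1 h2
    exact hp.nz x h1 h2
  refine ⟨Z, hZa, hZ1, ?_⟩
  -- the function
  set Φ : ℂ → ℂ := fun x => P x + P (Z x) - GC k μ (Q x) with hΦ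
  have hΦa : AnalyticAt ℂ Φ (x₁ : ℂ) := by
    have h1 : AnalyticAt ℂ (fun x => P (Z x)) (x₁ : ℂ) := by
      refine AnalyticAt.comp (g := P) (f := Z) ?_ hZa
      rw [hZ1]; exact hPz
    have h2 : AnalyticAt ℂ (GC k μ) (Q (x₁ : ℂ)) := by
      have h3 : DifferentiableOn ℂ (GC k μ) {q : ℂ | 1 + q ^ 2 ∈ Complex.slitPlane} :=
        fun q hq => (GC_differentiableAt hq).differentiableWithinAt
      refine h3.analyticAt (IsOpen.mem_nhds ?_ (hnz₁.self_of_nhds))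
      exact Complex.isOpen_slitPlane.preimage (by fun_prop)
    have h4 : AnalyticAt ℂ (fun x => GC k μ (Q x)) (x₁ : ℂ) :=
      AnalyticAt.comp (g := GC k μ) (f := Q) h2 hQx
    exact (hPx.add h1).sub h4
  have hcast : Tendsto (fun s : ℝ => (s : ℂ)) (𝓝 x₁) (𝓝 (x₁ : ℂ)) :=
    Complex.continuous_ofReal.tendsto x₁
  have hDev : ∀ᶠ x in 𝓝 (x₁ : ℂ), Dom μ (Z x) :=
    hZc.eventually ((nsG_dom_open μ).mem_nhds hDz)
  have hconj : Tendsto (fun x => (starRingEnd ℂ) (Z x)) (𝓝 (x₁ : ℂ)) (𝓝 (z₁ : ℂ)) := by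
    have h1 := (Complex.continuous_conj.tendsto (z₁ : ℂ)).comp hZc
    rw [Complex.conj_ofReal] at h1
    exact h1
  have hre : Tendsto (fun x => (Z x).re) (𝓝 (x₁ : ℂ)) (𝓝 z₁) := by
    have h1 := (Complex.continuous_re.tendsto (z₁ : ℂ)).comp hZc
    rw [Complex.ofReal_re] at h1
    exact h1
  have hreal : ∀ᶠ s : ℝ in 𝓝 x₁, Φ (s : ℂ) = 0 := by
    filter_upwards [hcast.eventually hQZ, hcast.eventually hDev,
      hcast.eventually (hconj.eventually hgl), hcast.eventually (hre.eventually_lt_const hz),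
      Iio_mem_nhds hx, hcast.eventually (hZc.eventually hgl)] with s h1 h2 h3 h4 h5 h6
    have h7 : (starRingEnd ℂ) (Z (s : ℂ)) = Z (s : ℂ) := by
      have h8 := hp.conjQ _ h2
      have h9 := nsG_real hp h5
      have h10 : (starRingEnd ℂ) (Q (Z (s : ℂ))) = - Q (s : ℂ) := by
        rw [h1, map_neg, h9, Complex.conj_ofReal]
      have h11 : Q ((starRingEnd ℂ) (Z (s : ℂ))) = - Q (s : ℂ) := h8.trans h10
      rw [h11, ← h1] at h3
      exact h3.symm.trans h6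
    have h12 : Z (s : ℂ) = (((Z (s : ℂ)).re : ℝ) : ℂ) := (Complex.conj_eq_iff_re.mp h7).symm
    have h13 := hbody s (Z (s : ℂ)).re h5 h4 (by rw [← h12, h1]; ring)
    rw [← h12] at h13
    show P (s : ℂ) + P (Z (s : ℂ)) - GC k μ (Q (s : ℂ)) = 0
    rw [h13, sub_self]
  have hfreq : ∃ᶠ x in 𝓝[≠] (x₁ : ℂ), Φ x = 0 := by
    have h1 : Tendsto (fun s : ℝ => (s : ℂ)) (𝓝[≠] x₁) (𝓝[≠] (x₁ : ℂ)) := by
      rw [tendsto_nhdsWithin_iff]
      refine ⟨hcast.mono_left nhdsWithin_le_nhds, ?_⟩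
      filter_upwards [self_mem_nhdsWithin] with s hs
      intro h
      exact hs (Complex.ofReal_injective h)
    have h2 : ∃ᶠ s : ℝ in 𝓝[≠] x₁, Φ (s : ℂ) = 0 :=
      (hreal.filter_mono nhdsWithin_le_nhds).frequently
    exact h1.frequently h2
  have hall := hΦa.frequently_zero_iff_eventually_zero.mp hfreq
  filter_upwards [hall, hQZ, hnz₁] with x h1 h2 h3
  refine ⟨by rw [h2]; ring, h3, ?_⟩
  exact sub_eq_zero.mp h1

theorem pack_contra (hp : Pack k μ Q P u w) (h0 : 0 < (Q 0).re) {t : ℝ} (ht0 : 0 < t)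
    (ht : t < ell μ) (hneg : (Q (t : ℂ)).re < 0)
    (hbody : ∀ x z : ℝ, x < ell μ → z < ell μ → Q (x : ℂ) + Q (z : ℂ) = 0 →
      P (x : ℂ) + P (z : ℂ) = GC k μ (Q (x : ℂ))) : False := by
  obtain ⟨x₁, z₁, hx0, hx1, hz0, hz1, hq, hd⟩ := exists_start hp h0 ht0 ht hneg
  have hg := start_good hp hbody hx1 hz1 hq hd
  have hκ : (x₁ + z₁) / 2 < ell μ := by linarith
  obtain ⟨p, hpW, -, -⟩ := exists_mem_Win (κ := (x₁ + z₁) / 2) (τ := 0) hp hκ hg (by simp)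
    (by simp) (by simp) (by simp only [Complex.ofReal_re]; linarith)
  exact no_window hp (κ := (x₁ + z₁) / 2) (by linarith) hκ ⟨p, hpW⟩

end EQG1
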