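import Pool.Agent.Lib.MP_226de1_co.E1.G.RealGt
import Pool.Agent.Lib.MP_226de1_co.E1.G.Cmp

/-! Real line: there is a point `0 < t < ℓ` with `q t < 0` (compare `RealLine2.lean`, `k = 2`).
`Er τ = -D(-τ)`, `H = (c/2)^(2/k)` is the fixed point of `ST` (`r = s`). -/

set_option autoImplicit false

namespace EQG1

open Complex Set Filter Topology
open EQ2 (dd dr xv ell pt NNS)

variable {k μ : ℝ} {F : ℕ → ℝ} {ly : ℂ → ℂ}

theorem Er_feq (h : HF k μ F) {τ : ℝ} (h0 : 0 ≤ τ) (h1 : τ < 1) :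
    Er F (μ ^ 2 * τ) = Ph k μ (Er F τ) (Er F (τ / μ ^ 2)) := by
  unfold Ph
  exact Er_feq' h h0 h1

private theorem rlg_Er_zero (h : HF k μ F) : Er F 0 = 0 := by
  have h1 := h.abs_dr_le (t := 0) (by simp)
  rw [abs_zero] at h1
  have h2 : dr F 0 = 0 := abs_eq_zero.1 (le_antisymm h1 (abs_nonneg _))
  unfold Er
  rw [neg_zero, h2, neg_zero]

private theorem rlg_Er_cont (h : HF k μ F) : ContinuousOn (Er F) (Set.Ioo (-μ ^ 2) (μ ^ 2)) := by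
  intro τ hτ
  have h1 : |(-τ)| < μ ^ 2 := by
    rw [abs_neg, abs_lt]
    exact ⟨by linarith [hτ.1], hτ.2⟩
  have h2 : ContinuousAt (dr F) (-τ) := (h.dr_differentiableAt h1).continuousAt
  have h3 : ContinuousAt (fun τ : ℝ => dr F (-τ)) τ :=
    ContinuousAt.comp (f := fun τ : ℝ => -τ) (g := dr F) h2 continuous_neg.continuousAt
  exact h3.neg.continuousWithinAt

/-- `1 < H`, `ST H = H`, and `H ≤ (1+m)/2` (power mean, `2/k ≥ 1`) -/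
theorem H_facts (hk : 1 ≤ k) (hk2 : k ≤ 2) (hμ : 1 < μ) :
    1 < (cK k μ / 2) ^ (2 / k) ∧ ST k μ ((cK k μ / 2) ^ (2 / k)) = (cK k μ / 2) ^ (2 / k) ∧
      (cK k μ / 2) ^ (2 / k) ≤ (1 + μ ^ 2) / 2 := by
  have hk0 : 0 < k := by linarith
  have hc := cK_gt (k := k) hk hμ
  have hkk : 0 < 2 / k := by positivity
  have h1 : 1 < (cK k μ / 2) ^ (2 / k) := Real.one_lt_rpow (by linarith) hkk
  have hpow : ((cK k μ / 2) ^ (2 / k)) ^ (k / 2) = cK k μ / 2 := by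
    rw [← Real.rpow_mul (by linarith)]
    have : 2 / k * (k / 2) = 1 := by field_simp
    rw [this, Real.rpow_one]
  have h2 : ST k μ ((cK k μ / 2) ^ (2 / k)) = (cK k μ / 2) ^ (2 / k) := by
    unfold ST
    rw [hpow]
    congr 1
    unfold cK
    ring
  refine ⟨h1, h2, ?_⟩
  have hμk : 1 < μ ^ k := Real.one_lt_rpow hμ hk0
  have h3 : (cK k μ / 2) ^ (2 / k) ≤ μ ^ 2 := by
    have h4 : (cK k μ / 2) ^ (2 / k) ≤ (μ ^ k) ^ (2 / k) := by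
      refine Real.rpow_le_rpow (by linarith) ?_ hkk.le
      unfold cK
      linarith
    have h5 : (μ ^ k) ^ (2 / k) = μ ^ 2 := by
      rw [← Real.rpow_mul (by linarith)]
      have e : k * (2 / k) = ((2 : ℕ) : ℝ) := by
        push_cast
        field_simp
      rw [e, Real.rpow_natCast]
    rwa [h5] at h4
  have h6 := ST_le hk hk2 hμ h1.le h3
  rw [h2] at h6
  linarith

/-- case (a): `r ≤ s` fails before `τ = 1`.  Take `τ₀ < 1` with `1 + Er τ₀ = H` (IVT); then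
`Er (m τ₀) = Ph (Er τ₀) (Er (τ₀/m)) ≥ Ph (Er (τ₀/m)) (Er (τ₀/m²)) = Er τ₀` by `Ph_mono` (`Er_X`,
`Er_mono`), and `m - ST (1 + Er τ₀) = m - H`, so the sum is `≥ m - 1 > 2(μ-1)`. -/
theorem neg_case_a (h : HF k μ F) (hy : HY k μ F ly)
    (hP : ∃ τ : ℝ, 0 ≤ τ ∧ τ ≤ 1 ∧ (cK k μ / 2) ^ (2 / k) < 1 + Er F τ) :
    ∃ τ : ℝ, 0 < τ ∧ τ < 1 ∧
      2 * (μ - 1) < Er F (μ ^ 2 * τ) + (μ ^ 2 - ST k μ (1 + Er F τ)) := by
  obtain ⟨τ₁, h0, h1, h2⟩ := hP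
  have hμ := h.hμ
  have hk := h.hk
  have hk2 := h.hk2
  have hm : (1 : ℝ) < μ ^ 2 := by nlinarith
  obtain ⟨hH1, hHS, hHm⟩ := H_facts hk hk2 hμ
  have hcont : ContinuousOn (Er F) (Set.Icc 0 τ₁) := by
    refine (rlg_Er_cont h).mono fun x hx => ⟨?_, ?_⟩
    · linarith [hx.1]
    · linarith [hx.2]
  have hivt := intermediate_value_Icc h0 hcont
  have hmem : (cK k μ / 2) ^ (2 / k) - 1 ∈ Set.Icc (Er F 0) (Er F τ₁) := by
    rw [rlg_Er_zero h]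
    exact ⟨by linarith, by linarith⟩
  obtain ⟨τ, hτ, hEτ⟩ := hivt hmem
  have hτ0 : 0 < τ := by
    rcases hτ.1.lt_or_eq with h3 | h3
    · exact h3
    · rw [← h3, rlg_Er_zero h] at hEτ
      linarith
  have hτ1 : τ < τ₁ := by
    rcases hτ.2.lt_or_eq with h3 | h3
    · exact h3
    · rw [h3] at hEτ
      linarith
  have hτ2 : τ < 1 := lt_of_lt_of_le hτ1 h1
  refine ⟨τ, hτ0, hτ2, ?_⟩
  have hμ2 : (0 : ℝ) < μ ^ 2 := by positivity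
  have e0 : 0 < τ / μ ^ 2 := div_pos hτ0 hμ2
  have e1 : τ / μ ^ 2 < τ := div_lt_self hτ0 hm
  have e2 : 0 < τ / μ ^ 2 / μ ^ 2 := div_pos e0 hμ2
  have e3 : τ / μ ^ 2 / μ ^ 2 < τ / μ ^ 2 := div_lt_self e0 hm
  have hmono := Er_mono h hy
  have a1 : Er F (τ / μ ^ 2) ≤ Er F τ :=
    (hmono ⟨e0.le, by linarith⟩ ⟨hτ0.le, by linarith⟩ e1).le
  have a2 : Er F (τ / μ ^ 2 / μ ^ 2) ≤ Er F (τ / μ ^ 2) :=
    (hmono ⟨e2.le, by linarith⟩ ⟨e0.le, by linarith⟩ e3).le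
  have a3 := Er_nonneg h hy (τ := τ / μ ^ 2) e0.le (by linarith)
  have a4 := Er_nonneg h hy (τ := τ / μ ^ 2 / μ ^ 2) e2.le (by linarith)
  have a5 := Er_X h hy hτ0.le hτ2.le
  have a6 := Er_le h (τ := τ / μ ^ 2) e0.le (by linarith)
  have a7 := cT_ge hk hk2 hμ
  have key := Ph_mono hk hk2 hμ a3 a4 a1 a2 (by linarith) (by linarith) a5.le
  rw [← Er_feq h hτ0.le hτ2, ← Er_feq h e0.le (by linarith)] at key
  have e4 : μ ^ 2 * (τ / μ ^ 2) = τ := by field_simp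
  rw [e4] at key
  have e5 : 1 + Er F τ = (cK k μ / 2) ^ (2 / k) := by linarith
  rw [e5, hHS]
  nlinarith

private theorem rlg_bar_nonneg {μ γ τ : ℝ} (hm : 1 < μ ^ 2) (hγ : 0 ≤ γ) (hτ : 0 ≤ τ) :
    0 ≤ (μ ^ 2 - 1) * (γ * τ) / (1 + γ * τ) := by
  have h1 : 0 ≤ γ * τ := mul_nonneg hγ hτ
  have h2 : 0 ≤ μ ^ 2 - 1 := by linarith
  positivity

/-- case (b): `r ≤ s` up to `τ = 1`: `Er τ ≥ Ebar τ := (m-1) γ τ/(1+γ τ)`, `γ = F 1/(m-1)`, for all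
`τ < m` (induction on the scale from `HF.base`, using `Er_feq`, `Ph_mono`, `Ph_bar`; `Ph_bar` needs
`σ = γ τ' ≤ 1`, which follows from `Ebar τ' ≤ Er τ' ≤ H - 1 ≤ (m-1)/2`). -/
theorem neg_case_b_cmp (h : HF k μ F) (hy : HY k μ F ly)
    (hP : ∀ τ : ℝ, 0 ≤ τ → τ ≤ 1 → 1 + Er F τ ≤ (cK k μ / 2) ^ (2 / k)) {τ : ℝ} (h0 : 0 ≤ τ)
    (h1 : τ < μ ^ 2) :
    (μ ^ 2 - 1) * (F 1 / (μ ^ 2 - 1) * τ) / (1 + F 1 / (μ ^ 2 - 1) * τ) ≤ Er F τ := by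
  have hμ := h.hμ
  have hk := h.hk
  have hk2 := h.hk2
  have hm : (1 : ℝ) < μ ^ 2 := by nlinarith
  have hm0 : (0 : ℝ) < μ ^ 2 := by linarith
  obtain ⟨hH1, hHS, hHm⟩ := H_facts hk hk2 hμ
  have hcT := cT_ge hk hk2 hμ
  obtain ⟨ε, hε, hbase⟩ := h.base
  set γ := F 1 / (μ ^ 2 - 1) with hγ
  have hγ0 : 0 ≤ γ := div_nonneg h.F1.le (by linarith)
  have hind : ∀ n : ℕ, ∀ τ : ℝ, 0 ≤ τ → τ < μ ^ 2 → τ < ε * (μ ^ 2) ^ n →
      (μ ^ 2 - 1) * (γ * τ) / (1 + γ * τ) ≤ Er F τ := by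
    intro n
    induction n with
    | zero =>
      intro τ h0 h1 h2
      rw [pow_zero, mul_one] at h2
      exact hbase τ h0 h2
    | succ n ih =>
      intro τ h0 h1 h2
      set σ := τ / μ ^ 2 with hσ
      have hσ0 : 0 ≤ σ := div_nonneg h0 hm0.le
      have hσ1 : σ < 1 := by rw [hσ, div_lt_one hm0]; exact h1
      have hτσ : μ ^ 2 * σ = τ := by rw [hσ]; field_simp
      have hσε : σ < ε * (μ ^ 2) ^ n := by
        rw [hσ, div_lt_iff₀ hm0]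
        calc τ < ε * (μ ^ 2) ^ (n + 1) := h2
          _ = ε * (μ ^ 2) ^ n * μ ^ 2 := by rw [pow_succ]; ring
      have hσ' : σ / μ ^ 2 ≤ σ := div_le_self hσ0 hm.le
      have hσ'0 : 0 ≤ σ / μ ^ 2 := div_nonneg hσ0 hm0.le
      have i1 := ih σ hσ0 (by linarith) hσε
      have i2 := ih (σ / μ ^ 2) hσ'0 (by linarith) (by linarith)
      have hE := hP σ hσ0 hσ1.le
      have hE' : Er F σ ≤ (μ ^ 2 - 1) / 2 := by linarith
      have hγσ0 : 0 ≤ γ * σ := mul_nonneg hγ0 hσ0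
      have hγσ : γ * σ ≤ 1 := by
        have h3 := i1.trans hE'
        rw [div_le_div_iff₀ (by linarith) (by norm_num)] at h3
        have h4 : (μ ^ 2 - 1) * (γ * σ * 2) ≤ (μ ^ 2 - 1) * (1 + γ * σ) := by linarith
        have h5 := le_of_mul_le_mul_left h4 (by linarith)
        linarith
      have hbar := Ph_bar hk hk2 hμ hγσ0 hγσ
      have hX := Er_X h hy hσ0 hσ1.le
      have hle := Er_le h (τ := σ / μ ^ 2) hσ'0 (by linarith)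
      have hmono := Ph_mono hk hk2 hμ (rlg_bar_nonneg hm hγ0 hσ0) (rlg_bar_nonneg hm hγ0 hσ'0) i1 i2
        hE (by linarith) hX.le
      rw [← Er_feq h hσ0 hσ1, hτσ] at hmono
      refine le_trans (le_trans ?_ hbar) (le_trans (le_of_eq ?_) hmono)
      · have e1 : μ ^ 2 * (γ * σ) = γ * τ := by rw [← hτσ]; ring
        rw [e1]
      · congr 1
        have e2 : γ * (σ / μ ^ 2) = γ * σ / μ ^ 2 := by ring
        rw [e2]
        have e3 : 0 < μ ^ 2 + γ * σ := by linarith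
        have e4 : 0 < 1 + γ * σ / μ ^ 2 := by positivity
        rw [div_eq_div_iff e3.ne' e4.ne']
        field_simp
  obtain ⟨n, hn⟩ : ∃ n : ℕ, τ / ε < (μ ^ 2) ^ n := pow_unbounded_of_one_lt _ hm
  refine hind n τ h0 h1 ?_
  rw [div_lt_iff₀ hε] at hn
  linarith

/-- `m - ST (1+e) ≥ e` for `1 ≤ 1+e ≤ m` (`ST_le`).  With `γ ≥ 1/m` (`HF.F1_ge`) the limit of
`Ebar (m τ) + Ebar τ` as `τ → 1` is at least `(m-1)/2 + (m-1)/(m+1)`, and
`(m-1)/2 + (m-1)/(m+1) - 2(μ-1) = (μ-1)^4/(2(m+1)) > 0`. -/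
theorem neg_case_b (h : HF k μ F) (hy : HY k μ F ly)
    (hP : ∀ τ : ℝ, 0 ≤ τ → τ ≤ 1 → 1 + Er F τ ≤ (cK k μ / 2) ^ (2 / k)) :
    ∃ τ : ℝ, 0 < τ ∧ τ < 1 ∧
      2 * (μ - 1) < Er F (μ ^ 2 * τ) + (μ ^ 2 - ST k μ (1 + Er F τ)) := by
  have hμ := h.hμ
  have hk := h.hk
  have hk2 := h.hk2
  have hm : (1 : ℝ) < μ ^ 2 := by nlinarith
  have hm0 : (0 : ℝ) < μ ^ 2 := by linarith
  obtain ⟨hH1, hHS, hHm⟩ := H_facts hk hk2 hμ
  have hcmp := fun (τ : ℝ) (h0 : 0 ≤ τ) (h1 : τ < μ ^ 2) => neg_case_b_cmp h hy hP h0 h1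
  set γ := F 1 / (μ ^ 2 - 1) with hγ
  have hγ1 : 1 / μ ^ 2 ≤ γ := by
    rw [hγ, le_div_iff₀ (by linarith)]
    have := h.F1_ge
    calc 1 / μ ^ 2 * (μ ^ 2 - 1) = (μ ^ 2 - 1) / μ ^ 2 := by ring
      _ ≤ F 1 := this
  -- monotonicity of `x ↦ (m-1) x/(1+x)`
  have hfm : ∀ a b : ℝ, 0 ≤ a → a ≤ b →
      (μ ^ 2 - 1) * a / (1 + a) ≤ (μ ^ 2 - 1) * b / (1 + b) := by
    intro a b ha hab
    rw [div_le_div_iff₀ (by linarith) (by linarith)]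
    have : 0 ≤ (μ ^ 2 - 1) * (b - a) := mul_nonneg (by linarith) (by linarith)
    nlinarith
  have hg : ContinuousAt (fun τ : ℝ => (μ ^ 2 - 1) * τ / (1 + τ) +
      (μ ^ 2 - 1) * (τ / μ ^ 2) / (1 + τ / μ ^ 2)) 1 := by
    apply ContinuousAt.add
    · apply ContinuousAt.div (by fun_prop) (by fun_prop) (by norm_num)
    · apply ContinuousAt.div (by fun_prop) (by fun_prop)
      have : 0 < 1 / μ ^ 2 := by positivity
      linarith
  have hval : 2 * (μ - 1) < (μ ^ 2 - 1) * 1 / (1 + 1) +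
      (μ ^ 2 - 1) * (1 / μ ^ 2) / (1 + 1 / μ ^ 2) := by
    have e1 : (μ ^ 2 - 1) * 1 / (1 + 1) + (μ ^ 2 - 1) * (1 / μ ^ 2) / (1 + 1 / μ ^ 2) -
        2 * (μ - 1) = (μ - 1) ^ 4 / (2 * (μ ^ 2 + 1)) := by
      field_simp
      ring
    have e2 : 0 < (μ - 1) ^ 4 / (2 * (μ ^ 2 + 1)) := by
      have : 0 < μ - 1 := by linarith
      positivity
    linarith
  have hev := hg.eventually (lt_mem_nhds hval)
  have hev2 : ∀ᶠ τ : ℝ in 𝓝[<] 1, 2 * (μ - 1) < (μ ^ 2 - 1) * τ / (1 + τ) +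
      (μ ^ 2 - 1) * (τ / μ ^ 2) / (1 + τ / μ ^ 2) := nhdsWithin_le_nhds hev
  have hev3 : ∀ᶠ τ : ℝ in 𝓝[<] 1, 0 < τ := nhdsWithin_le_nhds (lt_mem_nhds one_pos)
  obtain ⟨τ, h1, h2, h3⟩ := (hev2.and (hev3.and self_mem_nhdsWithin)).exists
  have h3' : τ < 1 := h3
  have hST : Er F τ ≤ μ ^ 2 - ST k μ (1 + Er F τ) := by
    have b1 := Er_nonneg h hy h2.le (by linarith)
    have b2 := hP τ h2.le h3'.le
    have b3 := ST_le hk hk2 hμ (T := 1 + Er F τ) (by linarith) (by linarith)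
    linarith
  refine ⟨τ, h2, h3', lt_of_lt_of_le h1 (add_le_add ?_ (le_trans ?_ hST))⟩
  · refine le_trans (hfm τ (γ * (μ ^ 2 * τ)) h2.le ?_)
      (hcmp (μ ^ 2 * τ) (by positivity) (by nlinarith))
    have e : 1 ≤ γ * μ ^ 2 := by
      rw [div_le_iff₀ hm0] at hγ1
      exact hγ1
    nlinarith
  · refine le_trans (hfm (τ / μ ^ 2) (γ * τ) (by positivity) ?_)
      (hcmp τ h2.le (by linarith))
    calc τ / μ ^ 2 = 1 / μ ^ 2 * τ := by ring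
      _ ≤ γ * τ := mul_le_mul_of_nonneg_right hγ1 h2.le

/-- there is a real point `0 < t < ℓ` with `q t < 0`: `exp (2t) = m τ`,
`rX t = 1 - (Er (mτ) + m - ST (1 + Er τ))/(2(μ-1)) < 0`, and `t > 0` by `rq_pos` -/
theorem exists_rq_neg (h : HF k μ F) (hy : HY k μ F ly) :
    ∃ t : ℝ, 0 < t ∧ t < ell μ ∧ rq k μ F ly t < 0 := by
  have hμ := h.hμ
  have hm : (1 : ℝ) < μ ^ 2 := by nlinarith
  have hex : ∃ τ : ℝ, 0 < τ ∧ τ < 1 ∧
      2 * (μ - 1) < Er F (μ ^ 2 * τ) + (μ ^ 2 - ST k μ (1 + Er F τ)) := by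
    by_cases hP : ∃ τ : ℝ, 0 ≤ τ ∧ τ ≤ 1 ∧ (cK k μ / 2) ^ (2 / k) < 1 + Er F τ
    · exact neg_case_a h hy hP
    · push Not at hP
      exact neg_case_b h hy hP
  obtain ⟨τ, h0, h1, h2⟩ := hex
  have hlog : Real.log τ < 0 := Real.log_neg h0 h1
  set t := ell μ + Real.log τ / 2 with ht
  have htl : t < ell μ := by rw [ht]; linarith
  have he1 : Real.exp (2 * t) = μ ^ 2 * τ := by
    have e1 : 2 * t = Real.log μ + Real.log μ + Real.log τ := by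
      rw [ht]
      unfold ell
      ring
    rw [e1, Real.exp_add, Real.exp_add, Real.exp_log (by linarith), Real.exp_log h0]
    ring
  have he2 : Real.exp (2 * (t - ell μ)) = τ := by
    have e1 : 2 * (t - ell μ) = Real.log τ := by
      rw [ht]
      ring
    rw [e1, Real.exp_log h0]
  have hX : rX k μ F t < 0 := by
    unfold rX
    rw [rD_eq_Er, rD_eq_Er, he1, he2]
    unfold psr
    rw [sub_neg_eq_add]
    have h3 : (-Er F (μ ^ 2 * τ) + (ST k μ (1 + Er F τ) - μ ^ 2)) / (2 * (μ - 1)) < -1 := by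
      rw [div_lt_iff₀ (by linarith)]
      linarith
    linarith
  refine ⟨t, ?_, htl, ?_⟩
  · by_contra hcon
    push Not at hcon
    have := rX_pos h hy hcon
    linarith
  · unfold rq
    exact div_neg_of_neg_of_pos hX (rY_pos ly t)

end EQG1
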