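import Pool.Agent.Lib.MP_226de1_co.E1.G.RealGt
import Pool.Agent.Lib.MP_226de1_co.Ext

/-! Extension of `q`, `p` to `Re x < 3ℓ/2`, `|Im x| < π/2` (compare `Ext.lean`, `k = 2`).
`EQ2.Dom μ x` is the domain: open strip up to `3ℓ/2`, everything up to `ℓ`. -/

set_option autoImplicit false

namespace EQG1

open Complex Set Filter Topology
open EQ2 (dd dr xv ell pt NNS Dom)

noncomputable section

/-- `log Y`, one step further -/
def LYE (k μ : ℝ) (F : ℕ → ℝ) (ly : ℂ → ℂ) (x : ℂ) : ℂ :=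
  LY ly (x - (ell μ : ℂ)) + Lg k μ (Dx F (x - (ell μ : ℂ)))

/-- `log p`, one step further -/
def lpE (k μ : ℝ) (F : ℕ → ℝ) (ly : ℂ → ℂ) (x : ℂ) : ℂ :=
  (k : ℂ) * (LYE k μ F ly x - (Real.log (μ - 1) : ℂ))

def qE (k μ : ℝ) (F : ℕ → ℝ) (ly : ℂ → ℂ) (x : ℂ) : ℂ :=
  qx k μ F ly (x - (ell μ : ℂ)) - ((μ : ℂ) - 1) * Complex.exp (-LYE k μ F ly x)

def pE (k μ : ℝ) (F : ℕ → ℝ) (ly : ℂ → ℂ) (x : ℂ) : ℂ := Complex.exp (lpE k μ F ly x)

end

variable {k μ : ℝ} {F : ℕ → ℝ} {ly : ℂ → ℂ}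

/-- values of `D` on `Re x < ℓ/2`, `|Im x| < π/2` are admissible (`P1_lt`, `rD_gt`, `rD_neg'`,
`cT_ge`, conjugation) -/
theorem adm_half (h : HF k μ F) (hy : HY k μ F ly) {x : ℂ} (hx : x.re < ell μ / 2)
    (hi : |x.im| < Real.pi / 2) : Adm k μ (Dx F x) := by
  have hl := EQ2.ell_pos h.hμ
  rw [abs_lt] at hi
  rcases lt_trichotomy x.im 0 with h0 | h0 | h0
  · left
    have h1 := P1_lt h hy (x := (starRingEnd ℂ) x) (by rw [Complex.conj_re]; exact hx)
      (by rw [Complex.conj_im]; linarith) (by rw [Complex.conj_im]; linarith [hi.1])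
    rw [h.Dx_conj, Complex.conj_im] at h1
    intro h2
    rw [h2] at h1
    simp at h1
  · right
    have hxr : x = ((x.re : ℝ) : ℂ) := by
      apply Complex.ext
      · simp
      · simp [h0]
    rw [hxr, h.Dx_ofReal (by linarith), Complex.ofReal_re]
    have h1 := rD_gt h hy hx
    have h2 := rD_neg' h hy hx
    have h3 := cT_ge h.hk h.hk2 h.hμ
    exact ⟨by linarith, by linarith⟩
  · left
    have h1 := P1_lt h hy hx h0 hi.2
    exact ne_of_lt h1

private theorem gext_lpE (x : ℂ) : lpE k μ F ly (x + (ell μ : ℂ)) =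
    (k : ℂ) * (LY ly x + Lg k μ (Dx F x) - (Real.log (μ - 1) : ℂ)) := by
  unfold lpE LYE
  rw [add_sub_cancel_right]

private theorem gext_lpE_im (x : ℂ) : (lpE k μ F ly (x + (ell μ : ℂ))).im =
    k * (LY ly x).im + k * (Lg k μ (Dx F x)).im := by
  rw [gext_lpE, Complex.im_ofReal_mul, Complex.sub_im, Complex.add_im, Complex.ofReal_im]
  ring

private theorem gext_real_im (h : HF k μ F) (hy : HY k μ F ly) {x : ℂ} (hx : x.re < ell μ)
    (h0 : x.im = 0) : (LY ly x).im = 0 := by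
  have hxr : x = ((x.re : ℝ) : ℂ) := by
    apply Complex.ext
    · simp
    · simp [h0]
  rw [hxr, HY.LY_ofReal h hy hx, Complex.ofReal_im]

private theorem gext_up (h : HF k μ F) (hy : HY k μ F ly) {x : ℂ} (hx : x.re < ell μ / 2)
    (h0 : 0 ≤ x.im) (h1 : x.im < Real.pi / 2) :
    -Real.pi < (lpE k μ F ly (x + (ell μ : ℂ))).im ∧
      (lpE k μ F ly (x + (ell μ : ℂ))).im < Real.pi := by
  have hl := EQ2.ell_pos h.hμ
  have hk := h.hk
  have hk2 := h.hk2
  have hpi := Real.pi_pos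
  rw [gext_lpE_im]
  have hadm := adm_half h hy hx (by rw [abs_of_nonneg h0]; exact h1)
  have hD := P1_le h hy hx h0 h1.le
  obtain ⟨hY1, hY2⟩ := LY_im h hy hx h0 h1.le
  obtain ⟨hL1, hL2⟩ := Lg_im_le h.hk h.hk2 h.hμ hadm hD
  have hkY : 0 ≤ k * (LY ly x).im := mul_nonneg (by linarith) hY1
  refine ⟨by linarith, ?_⟩
  rcases h0.eq_or_lt with h2 | h2
  · have h3 := gext_real_im h hy (x := x) (by linarith) h2.symm
    rw [h3, mul_zero, zero_add]
    have h4 : k * (Lg k μ (Dx F x)).im ≤ 0 := mul_nonpos_of_nonneg_of_nonpos (by linarith) hL2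
    linarith
  · have h3 := (Lg_im_lt h.hk h.hk2 h.hμ (P1_lt h hy hx h2 h1)).2
    have h4 : k * (Lg k μ (Dx F x)).im < 0 := mul_neg_of_pos_of_neg (by linarith) h3
    have h5 : k * (LY ly x).im ≤ 2 * (Real.pi / 2) := mul_le_mul hk2 hY2 hY1 (by norm_num)
    linarith

private theorem gext_conj (h : HF k μ F) (hy : HY k μ F ly) {x : ℂ} (hx : x.re < ell μ / 2)
    (hi : |x.im| < Real.pi / 2) :
    lpE k μ F ly ((starRingEnd ℂ) x + (ell μ : ℂ)) =
      (starRingEnd ℂ) (lpE k μ F ly (x + (ell μ : ℂ))) := by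
  have hl := EQ2.ell_pos h.hμ
  rw [gext_lpE, gext_lpE, HY.LY_conj h hy (by linarith), h.Dx_conj,
    Lg_conj h.hk h.hk2 h.hμ (adm_half h hy hx hi)]
  simp only [map_sub, map_mul, map_add, Complex.conj_ofReal]

/-- `lpE (x+ℓ) = k (LY x + Lg (D x) - log (μ-1))` has imaginary part in `(-π, π)`: for `0 < Im x` it is
`> -π` (`LY_im`, `Lg_im_lt`) and `< kπ/2 ≤ π`; real on the real axis; conjugation. -/
theorem lpE_im (h : HF k μ F) (hy : HY k μ F ly) {x : ℂ} (hx : x.re < ell μ / 2)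
    (hi : |x.im| < Real.pi / 2) :
    -Real.pi < (lpE k μ F ly (x + (ell μ : ℂ))).im ∧
      (lpE k μ F ly (x + (ell μ : ℂ))).im < Real.pi := by
  rcases le_or_gt 0 x.im with h0 | h0
  · rw [abs_of_nonneg h0] at hi
    exact gext_up h hy hx h0 hi
  · have h1 := gext_up h hy (x := (starRingEnd ℂ) x) (by rw [Complex.conj_re]; exact hx)
      (by rw [Complex.conj_im]; linarith)
      (by rw [Complex.conj_im]; rw [abs_of_neg h0] at hi; exact hi)
    rw [gext_conj h hy hx hi, Complex.conj_im] at h1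
    exact ⟨by linarith [h1.2], by linarith [h1.1]⟩

theorem log_pE (h : HF k μ F) (hy : HY k μ F ly) {x : ℂ} (hx : x.re < ell μ / 2)
    (hi : |x.im| < Real.pi / 2) :
    Complex.log (pE k μ F ly (x + (ell μ : ℂ))) = lpE k μ F ly (x + (ell μ : ℂ)) := by
  obtain ⟨h1, h2⟩ := lpE_im h hy hx hi
  unfold pE
  exact Complex.log_exp h1 h2.le

theorem pE_slit (h : HF k μ F) (hy : HY k μ F ly) {x : ℂ} (hx : x.re < ell μ / 2)
    (hi : |x.im| < Real.pi / 2) : pE k μ F ly (x + (ell μ : ℂ)) ∈ Complex.slitPlane := by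
  have h1 := (lpE_im h hy hx hi).2
  rw [Complex.mem_slitPlane_iff_arg]
  refine ⟨?_, ?_⟩
  · have h2 := congrArg Complex.im (log_pE h hy hx hi)
    rw [Complex.log_im] at h2
    rw [h2]
    exact ne_of_lt h1
  · unfold pE
    exact Complex.exp_ne_zero _

private theorem gext_LQ_im (x : ℂ) :
    (LQ F ly x).im = Complex.arg (1 - Dx F x) - 2 * (LY ly x).im := by
  unfold LQ
  rw [Complex.sub_im, Complex.log_im]
  have h1 : ((2 : ℂ) * LY ly x).im = 2 * (LY ly x).im := by simp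
  rw [h1]

/-- for `Re x < ℓ/2`: `LQ` is the principal logarithm of `1 + q²`: `Im LQ = arg (1-D) - 2 Im LY`,
`arg (1-D) ∈ (0,π)`, `2 Im LY ∈ [0, π]` (upper half) -/
theorem LQ_eq (h : HF k μ F) (hy : HY k μ F ly) {x : ℂ} (hx : x.re < ell μ / 2)
    (hi : |x.im| < Real.pi / 2) :
    LQ F ly x = Complex.log (1 + qx k μ F ly x ^ 2) := by
  have hl := EQ2.ell_pos h.hμ
  have hpi := Real.pi_pos
  have hadm := adm_half h hy hx hi
  have hn : Dx F x ≠ 1 := by
    intro h1
    exact hadm.ne1 (by rw [h1, sub_self])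
  have key : -Real.pi < (LQ F ly x).im ∧ (LQ F ly x).im < Real.pi := by
    rw [gext_LQ_im]
    rcases lt_trichotomy x.im 0 with h0 | h0 | h0
    · rw [abs_of_neg h0] at hi
      have hc1 : ((starRingEnd ℂ) x).re < ell μ / 2 := by rw [Complex.conj_re]; exact hx
      have hc2 : 0 < ((starRingEnd ℂ) x).im := by rw [Complex.conj_im]; linarith
      have hc3 : ((starRingEnd ℂ) x).im < Real.pi / 2 := by rw [Complex.conj_im]; exact hi
      have h1 := P1_lt h hy hc1 hc2 hc3
      obtain ⟨h2, h3⟩ := LY_im h hy hc1 hc2.le hc3.le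
      rw [h.Dx_conj, Complex.conj_im] at h1
      rw [HY.LY_conj h hy (by linarith), Complex.conj_im] at h2 h3
      have h4 : Complex.arg (1 - Dx F x) < 0 := by
        rw [Complex.arg_neg_iff, Complex.sub_im, Complex.one_im]
        linarith
      have h5 := Complex.neg_pi_lt_arg (1 - Dx F x)
      constructor <;> linarith
    · have h1 := gext_real_im h hy (x := x) (by linarith) h0
      have hxr : x = ((x.re : ℝ) : ℂ) := by
        apply Complex.ext
        · simp
        · simp [h0]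
      have h2 : Complex.arg (1 - Dx F x) = 0 := by
        rw [hxr, h.Dx_ofReal (by linarith)]
        have h3 : (1 : ℂ) - ((rD F x.re : ℝ) : ℂ) = ((1 - rD F x.re : ℝ) : ℂ) := by push_cast; ring
        rw [h3]
        exact Complex.arg_ofReal_of_nonneg (by linarith [rD_neg' h hy hx])
      rw [h1, h2]
      constructor <;> linarith
    · rw [abs_of_pos h0] at hi
      have h1 := P1_lt h hy hx h0 hi
      obtain ⟨h2, h3⟩ := LY_im h hy hx h0.le hi.le
      have h4 : 0 < (1 - Dx F x).im := by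
        rw [Complex.sub_im, Complex.one_im]
        linarith
      have h5 : 0 ≤ Complex.arg (1 - Dx F x) := Complex.arg_nonneg_iff.2 h4.le
      have h6 : Complex.arg (1 - Dx F x) < Real.pi := by
        rcases (Complex.arg_le_pi (1 - Dx F x)).lt_or_eq with h7 | h7
        · exact h7
        · exact absurd (Complex.arg_eq_pi_iff.1 h7).2 (ne_of_gt h4)
      have h7 : 0 < Complex.arg (1 - Dx F x) := by
        rcases h5.lt_or_eq with h8 | h8
        · exact h8
        · exact absurd (Complex.arg_eq_zero_iff.1 h8.symm).2 (ne_of_gt h4)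
      constructor <;> linarith
  rw [← HY.exp_LQ h hy (by linarith) hn, Complex.log_exp key.1 key.2.le]

end EQG1
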