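import Pool.Agent.Lib.MP_226de1_co.E1.G.Ext

/-! Properties of the extension (compare `Ext2.lean`, `k = 2`). -/

set_option autoImplicit false

namespace EQG1

open Complex Set Filter Topology
open EQ2 (dd dr xv ell pt NNS Dom)

variable {k μ : ℝ} {F : ℕ → ℝ} {ly : ℂ → ℂ}

private theorem gext2_re (x : ℂ) : (x - (ell μ : ℂ)).re = x.re - ell μ := by simp

private theorem gext2_im (x : ℂ) : (x - (ell μ : ℂ)).im = x.im := by simp

private theorem gext2_adm (h : HF k μ F) (hy : HY k μ F ly) {x : ℂ} (hx : Dom μ x) :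
    Adm k μ (Dx F (x - (ell μ : ℂ))) := by
  rcases hx with ⟨h1, h2⟩ | h1
  · apply adm_half h hy
    · rw [gext2_re]
      linarith
    · rw [gext2_im]
      exact h2
  · apply h.adm_Dx
    rw [gext2_re]
    linarith

private theorem gext2_lt (h : HF k μ F) {x : ℂ} (hx : Dom μ x) :
    (x - (ell μ : ℂ)).re < ell μ := by
  have hl := EQ2.ell_pos h.hμ
  rw [gext2_re]
  rcases hx with ⟨h1, h2⟩ | h1
  · linarith
  · linarith

private theorem gext2_shift_diff {f : ℂ → ℂ} {x : ℂ}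
    (hf : DifferentiableAt ℂ f (x - (ell μ : ℂ))) :
    DifferentiableAt ℂ (fun x => f (x - (ell μ : ℂ))) x := by
  have h1 : DifferentiableAt ℂ (fun x : ℂ => x - (ell μ : ℂ)) x :=
    differentiableAt_id.sub_const _
  exact DifferentiableAt.comp (f := fun x : ℂ => x - (ell μ : ℂ)) x hf h1

private theorem gext2_conj_sub (x : ℂ) :
    (starRingEnd ℂ) x - (ell μ : ℂ) = (starRingEnd ℂ) (x - (ell μ : ℂ)) := by
  rw [map_sub, Complex.conj_ofReal]

private theorem gext2_k_ne (h : HF k μ F) : (k : ℂ) ≠ 0 := by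
  have h1 : k ≠ 0 := by linarith [h.hk]
  exact_mod_cast h1

private theorem gext2_exp_log (h : HF k μ F) :
    Complex.exp ((Real.log (μ - 1) : ℝ) : ℂ) = (μ : ℂ) - 1 := by
  have hμ1 : 0 < μ - 1 := by linarith [h.hμ]
  rw [← Complex.ofReal_exp, Real.exp_log hμ1]
  push_cast
  ring

private theorem gext2_LYE_add (x : ℂ) :
    LYE k μ F ly (x + (ell μ : ℂ)) = LY ly x + Lg k μ (Dx F x) := by
  unfold LYE
  rw [add_sub_cancel_right]

theorem LYE_eq (h : HF k μ F) (hy : HY k μ F ly) {x : ℂ} (hx : x.re < ell μ) :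
    LYE k μ F ly x = LY ly x := by
  have hr : (x - (ell μ : ℂ)).re < 0 := by
    rw [gext2_re]
    linarith
  have h1 := HY.LY_shift h hy hr
  rw [sub_add_cancel] at h1
  unfold LYE
  rw [← h1]

theorem qE_eq (h : HF k μ F) (hy : HY k μ F ly) {x : ℂ} (hx : x.re < ell μ) :
    qE k μ F ly x = qx k μ F ly x := by
  have hr : (x - (ell μ : ℂ)).re < 0 := by
    rw [gext2_re]
    linarith
  have h1 := HY.qx_shift h hy hr
  rw [sub_add_cancel] at h1
  unfold qE
  rw [LYE_eq h hy hx, Complex.exp_neg, ← div_eq_mul_inv]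
  unfold Yx at h1
  rw [← h1]
  ring

theorem pE_eq (h : HF k μ F) (hy : HY k μ F ly) {x : ℂ} (hx : x.re < ell μ) :
    pE k μ F ly x = px k μ ly x := by
  unfold pE lpE px lp
  rw [LYE_eq h hy hx]

theorem LYE_differentiableAt (h : HF k μ F) (hy : HY k μ F ly) {x : ℂ} (hx : Dom μ x) :
    DifferentiableAt ℂ (LYE k μ F ly) x := by
  have ha := gext2_adm h hy hx
  have hl := gext2_lt h hx
  have h1 : DifferentiableAt ℂ (fun z => Lg k μ (Dx F z)) (x - (ell μ : ℂ)) :=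
    DifferentiableAt.comp (x - (ell μ : ℂ)) (Lg_differentiableAt h.hk h.hk2 h.hμ ha)
      (h.Dx_differentiableAt hl)
  exact (gext2_shift_diff (HY.LY_differentiableAt h hy hl)).add (gext2_shift_diff h1)

theorem qE_differentiableAt (h : HF k μ F) (hy : HY k μ F ly) {x : ℂ} (hx : Dom μ x) :
    DifferentiableAt ℂ (qE k μ F ly) x := by
  have hl := gext2_lt h hx
  exact (gext2_shift_diff (HY.qx_differentiableAt h hy hl)).sub
    ((LYE_differentiableAt h hy hx).neg.cexp.const_mul _)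

theorem pE_differentiableAt (h : HF k μ F) (hy : HY k μ F ly) {x : ℂ} (hx : Dom μ x) :
    DifferentiableAt ℂ (pE k μ F ly) x :=
  (((LYE_differentiableAt h hy hx).sub_const _).const_mul _).cexp

private theorem gext2_LYE_conj (h : HF k μ F) (hy : HY k μ F ly) {x : ℂ} (hx : Dom μ x) :
    LYE k μ F ly ((starRingEnd ℂ) x) = (starRingEnd ℂ) (LYE k μ F ly x) := by
  have ha := gext2_adm h hy hx
  have hl := gext2_lt h hx
  unfold LYE
  rw [gext2_conj_sub, HY.LY_conj h hy hl, h.Dx_conj, Lg_conj h.hk h.hk2 h.hμ ha, map_add]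

theorem qE_conj (h : HF k μ F) (hy : HY k μ F ly) {x : ℂ} (hx : Dom μ x) :
    qE k μ F ly ((starRingEnd ℂ) x) = (starRingEnd ℂ) (qE k μ F ly x) := by
  have hl := gext2_lt h hx
  unfold qE
  rw [gext2_conj_sub, HY.qx_conj h hy hl, gext2_LYE_conj h hy hx]
  simp only [map_sub, map_mul, map_neg, Complex.conj_ofReal, map_one, Complex.exp_conj,
    ← Complex.exp_conj]

theorem pE_conj (h : HF k μ F) (hy : HY k μ F ly) {x : ℂ} (hx : Dom μ x) :
    pE k μ F ly ((starRingEnd ℂ) x) = (starRingEnd ℂ) (pE k μ F ly x) := by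
  unfold pE lpE
  rw [gext2_LYE_conj h hy hx, ← Complex.exp_conj]
  simp only [map_sub, map_mul, Complex.conj_ofReal]

/-- `D(x) = q(x) - q(x+ℓ) = (μ-1) exp (-LYE (x+ℓ)) = p(x+ℓ)^(-1/k)` (`log_pE`) -/
theorem qE_step (h : HF k μ F) (hy : HY k μ F ly) {x : ℂ} (hx : x.re < ell μ / 2)
    (hi : |x.im| < Real.pi / 2) :
    qE k μ F ly x - qE k μ F ly (x + (ell μ : ℂ)) =
      Complex.exp (-Complex.log (pE k μ F ly (x + (ell μ : ℂ))) / (k : ℂ)) := by
  have hl := EQ2.ell_pos h.hμ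
  have hk0 := gext2_k_ne h
  rw [log_pE h hy hx hi, qE_eq h hy (by linarith)]
  have e1 : -lpE k μ F ly (x + (ell μ : ℂ)) / (k : ℂ) =
      ((Real.log (μ - 1) : ℝ) : ℂ) + -LYE k μ F ly (x + (ell μ : ℂ)) := by
    unfold lpE
    rw [neg_div, mul_div_cancel_left₀ _ hk0]
    ring
  rw [e1, Complex.exp_add, gext2_exp_log h]
  unfold qE
  rw [add_sub_cancel_right]
  ring

/-- `p(x) + p(x+ℓ) = p(x)(1 + exp (k Lg)) = C exp (-(k/2) LQ) = G(q x)` (`one_add_exp_k_Lg`, `LQ_eq`) -/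
theorem qpE_rel (h : HF k μ F) (hy : HY k μ F ly) {x : ℂ} (hx : x.re < ell μ / 2)
    (hi : |x.im| < Real.pi / 2) :
    pE k μ F ly x + pE k μ F ly (x + (ell μ : ℂ)) = GC k μ (qE k μ F ly x) := by
  have hl := EQ2.ell_pos h.hμ
  have hadm := adm_half h hy hx hi
  rw [qE_eq h hy (by linarith), pE_eq h hy (by linarith)]
  unfold GC
  rw [← LQ_eq h hy hx hi]
  have h1 : pE k μ F ly (x + (ell μ : ℂ)) =
      px k μ ly x * Complex.exp ((k : ℂ) * Lg k μ (Dx F x)) := by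
    unfold px lp pE lpE
    rw [gext2_LYE_add, ← Complex.exp_add]
    congr 1
    ring
  have h2 : px k μ ly x + pE k μ F ly (x + (ell μ : ℂ)) =
      px k μ ly x * ((cK k μ : ℂ) / rk k (Dx F x)) := by
    rw [h1, ← one_add_exp_k_Lg h.hk h.hk2 h.hμ hadm]
    ring
  have hμ1 : 0 < μ - 1 := by linarith [h.hμ]
  have h3 : ((μ - 1 : ℝ) ^ k : ℝ) = Real.exp (k * Real.log (μ - 1)) := by
    rw [Real.rpow_def_of_pos hμ1, mul_comm]
  have h4 : (Cc k μ : ℂ) = (cK k μ : ℂ) * Complex.exp (-((k : ℂ) * (Real.log (μ - 1) : ℂ))) := by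
    unfold Cc
    rw [h3, Complex.ofReal_div, Complex.ofReal_exp, Complex.exp_neg, Complex.ofReal_mul]
    rfl
  have h5 : (cK k μ : ℂ) / rk k (Dx F x) =
      (cK k μ : ℂ) * Complex.exp (-((k : ℂ) / 2 * Complex.log (1 - Dx F x))) := by
    unfold rk
    rw [Complex.exp_neg]
    rfl
  rw [h2, h4, h5]
  unfold px lp LQ
  have h6 : ∀ A B : ℂ, Complex.exp A * ((cK k μ : ℂ) * Complex.exp B) =
      (cK k μ : ℂ) * Complex.exp (A + B) := by
    intro A B
    rw [Complex.exp_add]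
    ring
  rw [h6, mul_assoc, ← Complex.exp_add]
  congr 2
  ring

theorem nzE (h : HF k μ F) (hy : HY k μ F ly) {x : ℂ} (hx : x.re < ell μ)
    (hi : |x.im| < Real.pi / 2) : 1 + qE k μ F ly x ^ 2 ∈ Complex.slitPlane := by
  rw [qE_eq h hy hx]
  exact nz h hy hx hi

end EQG1
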