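import Pool.Agent.Lib.MP_226de1_co.E1.G.Core
import Pool.Agent.Lib.MP_226de1_co.E1.K.GeoSys2
import Pool.Agent.Lib.MP_226de1_co.K.GeoEmb

/-! No convex body has two distinct `k`-equipower points, `1 ≤ k ≤ 2`. -/

set_option autoImplicit false

namespace EQG1

/-- the preimage of the body: convex, compact, `∓a` interior, frontier maps into frontier,
distances and segments preserved.  Copy of `EQ2.twoEqui_of_body` (proved in `../GeoFinal.lean`) with the
exponent `k` in place of `2` (the exponent plays no role). -/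
theorem twoEqui_of_body {k : ℝ} (hk : 1 ≤ k) {d : ℕ} (hd : 2 ≤ d)
    {K : Set (EuclideanSpace ℝ (Fin d))}
    (hc : Convex ℝ K) (hK : IsCompact K) {p q : EuclideanSpace ℝ (Fin d)} (hpq : p ≠ q)
    (hp : p ∈ interior K) (hq : q ∈ interior K) {c₁ c₂ : ℝ}
    (h₁ : ∀ x ∈ frontier K, ∀ y ∈ frontier K, x ≠ y → p ∈ segment ℝ x y →
      dist p x ^ k + dist p y ^ k = c₁)
    (h₂ : ∀ x ∈ frontier K, ∀ y ∈ frontier K, x ≠ y → q ∈ segment ℝ x y →
      dist q x ^ k + dist q y ^ k = c₂) :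
    ∃ (K' : Set ℂ) (a : ℝ), EQK1.TwoEqui k K' a c₁ c₂ := by
  obtain ⟨φ, hφ, hφp, hφq⟩ := EQK.exists_embedding hd hpq
  have hcont : Continuous φ := hφ.continuous
  have hseg : ∀ w x y : ℂ, w ∈ segment ℝ x y → φ w ∈ segment ℝ (φ x) (φ y) := by
    intro w x y hw
    rw [← image_segment]
    exact Set.mem_image_of_mem _ hw
  refine ⟨φ ⁻¹' K, dist p q / 2, ?_⟩
  refine
    { hk := hk
      ha := half_pos (dist_pos.mpr hpq)
      hc := hc.affine_preimage φ
      hK := hφ.isClosedEmbedding.isCompact_preimage hK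
      hi₁ := ?_
      hi₂ := ?_
      he₁ := ?_
      he₂ := ?_ }
  · apply preimage_interior_subset_interior_preimage hcont
    show φ _ ∈ interior K
    rw [hφp]
    exact hp
  · apply preimage_interior_subset_interior_preimage hcont
    show φ _ ∈ interior K
    rw [hφq]
    exact hq
  · intro x hx y hy hxy hs
    have h := h₁ (φ x) (hcont.frontier_preimage_subset K hx) (φ y)
      (hcont.frontier_preimage_subset K hy) (hφ.injective.ne hxy) (by
        have := hseg _ _ _ hs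
        rwa [hφp] at this)
    rw [← hφp, hφ.dist_eq, hφ.dist_eq] at h
    exact h
  · intro x hx y hy hxy hs
    have h := h₂ (φ x) (hcont.frontier_preimage_subset K hx) (φ y)
      (hcont.frontier_preimage_subset K hy) (hφ.injective.ne hxy) (by
        have := hseg _ _ _ hs
        rwa [hφq] at this)
    rw [← hφq, hφ.dist_eq, hφ.dist_eq] at h
    exact h

/-- no convex body in `ℝ^d` has two distinct `k`-equipower points, `1 ≤ k ≤ 2` -/
theorem final {k : ℝ} (hk : 1 ≤ k) (hk2 : k ≤ 2) {d : ℕ} (hd : 2 ≤ d)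
    (K : Set (EuclideanSpace ℝ (Fin d))) (hc : Convex ℝ K) (hK : IsCompact K) :
    ¬ ∃ p q : EuclideanSpace ℝ (Fin d), p ≠ q ∧ p ∈ interior K ∧ q ∈ interior K ∧
      (∃ c : ℝ, ∀ x ∈ frontier K, ∀ y ∈ frontier K, x ≠ y → p ∈ segment ℝ x y →
        dist p x ^ k + dist p y ^ k = c) ∧
      (∃ c : ℝ, ∀ x ∈ frontier K, ∀ y ∈ frontier K, x ≠ y → q ∈ segment ℝ x y →
        dist q x ^ k + dist q y ^ k = c) := by
  rintro ⟨p, q, hpq, hp, hq, ⟨c₁, h₁⟩, ⟨c₂, h₂⟩⟩
  obtain ⟨K', a, h⟩ := twoEqui_of_body hk hd hc hK hpq hp hq h₁ h₂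
  exact no_lineSys hk2 h.lineSys

end EQG1
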