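import Pool.Agent.Lib.MP_226de1_co.E1.G.Gam1

/-!
# MP_226de1_co, exponents `1 ≤ k ≤ 2`: the inequality (G), part 2 (idea in the header of `Gam1`)
-/

set_option autoImplicit false

namespace EQG1

open Set Filter Topology

noncomputable section

/-- the coordinate; `Real.log x = log |x|` -/
def lamb (p m t : ℝ) : ℝ := (Real.log (m ^ p - t ^ p) - Real.log (1 - t ^ p)) / p

private theorem Gam_mp {p m : ℝ} (hp : 0 < p) (hm : 1 < m) : 1 < m ^ p :=
  Real.one_lt_rpow hm hp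

private theorem Gam_tm {p m t : ℝ} (hp : 0 < p) (ht : 0 < t) (htm : t < m) : t ^ p < m ^ p :=
  Real.rpow_lt_rpow ht.le htm hp

private theorem Gam_t1 {p t : ℝ} (hp : 0 < p) (ht : 0 < t) (ht1 : t < 1) : t ^ p < 1 :=
  Real.rpow_lt_one ht.le ht1 hp

private theorem Gam_1t {p t : ℝ} (hp : 0 < p) (ht : 1 < t) : 1 < t ^ p :=
  Real.one_lt_rpow ht hp

private theorem Gam_ne {p t : ℝ} (hp : 0 < p) (ht : 0 < t) (ht1 : t ≠ 1) : 1 - t ^ p ≠ 0 := by
  rcases lt_or_gt_of_ne ht1 with h | h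
  · have := Gam_t1 hp ht h
    exact (by linarith : (0 : ℝ) < 1 - t ^ p).ne'
  · have := Gam_1t hp h
    exact (by linarith : 1 - t ^ p < (0 : ℝ)).ne

theorem lamb_deriv {p m t : ℝ} (hp : 0 < p) (hm : 1 < m) (ht : 0 < t) (htm : t < m) (ht1 : t ≠ 1) :
    HasDerivAt (lamb p m) (t ^ (p - 1) * (m ^ p - 1) / ((m ^ p - t ^ p) * (1 - t ^ p))) t := by
  have h1 : 0 < m ^ p - t ^ p := sub_pos.2 (Gam_tm hp ht htm)
  have h2 : 1 - t ^ p ≠ 0 := Gam_ne hp ht ht1
  have h3 : HasDerivAt (fun t : ℝ => t ^ p) (p * t ^ (p - 1)) t :=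
    Real.hasDerivAt_rpow_const (Or.inl ht.ne')
  have h4 : HasDerivAt (fun t : ℝ => Real.log (m ^ p - t ^ p))
      (-(p * t ^ (p - 1)) / (m ^ p - t ^ p)) t := (h3.const_sub (m ^ p)).log h1.ne'
  have h5 : HasDerivAt (fun t : ℝ => Real.log (1 - t ^ p))
      (-(p * t ^ (p - 1)) / (1 - t ^ p)) t := (h3.const_sub 1).log h2
  have h6 : HasDerivAt (lamb p m)
      ((-(p * t ^ (p - 1)) / (m ^ p - t ^ p) - -(p * t ^ (p - 1)) / (1 - t ^ p)) / p) t :=
    (h4.sub h5).div_const p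
  refine h6.congr_deriv ?_
  have h1' := h1.ne'
  have hp' := hp.ne'
  generalize m ^ p = M at *
  generalize t ^ (p - 1) = y at *
  generalize t ^ p = x at *
  field_simp
  ring

theorem lamb_strictMono {p m s t : ℝ} (hp : 0 < p) (hm : 1 < m) (hs : 0 < s) (hst : s < t)
    (ht : t < 1) : lamb p m s < lamb p m t := by
  have hmono : StrictMonoOn (lamb p m) (Ioo 0 1) := by
    refine strictMonoOn_of_deriv_pos (convex_Ioo 0 1) ?_ ?_
    · intro x hx
      exact (lamb_deriv hp hm hx.1 (hx.2.trans hm) hx.2.ne).continuousAt.continuousWithinAt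
    · intro x hx
      rw [interior_Ioo] at hx
      rw [(lamb_deriv hp hm hx.1 (hx.2.trans hm) hx.2.ne).deriv]
      have h1 := Gam_mp hp hm
      have h2 := Gam_tm hp hx.1 (hx.2.trans hm)
      have h3 := Gam_t1 hp hx.1 hx.2
      have h4 : 0 < x ^ (p - 1) := Real.rpow_pos_of_pos hx.1 _
      exact div_pos (mul_pos h4 (by linarith)) (mul_pos (by linarith) (by linarith))
  exact hmono ⟨hs, hst.trans ht⟩ ⟨hs.trans hst, ht⟩ hst

theorem lamb_strictAnti {p m s t : ℝ} (hp : 0 < p) (hm : 1 < m) (hs : 1 < s) (hst : s < t)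
    (ht : t < m) : lamb p m t < lamb p m s := by
  have hmono : StrictAntiOn (lamb p m) (Ioo 1 m) := by
    refine strictAntiOn_of_deriv_neg (convex_Ioo 1 m) ?_ ?_
    · intro x hx
      exact (lamb_deriv hp hm (by linarith [hx.1]) hx.2 hx.1.ne').continuousAt.continuousWithinAt
    · intro x hx
      rw [interior_Ioo] at hx
      have hx0 : 0 < x := by linarith [hx.1]
      rw [(lamb_deriv hp hm hx0 hx.2 hx.1.ne').deriv]
      have h1 := Gam_mp hp hm
      have h2 := Gam_tm hp hx0 hx.2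
      have h3 := Gam_1t hp hx.1
      have h4 : 0 < x ^ (p - 1) := Real.rpow_pos_of_pos hx0 _
      exact div_neg_of_pos_of_neg (mul_pos h4 (by linarith))
        (mul_neg_of_pos_of_neg (by linarith) (by linarith))
  exact hmono ⟨hs, hst.trans ht⟩ ⟨hs.trans hst, ht⟩ hst

def tau (p m t : ℝ) : ℝ := m / (1 + m ^ p - t ^ p) ^ (1 / p)

def tau1 (m t : ℝ) : ℝ := m / (1 + m - t)

/-- `(tau t)^p = m^p/(1 + m^p - t^p)` -/
theorem tau_pow {p m t : ℝ} (hp : 0 < p) (hm : 1 < m) (ht : 0 < t) (htm : t < m) :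
    tau p m t ^ p = m ^ p / (1 + m ^ p - t ^ p) := by
  have h1 := Gam_tm hp ht htm
  have h2 : 0 < 1 + m ^ p - t ^ p := by linarith
  have hm0 : 0 ≤ m := by linarith
  unfold tau
  rw [Real.div_rpow hm0 (Real.rpow_nonneg h2.le _), ← Real.rpow_mul h2.le,
    one_div_mul_cancel hp.ne', Real.rpow_one]

private theorem tau_pos {p m t : ℝ} (hp : 0 < p) (hm : 1 < m) (ht : 0 < t) (htm : t < m) :
    0 < tau p m t := by
  have h1 := Gam_tm hp ht htm
  have h2 : 0 < 1 + m ^ p - t ^ p := by linarith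
  have hm0 : 0 < m := by linarith
  exact div_pos hm0 (Real.rpow_pos_of_pos h2 _)

/-- with `x = t^p`, `M = m^p`, `x' = M/(1+M-x)`: `M - x' = M (M-x)/(1+M-x)`,
`1 - x' = (1-x)/(1+M-x)` -/
theorem lamb_tau {p m t : ℝ} (hp : 0 < p) (hm : 1 < m) (ht : 0 < t) (htm : t < m) (ht1 : t ≠ 1) :
    lamb p m (tau p m t) = lamb p m t + Real.log m := by
  have h1 := Gam_tm hp ht htm
  have h2 : 0 < 1 + m ^ p - t ^ p := by linarith
  have h3 := Gam_mp hp hm
  have h4 := Gam_ne hp ht ht1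
  have hlog : Real.log (m ^ p) = p * Real.log m := Real.log_rpow (by linarith) p
  unfold lamb
  rw [tau_pow hp hm ht htm]
  have e1 : m ^ p - m ^ p / (1 + m ^ p - t ^ p) =
      m ^ p * (m ^ p - t ^ p) / (1 + m ^ p - t ^ p) := by
    field_simp
    ring
  have e2 : 1 - m ^ p / (1 + m ^ p - t ^ p) = (1 - t ^ p) / (1 + m ^ p - t ^ p) := by
    field_simp
    ring
  rw [e1, e2, Real.log_div (mul_pos (by linarith) (by linarith)).ne' h2.ne',
    Real.log_div h4 h2.ne', Real.log_mul (by linarith : m ^ p ≠ 0) (by linarith : m ^ p - t ^ p ≠ 0), hlog]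
  field_simp
  ring

/-- `x' < 1` iff `x < 1`; `x' > x` iff `(1-x)(M-x) > 0` -/
theorem tau_left {p m t : ℝ} (hp : 0 < p) (hm : 1 < m) (ht : 0 < t) (ht1 : t < 1) :
    t < tau p m t ∧ tau p m t < 1 := by
  have htm : t < m := ht1.trans hm
  have h1 := Gam_tm hp ht htm
  have h2 : 0 < 1 + m ^ p - t ^ p := by linarith
  have h3 := Gam_mp hp hm
  have h4 := Gam_t1 hp ht ht1
  have h0 := tau_pos hp hm ht htm
  constructor
  · rw [← Real.rpow_lt_rpow_iff ht.le h0.le hp, tau_pow hp hm ht htm, lt_div_iff₀ h2]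
    nlinarith [mul_pos (sub_pos.2 h4) (sub_pos.2 h1)]
  · rw [← Real.rpow_lt_rpow_iff h0.le zero_le_one hp, tau_pow hp hm ht htm, Real.one_rpow,
      div_lt_one h2]
    linarith

theorem tau_right {p m t : ℝ} (hp : 0 < p) (hm : 1 < m) (ht : 1 < t) (htm : t < m) :
    1 < tau p m t ∧ tau p m t < t := by
  have ht0 : 0 < t := by linarith
  have h1 := Gam_tm hp ht0 htm
  have h2 : 0 < 1 + m ^ p - t ^ p := by linarith
  have h3 := Gam_mp hp hm
  have h4 := Gam_1t hp ht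
  have h0 := tau_pos hp hm ht0 htm
  constructor
  · rw [← Real.rpow_lt_rpow_iff zero_le_one h0.le hp, tau_pow hp hm ht0 htm, Real.one_rpow,
      one_lt_div h2]
    linarith
  · rw [← Real.rpow_lt_rpow_iff h0.le ht0.le hp, tau_pow hp hm ht0 htm, div_lt_iff₀ h2]
    nlinarith [mul_pos (sub_pos.2 h4) (sub_pos.2 h1)]

theorem tau1_left {m t : ℝ} (hm : 1 < m) (ht : 0 < t) (ht1 : t < 1) :
    t < tau1 m t ∧ tau1 m t < 1 := by
  have h2 : 0 < 1 + m - t := by linarith
  unfold tau1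
  constructor
  · rw [lt_div_iff₀ h2]
    nlinarith [mul_pos (sub_pos.2 ht1) (sub_pos.2 (ht1.trans hm))]
  · rw [div_lt_one h2]
    linarith

theorem tau1_right {m t : ℝ} (hm : 1 < m) (ht : 1 < t) (htm : t < m) :
    1 < tau1 m t ∧ tau1 m t < t := by
  have h2 : 0 < 1 + m - t := by linarith
  unfold tau1
  constructor
  · rw [one_lt_div h2]
    linarith
  · rw [div_lt_iff₀ h2]
    nlinarith [mul_pos (sub_pos.2 ht) (sub_pos.2 htm)]

private theorem Gam_lr {p m t : ℝ} (hp : 0 < p) (ht : 0 < t) (htm : t < m) (ht1 : t ≠ 1) :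
    t ^ (p - 1) * (m ^ p - 1) / ((m ^ p - t ^ p) * (1 - t ^ p)) =
      (m ^ p - 1) * rh p m t / ((m - t) * (1 - t)) := by
  have h1 : m - t ≠ 0 := (sub_pos.2 htm).ne'
  have h2 : 1 - t ≠ 0 := sub_ne_zero.2 ht1.symm
  have h3 : m ^ p - t ^ p ≠ 0 := (sub_pos.2 (Gam_tm hp ht htm)).ne'
  have h4 : 1 - t ^ p ≠ 0 := Gam_ne hp ht ht1
  unfold rh
  generalize m ^ p = M at *
  generalize t ^ (p - 1) = y at *
  generalize t ^ p = x at *
  field_simp

/-- derivative of `y ↦ lamb (tau1 y) - lamb y` for `0 < y < m`, `y ≠ 1`: with `s = tau1 y`,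
`tau1'(y) = m/(1+m-y)² = s²/m`, `(m-s)(1-s) = m (m-y)(1-y)/(1+m-y)²`:
it is `(m^p - 1)(rh s - rh y)/((m-y)(1-y))`. -/
theorem hh_deriv {p m y : ℝ} (hp : 0 < p) (hm : 1 < m) (hy : 0 < y) (hym : y < m) (hy1 : y ≠ 1) :
    HasDerivAt (fun y => lamb p m (tau1 m y) - lamb p m y)
      ((m ^ p - 1) * (rh p m (tau1 m y) - rh p m y) / ((m - y) * (1 - y))) y := by
  have h0 : 0 < 1 + m - y := by linarith
  have hm0 : 0 < m := by linarith
  -- the point `tau1 y`
  have hs : 0 < tau1 m y ∧ tau1 m y < m ∧ tau1 m y ≠ 1 := by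
    rcases lt_or_gt_of_ne hy1 with h | h
    · obtain ⟨a, b⟩ := tau1_left hm hy h
      exact ⟨hy.trans a, b.trans hm, b.ne⟩
    · obtain ⟨a, b⟩ := tau1_right hm h hym
      exact ⟨by linarith, b.trans hym, a.ne'⟩
  obtain ⟨hs0, hsm, hs1⟩ := hs
  have hd1 : HasDerivAt (fun y : ℝ => tau1 m y) (m / (1 + m - y) ^ 2) y := by
    have h2 : HasDerivAt (fun y : ℝ => 1 + m - y) (-1) y := (hasDerivAt_id y).const_sub (1 + m)
    have h3 := (h2.fun_inv h0.ne').const_mul m
    have e : (fun y : ℝ => tau1 m y) = fun y : ℝ => m * (1 + m - y)⁻¹ := by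
      funext z
      unfold tau1
      rw [div_eq_mul_inv]
    rw [e]
    refine h3.congr_deriv ?_
    field_simp
  have hd2 := (lamb_deriv hp hm hs0 hsm hs1).comp y hd1
  have hd3 : HasDerivAt (fun y => lamb p m (tau1 m y) - lamb p m y) _ y :=
    hd2.sub (lamb_deriv hp hm hy hym hy1)
  refine hd3.congr_deriv ?_
  rw [Gam_lr hp hs0 hsm hs1, Gam_lr hp hy hym hy1]
  have h1 : m - y ≠ 0 := (sub_pos.2 hym).ne'
  have h2 : 1 - y ≠ 0 := sub_ne_zero.2 hy1.symm
  have e1 : (m - tau1 m y) * (1 - tau1 m y) = m * (m - y) * (1 - y) / (1 + m - y) ^ 2 := by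
    unfold tau1
    field_simp
    ring
  rw [e1]
  generalize rh p m (tau1 m y) = u
  generalize rh p m y = v
  field_simp

/-- by `hh_deriv` and `rh_left` (`y < tau1 y < 1`) -/
theorem hh_left {p m x y : ℝ} (hp : 0 < p) (hp1 : p ≤ 1) (hm : 1 < m) (hx : 0 < x) (hxy : x ≤ y)
    (hy : y < 1) : lamb p m (tau1 m y) - lamb p m y ≤ lamb p m (tau1 m x) - lamb p m x := by
  have hanti : AntitoneOn (fun y => lamb p m (tau1 m y) - lamb p m y) (Ioo 0 1) := by
    refine antitoneOn_of_deriv_nonpos (convex_Ioo 0 1) ?_ ?_ ?_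
    · intro z hz
      exact (hh_deriv hp hm hz.1 (hz.2.trans hm) hz.2.ne).continuousAt.continuousWithinAt
    · intro z hz
      rw [interior_Ioo] at hz
      exact (hh_deriv hp hm hz.1 (hz.2.trans hm)
        hz.2.ne).differentiableAt.differentiableWithinAt
    · intro z hz
      rw [interior_Ioo] at hz
      rw [(hh_deriv hp hm hz.1 (hz.2.trans hm) hz.2.ne).deriv]
      obtain ⟨a, b⟩ := tau1_left hm hz.1 hz.2
      have h1 := rh_left hp hp1 hm hz.1 a.le b
      have h2 := Gam_mp hp hm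
      have h3 : z < m := hz.2.trans hm
      exact div_nonpos_of_nonpos_of_nonneg
        (mul_nonpos_of_nonneg_of_nonpos (by linarith) (by linarith))
        (mul_nonneg (by linarith) (by linarith [hz.2]))
  exact hanti ⟨hx, hxy.trans_lt hy⟩ ⟨hx.trans_le hxy, hy⟩ hxy

/-- by `hh_deriv` and `rh_right` (`1 < tau1 y < y`, `tau1 y * y ≤ m` iff `y ≤ (1+m)/2`) -/
theorem hh_right {p m x y : ℝ} (hp : 0 < p) (hp1 : p ≤ 1) (hm : 1 < m) (hx : 1 < x) (hxy : x ≤ y)
    (hy : y ≤ (1 + m) / 2) :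
    lamb p m (tau1 m y) - lamb p m y ≤ lamb p m (tau1 m x) - lamb p m x := by
  have hanti : AntitoneOn (fun y => lamb p m (tau1 m y) - lamb p m y) (Ioc 1 ((1 + m) / 2)) := by
    have hlt : ∀ z ∈ Ioc 1 ((1 + m) / 2), 0 < z ∧ z < m ∧ z ≠ 1 := by
      intro z hz
      refine ⟨by linarith [hz.1], ?_, hz.1.ne'⟩
      have := hz.2
      linarith
    refine antitoneOn_of_deriv_nonpos (convex_Ioc 1 ((1 + m) / 2)) ?_ ?_ ?_
    · intro z hz
      obtain ⟨h1, h2, h3⟩ := hlt z hz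
      exact (hh_deriv hp hm h1 h2 h3).continuousAt.continuousWithinAt
    · intro z hz
      obtain ⟨h1, h2, h3⟩ := hlt z (interior_subset hz)
      exact (hh_deriv hp hm h1 h2 h3).differentiableAt.differentiableWithinAt
    · intro z hz
      have hz' := interior_subset hz
      obtain ⟨g1, g2, g3⟩ := hlt z hz'
      rw [(hh_deriv hp hm g1 g2 g3).deriv]
      obtain ⟨a, b⟩ := tau1_right hm hz'.1 g2
      have h5 : tau1 m z * z ≤ m := by
        unfold tau1
        rw [div_mul_eq_mul_div, div_le_iff₀ (by linarith)]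
        have := hz'.2
        nlinarith
      have h1 := rh_right hp hp1 hm a b.le h5
      have h2 := Gam_mp hp hm
      exact div_nonpos_of_nonneg_of_nonpos
        (mul_nonneg (by linarith) (by linarith))
        (mul_nonpos_of_nonneg_of_nonpos (by linarith) (by linarith [hz'.1]))
  exact hanti ⟨hx, hxy.trans hy⟩ ⟨hx.trans_le hxy, hy⟩ hxy

private theorem Gam_tau_one {p m : ℝ} (hp : 0 < p) (hm : 1 < m) : tau p m 1 = 1 := by
  have hm0 : 0 < m := by linarith
  unfold tau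
  rw [Real.one_rpow, show 1 + m ^ p - 1 = m ^ p by ring, ← Real.rpow_mul hm0.le,
    mul_one_div_cancel hp.ne', Real.rpow_one, div_self hm0.ne']

private theorem Gam_tau1_one {m : ℝ} (hm : 1 < m) : tau1 m 1 = 1 := by
  have hm0 : 0 < m := by linarith
  unfold tau1
  rw [show 1 + m - 1 = m by ring, div_self hm0.ne']

/-- `T < 1`: `hh_left` with `x = T`, `y = tau T`: `lamb (tau1 (tau T)) ≤ lamb (tau1 T) + lamb (tau T) - lamb T
= lamb (tau1 T) + log m = lamb (tau (tau1 T))`, `lamb` is increasing on `(0,1)`.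
`T > 1`: `hh_right` with `x = tau T`, `y = T`: `lamb (tau1 (tau T)) ≥ lamb (tau (tau1 T))`, `lamb` is
decreasing on `(1,m)`.  `T = 1`: all values are `1`. -/
theorem tau_comm {p m T : ℝ} (hp : 0 < p) (hp1 : p ≤ 1) (hm : 1 < m) (h0 : 0 < T)
    (h1 : T ≤ (1 + m) / 2) : tau1 m (tau p m T) ≤ tau p m (tau1 m T) := by
  rcases lt_trichotomy T 1 with h | h | h
  · obtain ⟨a, b⟩ := tau_left hp hm h0 h
    obtain ⟨c, d⟩ := tau1_left hm h0 h
    have e1 := hh_left hp hp1 hm h0 a.le b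
    rw [lamb_tau hp hm h0 (h.trans hm) h.ne] at e1
    have hc0 : 0 < tau1 m T := h0.trans c
    have e2 := lamb_tau hp hm hc0 (d.trans hm) d.ne
    obtain ⟨a', b'⟩ := tau_left hp hm hc0 d
    obtain ⟨c', d'⟩ := tau1_left hm (h0.trans a) b
    by_contra hcon
    have hlt := not_le.1 hcon
    have := lamb_strictMono hp hm (hc0.trans a') hlt d'
    linarith
  · subst h
    rw [Gam_tau_one hp hm, Gam_tau1_one hm, Gam_tau_one hp hm]
  · have hTm : T < m := by linarith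
    obtain ⟨a, b⟩ := tau_right hp hm h hTm
    obtain ⟨c, d⟩ := tau1_right hm h hTm
    have e1 := hh_right hp hp1 hm a b.le h1
    rw [lamb_tau hp hm h0 hTm h.ne'] at e1
    have hc0 : 0 < tau1 m T := by linarith
    have e2 := lamb_tau hp hm hc0 (d.trans hTm) c.ne'
    obtain ⟨a', b'⟩ := tau_right hp hm c (d.trans hTm)
    obtain ⟨c', d'⟩ := tau1_right hm a (b.trans hTm)
    by_contra hcon
    have hlt := not_le.1 hcon
    have := lamb_strictAnti hp hm a' hlt (d'.trans (b.trans hTm))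
    linarith

/-- (G): from `tau_comm`, i.e. `m/(1+m-tau T) ≤ m/S(tau1 T)`, so `S(tau1 T) ≤ 1 + m - tau T`
(`tau T < m`, `tau1 T < m`) -/
theorem Gam {p m T : ℝ} (hp : 0 < p) (hp1 : p ≤ 1) (hm : 1 < m) (h0 : 0 < T)
    (h1 : T ≤ (1 + m) / 2) :
    m / (1 + m ^ p - T ^ p) ^ (1 / p) + (1 + m ^ p - (m / (1 + m - T)) ^ p) ^ (1 / p) ≤ 1 + m := by
  have hTm : T < m := by linarith
  have htau : 0 < tau p m T ∧ tau p m T < m := by
    rcases lt_trichotomy T 1 with h | h | h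
    · obtain ⟨a, b⟩ := tau_left hp hm h0 h
      exact ⟨h0.trans a, b.trans hm⟩
    · subst h
      rw [Gam_tau_one hp hm]
      exact ⟨one_pos, hm⟩
    · obtain ⟨a, b⟩ := tau_right hp hm h hTm
      exact ⟨by linarith, b.trans hTm⟩
  have htau1 : 0 < tau1 m T ∧ tau1 m T < m := by
    rcases lt_trichotomy T 1 with h | h | h
    · obtain ⟨a, b⟩ := tau1_left hm h0 h
      exact ⟨h0.trans a, b.trans hm⟩
    · subst h
      rw [Gam_tau1_one hm]
      exact ⟨one_pos, hm⟩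
    · obtain ⟨a, b⟩ := tau1_right hm h hTm
      exact ⟨by linarith, b.trans hTm⟩
  have key := tau_comm hp hp1 hm h0 h1
  have h2 := Gam_tm hp htau1.1 htau1.2
  have h3 : 0 < 1 + m ^ p - tau1 m T ^ p := by linarith
  have h4 : 0 < (1 + m ^ p - tau1 m T ^ p) ^ (1 / p) := Real.rpow_pos_of_pos h3 _
  have h5 : 0 < 1 + m - tau p m T := by linarith [htau.2]
  have hm0 : 0 < m := by linarith
  have h6 : m / (1 + m - tau p m T) ≤ m / (1 + m ^ p - tau1 m T ^ p) ^ (1 / p) := key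
  have h7 : (1 + m ^ p - tau1 m T ^ p) ^ (1 / p) ≤ 1 + m - tau p m T :=
    (div_le_div_iff_of_pos_left hm0 h5 h4).1 h6
  have h8 : tau p m T + (1 + m ^ p - tau1 m T ^ p) ^ (1 / p) ≤ 1 + m := by linarith
  exact h8

end

end EQG1
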