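import Pool.Agent.Lib.MP_226de1_co.E1.G.LocalExist

/-! Local existence by monotone iteration (compare `LocalExist2.lean` one directory up, `k = 2`).

`m = μ²`, `ρ = (m-1)/m`, `Db t = t/(1 - t/(m-1))` (`Db t < 1` for `0 ≤ t < ρ`).
Iteration: `f₀(v) = v`, `f_{N+1}(v) = PsiC (f_N(v/m)) (f_N(v/m²))` on `|v| < ρ`.  Invariant of the
coefficients `a` of `f_N`: `a 0 = 0`, `a 1 = 1` (by `gg_deriv_zero`, `ps_deriv_zero`:
`(m - μ^(1-k))/m + μ μ^(2-k)/m² = 1`), `a n ≥ 0`, for `0 ≤ t < ρ` summable with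
`∑ a n t^n ≤ Db t` (`PsiC_ofReal`, `Psi_mono`, `Psi_bar` with `w = t/(m(m-1))`), and the negative side
for `0 ≤ τ < ε`:  `τ/(1 + τ/(m-1)) ≤ - ∑ a n (-τ)^n`.  For the latter put `σ = τ/(m(m-1))`,
`e = -f_N(-τ/m) ≥ (m-1)σ/(1+σ)`, `e' = -f_N(-τ/m²) ≥ (m-1)σ/(m+σ)`, `|e|, |e'| ≤ Db (τ/m)`;
`PsiC_neg`, `Ph_mono`, `Ph_bar` give `-f_{N+1}(-τ) = Ph e e' ≥ (m-1) m σ/(1 + m σ) = τ/(1 + τ/(m-1))`.
The conditions of `Ph_mono` hold for small `ε`, independent of `N`: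
`1 + Db (ε/m) ≤ (c/2)^(2/k)` (`c > 2`), `Db(ε/m) + (m - ST (1 + Db (ε/m))) ≤ 2(μ-1)`
(`ST` is continuous at `1`, `ST 1 = m`).
The coefficients are nondecreasing in `N` (`PsiC_step_mono`) and bounded; the limit `a` satisfies the
invariant and the fixed point equation (dominated convergence, continuity of `gg`, `Sg`, `ps`). -/

set_option autoImplicit false

namespace EQG1

open Complex Set Filter Topology
open EQ2 (dd dr xv ell pt NNS)

variable {k μ : ℝ}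

/-- derivative at `0` of the sum of a power series -/
private theorem gle_hasDerivAt {c : ℕ → ℂ} {r : ℝ} (hr : 0 < r) {f : ℂ → ℂ}
    (h : ∀ z : ℂ, ‖z‖ < r → HasSum (fun n => c n * z ^ n) (f z)) : HasDerivAt f (c 1) 0 := by
  have hρ : (0 : ℝ) < r / 2 := by positivity
  have hs : Summable (fun n => ‖c n‖ * (r / 2) ^ n) := by
    have h1 := (h ((r / 2 : ℝ) : ℂ) (by
      rw [Complex.norm_real, Real.norm_of_nonneg hρ.le]; linarith)).summable.norm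
    refine h1.congr (fun n => ?_)
    rw [norm_mul, norm_pow, Complex.norm_real, Real.norm_of_nonneg hρ.le]
  have hs2 : Summable (fun n => ‖c (n + 2)‖ * (r / 2) ^ n) := by
    have h1 := (summable_nat_add_iff 2).2 hs
    have h2 := h1.mul_left (((r / 2) ^ 2)⁻¹)
    refine h2.congr (fun n => ?_)
    rw [pow_add]
    field_simp
  set M := ∑' n, ‖c (n + 2)‖ * (r / 2) ^ n with hM
  have h0 : f 0 = c 0 := by
    have h1 := h 0 (by simpa using hr)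
    have h2 : HasSum (fun n => c n * (0 : ℂ) ^ n) (c 0 * (0 : ℂ) ^ 0) :=
      hasSum_single 0 (fun n hn => by simp [hn])
    have := h1.unique h2
    simpa using this
  rw [hasDerivAt_iff_isLittleO_nhds_zero]
  refine Asymptotics.IsBigO.trans_isLittleO (g := fun z : ℂ => z ^ 2) ?_
    (Asymptotics.isLittleO_pow_id (by norm_num))
  refine Asymptotics.IsBigO.of_bound M ?_
  have hball : ∀ᶠ z : ℂ in 𝓝 0, ‖z‖ < r / 2 := by
    have := Metric.ball_mem_nhds (0 : ℂ) hρ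
    filter_upwards [this] with z hz
    simpa using hz
  filter_upwards [hball] with z hz
  rw [zero_add, h0]
  have h1 := h z (by linarith)
  have h2 := (hasSum_nat_add_iff' 2).2 h1
  rw [Finset.sum_range_succ, Finset.sum_range_one, pow_zero, mul_one, pow_one] at h2
  have h3 : f z - c 0 - z • c 1 = f z - (c 0 + c 1 * z) := by
    rw [smul_eq_mul]; ring
  rw [h3, ← h2.tsum_eq]
  have hb : ∀ n, ‖c (n + 2) * z ^ (n + 2)‖ ≤ (‖c (n + 2)‖ * (r / 2) ^ n) * ‖z‖ ^ 2 := by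
    intro n
    rw [norm_mul, norm_pow, pow_add, ← mul_assoc]
    apply mul_le_mul_of_nonneg_right _ (by positivity)
    apply mul_le_mul_of_nonneg_left _ (norm_nonneg _)
    exact pow_le_pow_left₀ (norm_nonneg _) hz.le n
  have h4 := tsum_of_norm_bounded (hs2.mul_right (‖z‖ ^ 2)).hasSum hb
  rw [tsum_mul_right] at h4
  rw [norm_pow]
  exact h4

/-- the super-solution -/
private noncomputable def GDb (μ t : ℝ) : ℝ := t / (1 - t / (μ ^ 2 - 1))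

/-- the conditions on `ε` -/
private structure GEps (k μ ε : ℝ) : Prop where
  pos : 0 < ε
  lt : ε < (μ ^ 2 - 1) / μ ^ 2
  c1 : 1 + GDb μ ε ≤ (cK k μ / 2) ^ (2 / k)
  c2 : GDb μ ε + (μ ^ 2 - ST k μ (1 + GDb μ ε)) ≤ 2 * (μ - 1)

/-- the invariant of the iteration -/
private structure GInv (μ ε : ℝ) (a : ℕ → ℝ) : Prop where
  z : a 0 = 0
  o : a 1 = 1
  nn : ∀ n, 0 ≤ a n
  s : ∀ t : ℝ, 0 ≤ t → t < (μ ^ 2 - 1) / μ ^ 2 → Summable (fun n => a n * t ^ n) ∧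
    ∑' n, a n * t ^ n ≤ GDb μ t
  ng : ∀ τ : ℝ, 0 ≤ τ → τ < ε → τ / (1 + τ / (μ ^ 2 - 1)) ≤ - dr a (-τ)

private theorem gle_m (hμ : 1 < μ) : 1 < μ ^ 2 := by nlinarith

private theorem gle_rho (hμ : 1 < μ) : 0 < (μ ^ 2 - 1) / μ ^ 2 := by
  have := gle_m hμ
  exact div_pos (by linarith) (by linarith)

private theorem gle_rho_lt (hμ : 1 < μ) {t : ℝ} (ht : t < (μ ^ 2 - 1) / μ ^ 2) :
    t * μ ^ 2 < μ ^ 2 - 1 := by
  have := gle_m hμ
  rwa [lt_div_iff₀ (by linarith)] at ht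

private theorem gle_Db (hμ : 1 < μ) {t : ℝ} (h0 : 0 ≤ t)
    (ht : t < (μ ^ 2 - 1) / μ ^ 2) : t ≤ GDb μ t ∧ GDb μ t < 1 := by
  have hm := gle_m hμ
  have h1 := gle_rho_lt hμ ht
  have h2 : 0 < μ ^ 2 - 1 := by linarith
  have h3 : t / (μ ^ 2 - 1) < 1 := by
    rw [div_lt_one h2]; nlinarith
  have h3' : 0 ≤ t / (μ ^ 2 - 1) := by positivity
  have h4 : 0 < 1 - t / (μ ^ 2 - 1) := by linarith
  unfold GDb
  constructor
  · rw [le_div_iff₀ h4]
    nlinarith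
  · rw [div_lt_one h4, lt_sub_iff_add_lt]
    have h5 : t + t / (μ ^ 2 - 1) = t * μ ^ 2 / (μ ^ 2 - 1) := by field_simp; ring
    rw [h5, div_lt_one h2]
    exact h1

private theorem gle_Db_mono (hμ : 1 < μ) {s t : ℝ} (h0 : 0 ≤ s) (hst : s ≤ t)
    (ht : t < (μ ^ 2 - 1) / μ ^ 2) : GDb μ s ≤ GDb μ t := by
  have hm := gle_m hμ
  have h1 := gle_rho_lt hμ ht
  have h2 : 0 < μ ^ 2 - 1 := by linarith
  have h3 : t / (μ ^ 2 - 1) < 1 := by
    rw [div_lt_one h2]; nlinarith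
  have h4 : s / (μ ^ 2 - 1) ≤ t / (μ ^ 2 - 1) := (div_le_div_iff_of_pos_right h2).2 hst
  unfold GDb
  exact div_le_div₀ (h0.trans hst) hst (by linarith) (by linarith)

private theorem gle_dd_ofReal (a : ℕ → ℝ) (t : ℝ) :
    dd a (t : ℂ) = ((dr a t : ℝ) : ℂ) := by
  unfold dd dr
  rw [Complex.ofReal_tsum]
  congr 1
  funext n
  push_cast
  rfl

private theorem GInv.hasSum {ε : ℝ} {a : ℕ → ℝ} (ha : GInv μ ε a) {v : ℂ}
    (hv : ‖v‖ < (μ ^ 2 - 1) / μ ^ 2) : HasSum (fun n => (a n : ℂ) * v ^ n) (dd a v) := by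
  have h1 := (ha.s ‖v‖ (norm_nonneg _) hv).1
  have h2 : Summable (fun n => (a n : ℂ) * v ^ n) := by
    apply Summable.of_norm
    refine h1.congr (fun n => ?_)
    rw [norm_mul, norm_pow, Complex.norm_real, Real.norm_of_nonneg (ha.nn n)]
  exact h2.hasSum

private theorem GInv.norm_le' {ε : ℝ} {a : ℕ → ℝ} (ha : GInv μ ε a) {v : ℂ}
    (hv : ‖v‖ < (μ ^ 2 - 1) / μ ^ 2) : ‖dd a v‖ ≤ GDb μ ‖v‖ := by
  have h1 := ha.s ‖v‖ (norm_nonneg _) hv
  have h2 : ‖dd a v‖ ≤ ∑' n, a n * ‖v‖ ^ n := by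
    refine tsum_of_norm_bounded h1.1.hasSum (fun n => ?_)
    rw [norm_mul, norm_pow, Complex.norm_real, Real.norm_of_nonneg (ha.nn n)]
  exact h2.trans h1.2

private theorem GInv.norm_le (hμ : 1 < μ) {ε : ℝ} {a : ℕ → ℝ} (ha : GInv μ ε a) {v : ℂ}
    (hv : ‖v‖ < (μ ^ 2 - 1) / μ ^ 2) : ‖dd a v‖ < 1 :=
  (ha.norm_le' hv).trans_lt (gle_Db hμ (norm_nonneg _) hv).2

/-- the step relation -/
private def GStp (k μ : ℝ) (a a' : ℕ → ℝ) : Prop :=
  ∀ v : ℂ, ‖v‖ < (μ ^ 2 - 1) / μ ^ 2 →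
    HasSum (fun n => (a' n : ℂ) * v ^ n)
      (PsiC k μ (dd a (v / (μ : ℂ) ^ 2)) (dd a (v / (μ : ℂ) ^ 4)))

private theorem gle_small (hμ : 1 < μ) {t : ℝ} (h0 : 0 ≤ t) :
    t / μ ^ 2 ≤ t ∧ t / μ ^ 4 ≤ t := by
  have hm := gle_m hμ
  have hm4 : 1 < μ ^ 4 := by nlinarith
  exact ⟨div_le_self h0 hm.le, div_le_self h0 hm4.le⟩

private theorem gle_eps_exists (hk : 1 ≤ k) (hμ : 1 < μ) : ∃ ε, GEps k μ ε := by
  have hk0 : 0 < k := by linarith
  have hρ := gle_rho hμ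
  have hc : 1 < (cK k μ / 2) ^ (2 / k) :=
    Real.one_lt_rpow (by linarith [cK_gt hk hμ]) (by positivity)
  have hD : ContinuousAt (GDb μ) 0 := by
    unfold GDb
    exact continuousAt_id.div (continuousAt_const.sub (continuousAt_id.div_const _)) (by simp)
  have hD0 : GDb μ 0 = 0 := by simp [GDb]
  have hS : ContinuousAt (ST k μ) (1 + GDb μ 0) := by
    rw [hD0, add_zero]
    unfold ST
    exact ContinuousAt.rpow_const (continuousAt_const.sub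
      (continuousAt_id.rpow_const (Or.inl one_ne_zero))) (Or.inr (by positivity))
  have e1 : ∀ᶠ ε in 𝓝 (0 : ℝ), 1 + GDb μ ε < (cK k μ / 2) ^ (2 / k) :=
    (continuousAt_const.add hD).eventually_lt continuousAt_const (by
      show 1 + GDb μ 0 < _
      rw [hD0, add_zero]; exact hc)
  have e2 : ∀ᶠ ε in 𝓝 (0 : ℝ),
      GDb μ ε + (μ ^ 2 - ST k μ (1 + GDb μ ε)) < 2 * (μ - 1) := by
    have hS' : ContinuousAt (fun ε => ST k μ (1 + GDb μ ε)) 0 :=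
      ContinuousAt.comp (g := ST k μ) (f := fun ε => 1 + GDb μ ε) hS (continuousAt_const.add hD)
    refine (hD.add (continuousAt_const.sub hS')).eventually_lt continuousAt_const ?_
    show GDb μ 0 + (μ ^ 2 - ST k μ (1 + GDb μ 0)) < 2 * (μ - 1)
    rw [hD0, add_zero, ST_one hk hμ]
    linarith
  have e3 : Ioo 0 ((μ ^ 2 - 1) / μ ^ 2) ∈ 𝓝[>] (0 : ℝ) := Ioo_mem_nhdsGT hρ
  obtain ⟨ε, ⟨h1, h2⟩, h3⟩ := (((e1.and e2).filter_mono nhdsWithin_le_nhds).and e3).exists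
  exact ⟨ε, h3.1, h3.2, h1.le, h2.le⟩

private theorem gle_step_exists (hk : 1 ≤ k) (hk2 : k ≤ 2) (hμ : 1 < μ) {ε : ℝ}
    (hε : GEps k μ ε) {a : ℕ → ℝ} (ha : GInv μ ε a) : ∃ a', GInv μ ε a' ∧ GStp k μ a a' := by
  have hm := gle_m hμ
  have hρ := gle_rho hμ
  have hk0 : 0 < k := by linarith
  have hμ0' : 0 < μ := by linarith
  have hs : ∀ t : ℝ, 0 ≤ t → t < (μ ^ 2 - 1) / μ ^ 2 / μ ^ 2 →
      Summable (fun n => a n * t ^ n) ∧ ∑' n, a n * t ^ n < 1 := by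
    intro t h0 ht
    have h1 : t < (μ ^ 2 - 1) / μ ^ 2 := ht.trans_le (div_le_self hρ.le hm.le)
    exact ⟨(ha.s t h0 h1).1, (ha.s t h0 h1).2.trans_lt (gle_Db hμ h0 h1).2⟩
  obtain ⟨a', b', ha0, -, hnn, -, hst⟩ := PsiC_step_mono hk hk2 hμ hρ ha.z ha.z ha.nn
    (fun n => le_refl (a n)) hs
  have hst' : GStp k μ a a' := fun v hv => (hst v hv).1
  refine ⟨a', ⟨ha0, ?_, hnn, ?_, ?_⟩, hst'⟩
  · -- the derivative at `0`
    have h1 := gle_hasDerivAt (c := fun n => (a' n : ℂ)) hρ hst'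
    have hD : HasDerivAt (dd a) (1 : ℂ) 0 := by
      have := gle_hasDerivAt (c := fun n => (a n : ℂ)) hρ (fun z hz => ha.hasSum hz)
      rw [ha.o, Complex.ofReal_one] at this
      exact this
    have hd0 : dd a 0 = 0 := by
      have h2 := gle_dd_ofReal a 0
      rw [Complex.ofReal_zero] at h2
      rw [h2]
      have : dr a 0 = 0 := by
        unfold dr
        rw [tsum_eq_single 0 (fun n hn => by simp [hn])]
        simp [ha.z]
      rw [this, Complex.ofReal_zero]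
    have e1 : HasDerivAt (fun v : ℂ => v / (μ : ℂ) ^ 2) (1 / (μ : ℂ) ^ 2) 0 :=
      (hasDerivAt_id (0 : ℂ)).div_const _
    have e2 : HasDerivAt (fun v : ℂ => v / (μ : ℂ) ^ 4) (1 / (μ : ℂ) ^ 4) 0 :=
      (hasDerivAt_id (0 : ℂ)).div_const _
    have hD1 : HasDerivAt (fun v : ℂ => dd a (v / (μ : ℂ) ^ 2)) (1 * (1 / (μ : ℂ) ^ 2)) 0 := by
      have hD' : HasDerivAt (dd a) (1 : ℂ) ((fun v : ℂ => v / (μ : ℂ) ^ 2) 0) := by
        simpa using hD
      exact hD'.comp (0 : ℂ) e1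
    have hD2 : HasDerivAt (fun v : ℂ => dd a (v / (μ : ℂ) ^ 4)) (1 * (1 / (μ : ℂ) ^ 4)) 0 := by
      have hD' : HasDerivAt (dd a) (1 : ℂ) ((fun v : ℂ => v / (μ : ℂ) ^ 4) 0) := by
        simpa using hD
      exact hD'.comp (0 : ℂ) e2
    have hG : HasDerivAt (fun v : ℂ => gg k μ (dd a (v / (μ : ℂ) ^ 2)))
        (((μ ^ 2 - μ ^ (1 - k) : ℝ) : ℂ) * (1 * (1 / (μ : ℂ) ^ 2))) 0 := by
      have hG' : HasDerivAt (gg k μ) ((μ ^ 2 - μ ^ (1 - k) : ℝ) : ℂ)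
          ((fun v : ℂ => dd a (v / (μ : ℂ) ^ 2)) 0) := by
        simp only [zero_div, hd0]
        exact gg_deriv_zero hk hk2 hμ
      exact HasDerivAt.comp (h₂ := gg k μ) (h := fun v : ℂ => dd a (v / (μ : ℂ) ^ 2)) (0 : ℂ) hG' hD1
    have hQ : HasDerivAt (fun v : ℂ => ps k μ (dd a (v / (μ : ℂ) ^ 4)))
        (((μ ^ (2 - k) : ℝ) : ℂ) * (1 * (1 / (μ : ℂ) ^ 4))) 0 := by
      have hQ' : HasDerivAt (ps k μ) ((μ ^ (2 - k) : ℝ) : ℂ)
          ((fun v : ℂ => dd a (v / (μ : ℂ) ^ 4)) 0) := by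
        simp only [zero_div, hd0]
        exact ps_deriv_zero hk hk2 hμ
      exact HasDerivAt.comp (h₂ := ps k μ) (h := fun v : ℂ => dd a (v / (μ : ℂ) ^ 4)) (0 : ℂ) hQ' hD2
    have hS : DifferentiableAt ℂ (fun v : ℂ => Sg k μ (dd a (v / (μ : ℂ) ^ 2))) 0 := by
      have hS' : DifferentiableAt ℂ (Sg k μ) ((fun v : ℂ => dd a (v / (μ : ℂ) ^ 2)) 0) := by
        simp only [zero_div, hd0]
        exact Sg_differentiableAt hk hk2 hμ (Adm.of_norm hk hk2 hμ (by simp))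
      exact DifferentiableAt.comp (g := Sg k μ) (f := fun v : ℂ => dd a (v / (μ : ℂ) ^ 2)) (0 : ℂ)
        hS' hD1.differentiableAt
    have hP : HasDerivAt (fun v : ℂ => PsiC k μ (dd a (v / (μ : ℂ) ^ 2)) (dd a (v / (μ : ℂ) ^ 4)))
        _ 0 := hG.add (hS.hasDerivAt.mul hQ)
    have h3 := h1.unique hP
    have hSg0 : Sg k μ 0 = (μ : ℂ) := by
      unfold Sg
      rw [Lg_zero hk hμ, ← Complex.ofReal_exp, Real.exp_log hμ0']
    rw [zero_div, zero_div, hd0, ps_zero hk hμ, hSg0, mul_zero, zero_add] at h3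
    have e3 : μ ^ (2 - k) = μ * μ ^ (1 - k) := by
      have : (2 : ℝ) - k = 1 + (1 - k) := by ring
      rw [this, Real.rpow_add hμ0', Real.rpow_one]
    have h4 : (a' 1 : ℂ) = 1 := by
      rw [h3]
      have h5 : (μ ^ 2 - μ ^ (1 - k)) * (1 * (1 / μ ^ 2)) +
          μ * (μ ^ (2 - k) * (1 * (1 / μ ^ 4))) = 1 := by
        rw [e3]
        generalize μ ^ (1 - k) = X
        field_simp
        ring
      exact_mod_cast h5
    exact_mod_cast h4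
  · intro t h0 ht
    have hs1 := (gle_small hμ h0).1.trans_lt ht
    have hs2 := (gle_small hμ h0).2.trans_lt ht
    have p1 : 0 ≤ t / μ ^ 2 := by positivity
    have p2 : 0 ≤ t / μ ^ 4 := by positivity
    have h1 := hst' (t : ℂ) (by rwa [Complex.norm_real, Real.norm_of_nonneg h0])
    have c1 : (t : ℂ) / (μ : ℂ) ^ 2 = ((t / μ ^ 2 : ℝ) : ℂ) := by push_cast; rfl
    have c2 : (t : ℂ) / (μ : ℂ) ^ 4 = ((t / μ ^ 4 : ℝ) : ℂ) := by push_cast; rfl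
    rw [c1, c2, gle_dd_ofReal, gle_dd_ofReal] at h1
    have q1 := ha.s _ p1 hs1
    have q2 := ha.s _ p2 hs2
    have d1 := gle_Db hμ p1 hs1
    have d2 := gle_Db hμ p2 hs2
    have n1 : 0 ≤ dr a (t / μ ^ 2) :=
      tsum_nonneg (fun n => mul_nonneg (ha.nn n) (pow_nonneg p1 n))
    have n2 : 0 ≤ dr a (t / μ ^ 4) :=
      tsum_nonneg (fun n => mul_nonneg (ha.nn n) (pow_nonneg p2 n))
    have u1 : dr a (t / μ ^ 2) ≤ GDb μ (t / μ ^ 2) := q1.2
    have u2 : dr a (t / μ ^ 4) ≤ GDb μ (t / μ ^ 4) := q2.2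
    rw [PsiC_ofReal hk hk2 hμ n1 (u1.trans_lt d1.2) n2 (u2.trans_lt d2.2)] at h1
    have h2 : HasSum (fun n => a' n * t ^ n)
        (Psi k μ (dr a (t / μ ^ 2)) (dr a (t / μ ^ 4))) := by
      rw [← Complex.hasSum_ofReal]
      refine h1.congr_fun (fun n => ?_) |> fun h => h
      push_cast
      rfl
    refine ⟨h2.summable, ?_⟩
    rw [h2.tsum_eq]
    refine (Psi_mono hk hk2 hμ n1 n2 u1 u2 d1.2 d2.2).trans ?_
    have hm1 : 0 < μ ^ 2 - 1 := by linarith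
    have hm0 : 0 < μ ^ 2 := by linarith
    have htm := gle_rho_lt hμ ht
    have hw0 : 0 ≤ t / (μ ^ 2 * (μ ^ 2 - 1)) := by positivity
    have hw1 : μ ^ 2 * (t / (μ ^ 2 * (μ ^ 2 - 1))) < 1 := by
      have : μ ^ 2 * (t / (μ ^ 2 * (μ ^ 2 - 1))) = t / (μ ^ 2 - 1) := by field_simp
      rw [this, div_lt_one hm1]
      nlinarith
    have hb := Psi_bar hk hk2 hμ hw0 hw1
    have E1 : GDb μ (t / μ ^ 2) = (μ ^ 2 - 1) * (t / (μ ^ 2 * (μ ^ 2 - 1))) /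
        (1 - t / (μ ^ 2 * (μ ^ 2 - 1))) := by
      unfold GDb
      have e1 : (μ ^ 2 - 1) * (t / (μ ^ 2 * (μ ^ 2 - 1))) = t / μ ^ 2 := by field_simp
      have e2 : t / μ ^ 2 / (μ ^ 2 - 1) = t / (μ ^ 2 * (μ ^ 2 - 1)) := by rw [div_div]
      rw [e1, e2]
    have E2 : GDb μ (t / μ ^ 4) = (μ ^ 2 - 1) * (t / (μ ^ 2 * (μ ^ 2 - 1))) /
        (μ ^ 2 - t / (μ ^ 2 * (μ ^ 2 - 1))) := by
      unfold GDb
      have e1 : (μ ^ 2 - 1) * (t / (μ ^ 2 * (μ ^ 2 - 1))) = μ ^ 2 * (t / μ ^ 4) := by field_simp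
      have e2 : μ ^ 2 - t / (μ ^ 2 * (μ ^ 2 - 1)) = μ ^ 2 * (1 - t / μ ^ 4 / (μ ^ 2 - 1)) := by
        field_simp
      rw [e1, e2, mul_div_mul_left _ _ hm0.ne']
    have E3 : GDb μ t = (μ ^ 2 - 1) * (μ ^ 2 * (t / (μ ^ 2 * (μ ^ 2 - 1)))) /
        (1 - μ ^ 2 * (t / (μ ^ 2 * (μ ^ 2 - 1)))) := by
      unfold GDb
      have e1 : μ ^ 2 * (t / (μ ^ 2 * (μ ^ 2 - 1))) = t / (μ ^ 2 - 1) := by field_simp
      have e2 : (μ ^ 2 - 1) * (t / (μ ^ 2 - 1)) = t := by field_simp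
      rw [e1, e2]
    rw [E1, E2, E3]
    exact hb
  · intro τ h0 ht
    have hτρ : τ < (μ ^ 2 - 1) / μ ^ 2 := ht.trans hε.lt
    have hs1 := (gle_small hμ h0).1
    have hs2 := (gle_small hμ h0).2
    have p1 : 0 ≤ τ / μ ^ 2 := by positivity
    have p2 : 0 ≤ τ / μ ^ 4 := by positivity
    have hm1 : 0 < μ ^ 2 - 1 := by linarith
    have hm0 : 0 < μ ^ 2 := by linarith
    have h1 := hst' ((-τ : ℝ) : ℂ) (by
      rwa [Complex.norm_real, Real.norm_eq_abs, abs_neg, abs_of_nonneg h0])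
    have c1 : ((-τ : ℝ) : ℂ) / (μ : ℂ) ^ 2 = ((-(τ / μ ^ 2) : ℝ) : ℂ) := by push_cast; ring
    have c2 : ((-τ : ℝ) : ℂ) / (μ : ℂ) ^ 4 = ((-(τ / μ ^ 4) : ℝ) : ℂ) := by push_cast; ring
    rw [c1, c2, gle_dd_ofReal, gle_dd_ofReal] at h1
    -- bounds of `e`, `e'`
    have hup : ∀ s : ℝ, 0 ≤ s → s ≤ τ → - dr a (-s) ≤ GDb μ ε := by
      intro s hs0 hsτ
      have hn : ‖((-s : ℝ) : ℂ)‖ = s := by
        rw [Complex.norm_real, Real.norm_eq_abs, abs_neg, abs_of_nonneg hs0]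
      have h2 := ha.norm_le' (v := ((-s : ℝ) : ℂ)) (by rw [hn]; linarith)
      rw [hn, gle_dd_ofReal, Complex.norm_real, Real.norm_eq_abs] at h2
      have h3 := neg_abs_le (dr a (-s))
      have h4 := gle_Db_mono hμ hs0 (hsτ.trans ht.le) hε.lt
      linarith
    have e_up := hup _ p1 hs1
    have e'_up := hup _ p2 hs2
    have e_lo := ha.ng _ p1 (hs1.trans_lt ht)
    have e'_lo := ha.ng _ p2 (hs2.trans_lt ht)
    set e := - dr a (-(τ / μ ^ 2)) with he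
    set e' := - dr a (-(τ / μ ^ 4)) with he'
    have hde : dr a (-(τ / μ ^ 2)) = -e := by rw [he, neg_neg]
    have hde' : dr a (-(τ / μ ^ 4)) = -e' := by rw [he', neg_neg]
    set σ := τ / (μ ^ 2 * (μ ^ 2 - 1)) with hσ
    have hσ0 : 0 ≤ σ := by positivity
    have htm := gle_rho_lt hμ hτρ
    have hσ1 : σ ≤ 1 := by
      rw [hσ, div_le_one (by positivity)]
      nlinarith
    have E1 : τ / μ ^ 2 / (1 + τ / μ ^ 2 / (μ ^ 2 - 1)) = (μ ^ 2 - 1) * σ / (1 + σ) := by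
      have e1 : (μ ^ 2 - 1) * σ = τ / μ ^ 2 := by rw [hσ]; field_simp
      have e2 : τ / μ ^ 2 / (μ ^ 2 - 1) = σ := by rw [hσ, div_div]
      rw [e1, e2]
    have E2 : τ / μ ^ 4 / (1 + τ / μ ^ 4 / (μ ^ 2 - 1)) = (μ ^ 2 - 1) * σ / (μ ^ 2 + σ) := by
      have e1 : (μ ^ 2 - 1) * σ = μ ^ 2 * (τ / μ ^ 4) := by rw [hσ]; field_simp
      have e2 : μ ^ 2 + σ = μ ^ 2 * (1 + τ / μ ^ 4 / (μ ^ 2 - 1)) := by rw [hσ]; field_simp
      rw [e1, e2, mul_div_mul_left _ _ hm0.ne']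
    have E3 : τ / (1 + τ / (μ ^ 2 - 1)) = (μ ^ 2 - 1) * (μ ^ 2 * σ) / (1 + μ ^ 2 * σ) := by
      have e1 : μ ^ 2 * σ = τ / (μ ^ 2 - 1) := by rw [hσ]; field_simp
      have e2 : (μ ^ 2 - 1) * (τ / (μ ^ 2 - 1)) = τ := by field_simp
      rw [e1, e2]
    rw [E1] at e_lo
    rw [E2] at e'_lo
    have l1 : 0 ≤ (μ ^ 2 - 1) * σ / (1 + σ) := by positivity
    have l2 : 0 ≤ (μ ^ 2 - 1) * σ / (μ ^ 2 + σ) := by positivity
    have hcK := cK_gt hk hμ
    have hcT : (cK k μ / 2) ^ (2 / k) < cT k μ := by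
      unfold cT
      exact Real.rpow_lt_rpow (by linarith) (by linarith) (by positivity)
    have hc1 := hε.c1
    have hc2 := hε.c2
    have hD0 : 0 ≤ GDb μ ε := hε.pos.le.trans (gle_Db hμ hε.pos.le hε.lt).1
    rw [hde, hde', PsiC_neg hk hk2 hμ (l1.trans e_lo) (by linarith) (l2.trans e'_lo)
      (by linarith)] at h1
    have h2 : HasSum (fun n => a' n * (-τ) ^ n) (-Ph k μ e e') := by
      rw [← Complex.hasSum_ofReal]
      refine h1.congr_fun (fun n => ?_) |> fun h => h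
      push_cast
      rfl
    have h3 : dr a' (-τ) = -Ph k μ e e' := h2.tsum_eq
    rw [h3, neg_neg, E3]
    have hST : ST k μ (1 + GDb μ ε) ≤ ST k μ (1 + e') := by
      refine (ST_strictAnti hk hμ).antitoneOn ⟨?_, ?_⟩ ⟨?_, ?_⟩ ?_
      · linarith
      · linarith
      · linarith
      · linarith
      · linarith
    exact (Ph_bar hk hk2 hμ hσ0 hσ1).trans
      (Ph_mono hk hk2 hμ l1 l2 e_lo e'_lo (by linarith) (by linarith) (by linarith))

private theorem gle_step_unique (hμ : 1 < μ) {a a' a'' : ℕ → ℝ} (h1 : GStp k μ a a')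
    (h2 : GStp k μ a a'') : a' = a'' := by
  have h3 := NNS.unique (gle_rho hμ) h1 h2
  funext n
  have := congrFun h3 n
  exact_mod_cast this

private theorem gle_step_mono (hk : 1 ≤ k) (hk2 : k ≤ 2) (hμ : 1 < μ) {ε : ℝ}
    {a b a' b' : ℕ → ℝ} (ha : GInv μ ε a) (hb : GInv μ ε b)
    (hab : ∀ n, a n ≤ b n) (h1 : GStp k μ a a') (h2 : GStp k μ b b') : ∀ n, a' n ≤ b' n := by
  have hm := gle_m hμ
  have hρ := gle_rho hμ
  obtain ⟨a'', b'', -, -, -, hle, hst⟩ := PsiC_step_mono hk hk2 hμ hρ ha.z hb.z ha.nn hab (by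
    intro t h0 ht
    have h1 : t < (μ ^ 2 - 1) / μ ^ 2 := ht.trans_le (div_le_self hρ.le hm.le)
    exact ⟨(hb.s t h0 h1).1, (hb.s t h0 h1).2.trans_lt (gle_Db hμ h0 h1).2⟩)
  have e1 := gle_step_unique hμ h1 (fun v hv => (hst v hv).1)
  have e2 := gle_step_unique hμ h2 (fun v hv => (hst v hv).2)
  rw [e1, e2]
  exact hle

private theorem gle_inv_start (hμ : 1 < μ) (ε : ℝ) :
    GInv μ ε (fun n => if n = 1 then 1 else 0) := by
  have hm := gle_m hμ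
  have hs : ∀ t : ℝ, HasSum (fun n => (if n = 1 then (1 : ℝ) else 0) * t ^ n)
      ((if 1 = 1 then (1 : ℝ) else 0) * t ^ 1) := fun t =>
    hasSum_single 1 (fun n hn => by simp [hn])
  refine ⟨by simp, by simp, fun n => by split_ifs <;> norm_num, ?_, ?_⟩
  · intro t h0 ht
    refine ⟨(hs t).summable, ?_⟩
    rw [(hs t).tsum_eq]
    simpa using (gle_Db hμ h0 ht).1
  · intro τ h0 _
    have h1 : dr (fun n => if n = 1 then (1 : ℝ) else 0) (-τ) = -τ := by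
      have h2 := (hs (-τ)).tsum_eq
      unfold dr
      rw [h2]
      simp
    rw [h1, neg_neg]
    have h2 : 0 ≤ τ / (μ ^ 2 - 1) := div_nonneg h0 (by linarith)
    exact div_le_self h0 (by linarith)

theorem local_existence (hk : 1 ≤ k) (hk2 : k ≤ 2) (hμ : 1 < μ) :
    ∃ a : ℕ → ℝ, a 0 = 0 ∧ a 1 = 1 ∧ (∀ n, 0 ≤ a n) ∧
      (∀ t : ℝ, 0 ≤ t → t < (μ ^ 2 - 1) / μ ^ 2 → Summable (fun n => a n * t ^ n) ∧
        ∑' n, a n * t ^ n ≤ t / (1 - t / (μ ^ 2 - 1))) ∧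
      (∀ v : ℂ, ‖v‖ < (μ ^ 2 - 1) / μ ^ 2 / μ ^ 2 →
        dd a ((μ : ℂ) ^ 2 * v) + ps k μ (dd a v) + 2 * (μ : ℂ) * ((μ : ℂ) - 1) =
          Sg k μ (dd a v) *
            (2 * ((μ : ℂ) - 1) + dd a v + ps k μ (dd a (v / (μ : ℂ) ^ 2)))) ∧
      ∃ ε : ℝ, 0 < ε ∧ ∀ τ : ℝ, 0 ≤ τ → τ < ε → τ / (1 + τ / (μ ^ 2 - 1)) ≤ - dr a (-τ) := by
  classical
  have hm := gle_m hμ
  have hρ := gle_rho hμ
  obtain ⟨ε, hε⟩ := gle_eps_exists (k := k) hk hμ
  set ρ := (μ ^ 2 - 1) / μ ^ 2 with hρdef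
  choose st hst1 hst2 using fun a : {a : ℕ → ℝ // GInv μ ε a} => gle_step_exists hk hk2 hμ hε a.2
  let A : ℕ → {a : ℕ → ℝ // GInv μ ε a} := fun N =>
    Nat.rec ⟨_, gle_inv_start hμ ε⟩ (fun _ a => ⟨st a, hst1 a⟩) N
  have hStp : ∀ N, GStp k μ (A N).1 (A (N + 1)).1 := fun N => hst2 (A N)
  have hmono : ∀ N n, (A N).1 n ≤ (A (N + 1)).1 n := by
    intro N
    induction N with
    | zero =>
      intro n
      have h1 := (A 1).2
      show (if n = 1 then (1 : ℝ) else 0) ≤ (A 1).1 n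
      by_cases hn : n = 1
      · subst hn; rw [if_pos rfl, h1.o]
      · rw [if_neg hn]; exact h1.nn n
    | succ N ih =>
      exact gle_step_mono hk hk2 hμ (A N).2 (A (N + 1)).2 ih (hStp N) (hStp (N + 1))
  have hmono' : ∀ n, Monotone (fun N => (A N).1 n) := fun n => monotone_nat_of_le_succ
    (fun N => hmono N n)
  -- bound for the coefficients
  have hr0 : 0 < ρ / 2 := by positivity
  have hrρ : ρ / 2 < ρ := by linarith
  have hbd : ∀ n N, (A N).1 n ≤ 1 / (ρ / 2) ^ n := by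
    intro n N
    obtain ⟨h1, h2⟩ := (A N).2.s (ρ / 2) hr0.le hrρ
    have h3 : (A N).1 n * (ρ / 2) ^ n ≤ 1 :=
      (h1.le_tsum n (fun j _ => mul_nonneg ((A N).2.nn j) (by positivity))).trans
        (h2.trans (gle_Db hμ hr0.le hrρ).2.le)
    rw [le_div_iff₀ (by positivity)]
    exact h3
  have hbdd : ∀ n, BddAbove (Set.range (fun N => (A N).1 n)) := fun n =>
    ⟨_, by rintro _ ⟨N, rfl⟩; exact hbd n N⟩
  let a : ℕ → ℝ := fun n => ⨆ N, (A N).1 n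
  have hlim : ∀ n, Tendsto (fun N => (A N).1 n) atTop (𝓝 (a n)) := fun n =>
    tendsto_atTop_ciSup (hmono' n) (hbdd n)
  have hle : ∀ n N, (A N).1 n ≤ a n := fun n N => le_ciSup (hbdd n) N
  have hann : ∀ n, 0 ≤ a n := fun n => ((A 0).2.nn n).trans (hle n 0)
  have hsa : ∀ t : ℝ, 0 ≤ t → t < ρ → Summable (fun n => a n * t ^ n) ∧
      ∑' n, a n * t ^ n ≤ GDb μ t := by
    intro t h0 ht
    have hnn : ∀ n, 0 ≤ a n * t ^ n := fun n => mul_nonneg (hann n) (pow_nonneg h0 n)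
    have hpart : ∀ s : Finset ℕ, ∑ n ∈ s, a n * t ^ n ≤ GDb μ t := by
      intro s
      have h1 : Tendsto (fun N => ∑ n ∈ s, (A N).1 n * t ^ n) atTop
          (𝓝 (∑ n ∈ s, a n * t ^ n)) :=
        tendsto_finsetSum s (fun n _ => (hlim n).mul_const _)
      refine le_of_tendsto' h1 (fun N => ?_)
      obtain ⟨h2, h3⟩ := (A N).2.s t h0 ht
      exact (h2.sum_le_tsum s (fun n _ => mul_nonneg ((A N).2.nn n) (pow_nonneg h0 n))).trans h3
    have hsum : Summable (fun n => a n * t ^ n) := summable_of_sum_le hnn hpart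
    exact ⟨hsum, hsum.tsum_le_of_sum_le hpart⟩
  -- convergence of the functions
  have hconv : ∀ v : ℂ, ‖v‖ < ρ → Tendsto (fun N => dd (A N).1 v) atTop (𝓝 (dd a v)) := by
    intro v hv
    have h1 := (hsa ‖v‖ (norm_nonneg _) hv).1
    refine tendsto_tsum_of_dominated_convergence h1 ?_ ?_
    · intro n
      have h2 : Tendsto (fun N => (((A N).1 n : ℝ) : ℂ)) atTop (𝓝 ((a n : ℝ) : ℂ)) :=
        (Complex.continuous_ofReal.tendsto _).comp (hlim n)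
      exact h2.mul_const _
    · refine Eventually.of_forall (fun N n => ?_)
      rw [norm_mul, norm_pow, Complex.norm_real, Real.norm_of_nonneg ((A N).2.nn n)]
      exact mul_le_mul_of_nonneg_right (hle n N) (by positivity)
  have hInv : GInv μ ε a := by
    refine ⟨?_, ?_, hann, hsa, ?_⟩
    · refine tendsto_nhds_unique (hlim 0) ?_
      simp only [fun N => (A N).2.z]
      exact tendsto_const_nhds
    · refine tendsto_nhds_unique (hlim 1) ?_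
      simp only [fun N => (A N).2.o]
      exact tendsto_const_nhds
    · intro τ h0 ht
      have h1 := hconv ((-τ : ℝ) : ℂ) (by
        rw [Complex.norm_real, Real.norm_eq_abs, abs_neg, abs_of_nonneg h0]
        exact ht.trans hε.lt)
      simp only [gle_dd_ofReal] at h1
      have h2 : Tendsto (fun N => dr (A N).1 (-τ)) atTop (𝓝 (dr a (-τ))) := by
        have := (Complex.continuous_re.tendsto _).comp h1
        simpa [Function.comp_def] using this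
      exact ge_of_tendsto' h2.neg (fun N => (A N).2.ng τ h0 ht)
  have hfix : ∀ v : ℂ, ‖v‖ < ρ →
      dd a v = PsiC k μ (dd a (v / (μ : ℂ) ^ 2)) (dd a (v / (μ : ℂ) ^ 4)) := by
    intro v hv
    have hs1 := (gle_small hμ (norm_nonneg v)).1.trans_lt hv
    have hs2 := (gle_small hμ (norm_nonneg v)).2.trans_lt hv
    have n1 : ‖v / (μ : ℂ) ^ 2‖ < ρ := by
      rw [norm_div, norm_pow, Complex.norm_real, Real.norm_of_nonneg (by linarith : (0:ℝ) ≤ μ)]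
      exact hs1
    have n2 : ‖v / (μ : ℂ) ^ 4‖ < ρ := by
      rw [norm_div, norm_pow, Complex.norm_real, Real.norm_of_nonneg (by linarith : (0:ℝ) ≤ μ)]
      exact hs2
    have h1 : Tendsto (fun N => dd (A (N + 1)).1 v) atTop (𝓝 (dd a v)) :=
      (tendsto_add_atTop_iff_nat 1).2 (hconv v hv)
    have h2 : ∀ N, dd (A (N + 1)).1 v =
        PsiC k μ (dd (A N).1 (v / (μ : ℂ) ^ 2)) (dd (A N).1 (v / (μ : ℂ) ^ 4)) := fun N =>
      ((A (N + 1)).2.hasSum hv).unique (hStp N v hv)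
    simp only [h2] at h1
    refine tendsto_nhds_unique h1 ?_
    have c1 := hconv _ n1
    have c2 := hconv _ n2
    have hadm := Adm.of_norm hk hk2 hμ (hInv.norm_le hμ n1)
    have hadm2 := Adm.of_norm hk hk2 hμ (hInv.norm_le hμ n2)
    have cS : Tendsto (fun N => Sg k μ (dd (A N).1 (v / (μ : ℂ) ^ 2))) atTop
        (𝓝 (Sg k μ (dd a (v / (μ : ℂ) ^ 2)))) :=
      ((Sg_differentiableAt hk hk2 hμ hadm).continuousAt.tendsto).comp c1
    have cP : Tendsto (fun N => ps k μ (dd (A N).1 (v / (μ : ℂ) ^ 2))) atTop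
        (𝓝 (ps k μ (dd a (v / (μ : ℂ) ^ 2)))) :=
      ((ps_differentiableAt hk hk2 hμ hadm).continuousAt.tendsto).comp c1
    have cP2 : Tendsto (fun N => ps k μ (dd (A N).1 (v / (μ : ℂ) ^ 4))) atTop
        (𝓝 (ps k μ (dd a (v / (μ : ℂ) ^ 4)))) :=
      ((ps_differentiableAt hk hk2 hμ hadm2).continuousAt.tendsto).comp c2
    unfold PsiC gg
    exact ((((cS.sub_const _).const_mul _).add (cS.mul c1)).sub cP).add (cS.mul cP2)
  refine ⟨a, hInv.z, hInv.o, hInv.nn, hInv.s, ?_, ε, hε.pos, hInv.ng⟩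
  intro v hv
  have hv' : ‖(μ : ℂ) ^ 2 * v‖ < ρ := by
    rw [norm_mul, norm_pow, Complex.norm_real, Real.norm_of_nonneg (by linarith : (0:ℝ) ≤ μ)]
    rw [lt_div_iff₀ (by linarith)] at hv
    linarith
  have hμ0 : (μ : ℂ) ≠ 0 := by exact_mod_cast (by linarith : μ ≠ 0)
  have h1 := hfix _ hv'
  have e1 : (μ : ℂ) ^ 2 * v / (μ : ℂ) ^ 2 = v := by field_simp
  have e2 : (μ : ℂ) ^ 2 * v / (μ : ℂ) ^ 4 = v / (μ : ℂ) ^ 2 := by field_simp
  rw [e1, e2] at h1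
  rw [h1]
  unfold PsiC gg
  ring

end EQG1
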