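import Pool.Agent.Lib.MP_226de1_co.E1.G.SqB
import Pool.Agent.Lib.MP_226de1_co.P.JLem
import Pool.Agent.Lib.MP_226de1_co.P.NZ
import Pool.Agent.Lib.MP_226de1_co.P.ReS
import Pool.Agent.Lib.MP_226de1_co.P.Bridge

/-! The pointwise lemmas of `P/` in the notation of the chart.  Dictionary: `r = rg d`,
`s = exp (log (ek k μ d) / k) = Sg k μ d * rg d`, `sm = exp (log (ek k μ d') / k)`,
`sm ^ 2 = μ² + ps k μ d'`, `a = (μ-1)/2`, `c = cK k μ`. -/

set_option autoImplicit false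

namespace EQG1

open Complex Set Filter Topology
open EQ2 (dd dr xv ell pt NNS)

variable {k μ : ℝ}

/-- far part -/
noncomputable def sg (k μ : ℝ) (d : ℂ) : ℂ := Complex.exp (Complex.log (ek k μ d) / (k : ℂ))

theorem sg_eq (d : ℂ) : sg k μ d = Sg k μ d * rg d := by
  unfold sg Sg rg Lg
  rw [← Complex.exp_add]
  congr 1
  ring

theorem sg_sq (d : ℂ) : sg k μ d ^ 2 = ps k μ d + (μ : ℂ) ^ 2 := by
  unfold sg ps
  rw [sub_add_cancel, ← Complex.exp_nat_mul]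
  congr 1
  push_cast
  ring

private theorem arg_rg_eq (d : ℂ) :
    (Complex.log (1 - d) / 2).im = arg (1 - d) / 2 ∧ arg (rg d) = arg (1 - d) / 2 ∧
      Complex.log (rg d) = Complex.log (1 - d) / 2 := by
  have h1 : (Complex.log (1 - d) / 2).im = arg (1 - d) / 2 := by
    have : Complex.log (1 - d) / 2 = Complex.log (1 - d) * (((1 / 2 : ℝ)) : ℂ) := by
      push_cast
      ring
    rw [this, im_mul_ofReal, log_im]
    ring
  have h2 := neg_pi_lt_arg (1 - d)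
  have h3 := arg_le_pi (1 - d)
  have hp := Real.pi_pos
  have h4 : Complex.log (rg d) = Complex.log (1 - d) / 2 := by
    unfold rg
    apply Complex.log_exp
    · rw [h1]
      linarith
    · rw [h1]
      linarith
  refine ⟨h1, ?_, h4⟩
  rw [← log_im, h4, h1]

/-- `arg (rg d) = arg (1-d) / 2 ∈ (0, π/2)` -/
theorem arg_rg {d : ℂ} (hi : d.im < 0) : 0 < arg (rg d) ∧ arg (rg d) < Real.pi / 2 := by
  rw [(arg_rg_eq d).2.1]
  have h0 : 0 < (1 - d).im := by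
    simp only [sub_im, one_im]
    linarith
  have h1 : 0 < arg (1 - d) := by
    rcases lt_or_eq_of_le (arg_nonneg_iff.2 h0.le) with h | h
    · exact h
    · exfalso
      have := (arg_eq_zero_iff.1 h.symm).2
      exact h0.ne' this
  have h2 : arg (1 - d) < Real.pi := by
    rcases lt_or_eq_of_le (arg_le_pi (1 - d)) with h | h
    · exact h
    · exfalso
      have := (arg_eq_pi_iff.1 h).2
      exact h0.ne' this
  constructor
  · linarith
  · linarith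

private theorem rg_pow (k : ℝ) (d : ℂ) : rg d ^ (k : ℂ) = rk k d := by
  rw [cpow_def_of_ne_zero (rg_ne d), (arg_rg_eq d).2.2]
  unfold rk
  congr 1
  ring

private theorem sg_root {d : ℂ} (h : ek k μ d ≠ 0) :
    sg k μ d = ((cK k μ : ℂ) - rg d ^ (k : ℂ)) ^ ((1 / k : ℝ) : ℂ) := by
  rw [rg_pow]
  have h2 : (cK k μ : ℂ) - rk k d = ek k μ d := rfl
  rw [h2, cpow_def_of_ne_zero h]
  unfold sg
  congr 1
  push_cast
  ring

/-- `EQ2K.pol_of_pow` (or `pol_of_root`): `(rg d)^k = rk k d` as `arg (rg d) ∈ (0, π/2)`, and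
`sg = (c - rk)^(1/k)` principal -/
theorem pol (hk : 1 ≤ k) (hk2 : k ≤ 2) (hμ : 1 < μ) {d : ℂ} (hi : d.im < 0) :
    EQ2K.Pol k (cK k μ) (arg (rg d)) (-(arg (sg k μ d))) ‖rg d‖ ‖sg k μ d‖ := by
  have hne : ek k μ d ≠ 0 := by
    intro h
    have := ek_im_neg (μ := μ) hk hk2 hi
    rw [h, zero_im] at this
    exact lt_irrefl _ this
  have hc := cK_gt hk hμ
  exact EQ2K.pol_of_root hk hk2 (by linarith) (arg_rg hi).1 (arg_rg hi).2 (sg_root hne)

private theorem arg_sg_eq (hk : 1 ≤ k) (d : ℂ) :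
    arg (sg k μ d) = arg (ek k μ d) / k := by
  have hk0 : 0 < k := by linarith
  have h1 : (Complex.log (ek k μ d) / (k : ℂ)).im = arg (ek k μ d) / k := by
    have : Complex.log (ek k μ d) / (k : ℂ) = Complex.log (ek k μ d) * (((1 / k : ℝ)) : ℂ) := by
      push_cast
      ring
    rw [this, im_mul_ofReal, log_im]
    ring
  have h2 := neg_pi_lt_arg (ek k μ d)
  have h3 := arg_le_pi (ek k μ d)
  have hp := Real.pi_pos
  have h4 : Complex.log (sg k μ d) = Complex.log (ek k μ d) / (k : ℂ) := by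
    unfold sg
    apply Complex.log_exp
    · rw [h1, lt_div_iff₀ hk0]
      nlinarith
    · rw [h1, div_le_iff₀ hk0]
      nlinarith
  rw [← log_im, h4, h1]

/-- `|arg s| = |arg ek|/k < π/2` since `Re ek > 0` (`ek_re_pos`) -/
theorem arg_sg_le (hk : 1 ≤ k) (hk2 : k ≤ 2) (hμ : 1 < μ) {d : ℂ} (hd : ‖d‖ < 1) :
    -(arg (sg k μ d)) ≤ Real.pi / 2 := by
  have hk0 : 0 < k := by linarith
  rw [arg_sg_eq hk]
  have h1 := ek_re_pos hk hk2 hμ hd
  have h2 : |arg (ek k μ d)| < Real.pi / 2 := abs_arg_lt_pi_div_two_iff.2 (Or.inl h1)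
  have h3 := (abs_lt.1 h2).1
  have hp := Real.pi_pos
  rw [← neg_div, div_le_iff₀ hk0]
  nlinarith

/-- `‖sg‖^k = ‖ek‖ ≤ c` (`EQ2K.far_le` with `z = 1 - d`, `p = k/2`) -/
theorem norm_sg_le (hk : 1 ≤ k) (hk2 : k ≤ 2) (hμ : 1 < μ) {d : ℂ} (hd : ‖d‖ < 1) :
    ‖sg k μ d‖ ^ k ≤ cK k μ := by
  have hk0 : 0 < k := by linarith
  have h1 := ek_re_pos hk hk2 hμ hd
  have hne : ek k μ d ≠ 0 := by
    intro h
    rw [h, zero_re] at h1
    exact lt_irrefl _ h1
  have hc := cK_gt hk hμ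
  have h2 : ‖sg k μ d‖ ^ k = ‖ek k μ d‖ := by
    unfold sg
    have : Complex.log (ek k μ d) / (k : ℂ) = Complex.log (ek k μ d) * (((1 / k : ℝ)) : ℂ) := by
      push_cast
      ring
    rw [this, Complex.norm_exp, re_mul_ofReal, log_re, ← Real.exp_mul]
    have h3 : Real.log ‖ek k μ d‖ * (1 / k) * k = Real.log ‖ek k μ d‖ := by
      field_simp
    rw [h3, Real.exp_log (norm_pos_iff.2 hne)]
  rw [h2]
  have h4 : (1 - d) ≠ 0 := by
    intro h
    have : d = 1 := by linear_combination -h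
    rw [this, norm_one] at hd
    exact lt_irrefl _ hd
  have h5 : rk k d = (1 - d) ^ ((k / 2 : ℝ) : ℂ) := by
    rw [cpow_def_of_ne_zero h4]
    unfold rk
    congr 1
    push_cast
    ring
  unfold ek
  rw [h5]
  apply EQ2K.far_le
  · linarith
  · linarith
  · linarith
  · have : (1 - d) - 1 = -d := by ring
    rw [this, norm_neg]
    exact hd.le

private theorem pw_a (μ : ℝ) : (((μ - 1) / 2 : ℝ) : ℂ) = ((μ : ℂ) - 1) / 2 := by
  push_cast
  ring

private theorem pw_sm {d d' X : ℂ} (hk : 1 ≤ k) (hk2 : k ≤ 2) (hμ : 1 < μ) (hd : ‖d‖ < 1)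
    (hX : 2 * ((μ : ℂ) - 1) * X = 2 * ((μ : ℂ) - 1) + d + ps k μ d') :
    sg k μ d' ^ 2 = rg d ^ 2 + 4 * (((μ - 1) / 2 : ℝ) : ℂ) * X
      + 4 * (((μ - 1) / 2 : ℝ) : ℂ) ^ 2 := by
  rw [sg_sq, rg_sq (Adm.of_norm hk hk2 hμ hd), pw_a]
  linear_combination -hX

private theorem pw_im {d' : ℂ} (hk : 1 ≤ k) (hk2 : k ≤ 2) (hμ : 1 < μ) (hd' : ‖d'‖ < 1)
    (hi' : d'.im ≤ 0) : (sg k μ d' ^ 2).im ≤ 0 := by
  rw [sg_sq, add_im]
  have h1 := ps_im_nonpos hk hk2 hμ hd' hi'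
  have h2 : ((μ : ℂ) ^ 2).im = 0 := by
    rw [← ofReal_pow, ofReal_im]
  rw [h2]
  linarith

private theorem pw_div (d : ℂ) : sg k μ d / rg d = Sg k μ d := by
  rw [sg_eq, mul_div_cancel_right₀ _ (rg_ne d)]

/-- `EQ2K.J_lemma` with `a = (μ-1)/2`, `r = rg d`, `s = sg d`, `sm = sg d'`
(`sm² = μ² + ps d' = r² + 4aX + 4a²` by `hX`) -/
theorem J_step (hk : 1 ≤ k) (hk2 : k ≤ 2) (hμ : 1 < μ) {d d' X : ℂ} (hd : ‖d‖ < 1)
    (hi : d.im < 0) (hd' : ‖d'‖ < 1) (hi' : d'.im ≤ 0)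
    (hX : 2 * ((μ : ℂ) - 1) * X = 2 * ((μ : ℂ) - 1) + d + ps k μ d')
    (hre : 0 ≤ (X / rg d).re) :
    (d - ps k μ d + 2 * ((μ : ℂ) - 1) * (Sg k μ d * X - (μ : ℂ))).im ≤ 0 := by
  have h := EQ2K.J_lemma (a := (μ - 1) / 2) (by linarith) (pol hk hk2 hμ hi)
    (arg_sg_le hk hk2 hμ hd) (pw_sm hk hk2 hμ hd hX) (pw_im hk hk2 hμ hd' hi') hre
  rw [pw_div, rg_sq (Adm.of_norm hk hk2 hμ hd), sg_sq, pw_a] at h
  have e : d - ps k μ d + 2 * ((μ : ℂ) - 1) * (Sg k μ d * X - (μ : ℂ)) =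
      -(1 - d + (ps k μ d + (μ : ℂ) ^ 2 - 4 * (((μ : ℂ) - 1) / 2) * (Sg k μ d * X)
        + 4 * (((μ : ℂ) - 1) / 2) ^ 2))
      + ((1 + μ ^ 2 + (μ - 1) ^ 2 - 2 * (μ - 1) * μ : ℝ) : ℂ) := by
    push_cast
    ring
  rw [e, add_im, neg_im, ofReal_im]
  linarith

/-- `EQ2K.NZ`, same dictionary (`s/r = Sg d`) -/
theorem NZ_step (hk : 1 ≤ k) (hk2 : k ≤ 2) (hμ : 1 < μ) {d d' X Y : ℂ} (hd : ‖d‖ < 1)
    (hi : d.im < 0) (hd' : ‖d'‖ < 1) (hi' : d'.im ≤ 0)
    (hX : 2 * ((μ : ℂ) - 1) * X = 2 * ((μ : ℂ) - 1) + d + ps k μ d')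
    (hXY : X ^ 2 + Y ^ 2 = 1 - d) (hY : Y ≠ 0) (hre : 0 ≤ (X / rg d).re) :
    1 + ((Sg k μ d * X - ((μ : ℂ) - 1)) / (Sg k μ d * Y)) ^ 2 ∈ Complex.slitPlane := by
  have h := EQ2K.NZ (a := (μ - 1) / 2) (X := X) (Y := Y) (by linarith) (pol hk hk2 hμ hi)
    (arg_sg_le hk hk2 hμ hd) (by rw [rg_sq (Adm.of_norm hk hk2 hμ hd), hXY]) hY
    (pw_sm hk hk2 hμ hd hX) (pw_im hk hk2 hμ hd' hi') (norm_sg_le hk hk2 hμ hd') hre
  rw [pw_div, pw_a] at h
  have e : 2 * (((μ : ℂ) - 1) / 2) = (μ : ℂ) - 1 := by ring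
  rw [e] at h
  exact h

/-- `X/r = q η`, `η = Y/r`.  `Y` in the closed first quadrant, `arg r ∈ (0, π/2)`, so
`arg η ∈ (-π/2, π/2)`; `η² (1 + q²) = 1` and `Im (1+q²) ≤ 0` (`q` in the closed fourth quadrant), so
`Im η² ≥ 0`, hence `Im η ≥ 0`.  `q ∈ Q4`, `η ∈ Q1` give `Re (q η) ≥ 0`. -/
theorem re_X_div_r {d X Y : ℂ} (hi : d.im < 0) (hY : Y ≠ 0) (hXY : X ^ 2 + Y ^ 2 = 1 - d)
    (hq1 : 0 ≤ (X / Y).re) (hq2 : (X / Y).im ≤ 0) (hY1 : 0 ≤ Y.re) (hY2 : 0 ≤ Y.im) :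
    0 ≤ (X / rg d).re := by
  have hr := rg_ne d
  have hr2 : rg d ^ 2 = 1 - d := by
    unfold rg
    rw [← Complex.exp_nat_mul]
    have e : ((2 : ℕ) : ℂ) * (Complex.log (1 - d) / 2) = Complex.log (1 - d) := by
      push_cast
      ring
    rw [e, Complex.exp_log]
    intro h
    have h2 := congrArg Complex.im h
    simp only [sub_im, one_im, zero_im] at h2
    linarith
  obtain ⟨ha0, ha1⟩ := arg_rg hi
  have hrn : 0 < ‖rg d‖ := norm_pos_iff.2 hr
  have hrre : 0 < (rg d).re := by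
    have h1 : (rg d).re = ‖rg d‖ * Real.cos (arg (rg d)) := by
      rw [norm_mul_cos_arg]
    rw [h1]
    apply mul_pos hrn
    apply Real.cos_pos_of_mem_Ioo
    constructor
    · linarith [Real.pi_pos]
    · exact ha1
  have hrim : 0 < (rg d).im := by
    have h1 : (rg d).im = ‖rg d‖ * Real.sin (arg (rg d)) := by
      rw [norm_mul_sin_arg]
    rw [h1]
    apply mul_pos hrn
    apply Real.sin_pos_of_pos_of_lt_pi ha0
    linarith [Real.pi_pos]
  have hηre : 0 < (Y / rg d).re := by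
    rw [div_re]
    have hns : 0 < normSq (rg d) := normSq_pos.2 hr
    have h1 : Y.re * (rg d).re / normSq (rg d) + Y.im * (rg d).im / normSq (rg d) =
        (Y.re * (rg d).re + Y.im * (rg d).im) / normSq (rg d) := by ring
    rw [h1]
    apply div_pos _ hns
    rcases hY1.lt_or_eq with h | h
    · have := mul_pos h hrre
      have := mul_nonneg hY2 hrim.le
      linarith
    · rcases hY2.lt_or_eq with h' | h'
      · have := mul_pos h' hrim
        have := mul_nonneg hY1 hrre.le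
        linarith
      · exfalso
        apply hY
        apply Complex.ext
        · rw [zero_re]
          exact h.symm
        · rw [zero_im]
          exact h'.symm
  have hXr : X / rg d = (X / Y) * (Y / rg d) := by
    field_simp
  have hprod : (Y / rg d) ^ 2 * (1 + (X / Y) ^ 2) = 1 := by
    have h1 : (Y / rg d) ^ 2 * (1 + (X / Y) ^ 2) = (X ^ 2 + Y ^ 2) / rg d ^ 2 := by
      field_simp
      ring
    rw [h1, hXY, ← hr2]
    exact div_self (pow_ne_zero _ hr)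
  set q : ℂ := X / Y with hq
  set η : ℂ := Y / rg d with hη
  have him1 : (1 + q ^ 2).im ≤ 0 := by
    have : (1 + q ^ 2).im = 2 * (q.re * q.im) := by
      rw [add_im, one_im, sq, mul_im]
      ring
    rw [this]
    have := mul_nonneg hq1 (neg_nonneg.2 hq2)
    linarith
  have him2 : 0 ≤ (η ^ 2).im := by
    have hne : 1 + q ^ 2 ≠ 0 := right_ne_zero_of_mul (by rw [hprod]; exact one_ne_zero)
    have h1 : η ^ 2 = (1 + q ^ 2)⁻¹ := eq_inv_of_mul_eq_one_left hprod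
    rw [h1, inv_im]
    apply div_nonneg
    · linarith
    · exact normSq_nonneg _
  have hηim : 0 ≤ η.im := by
    have h1 : (η ^ 2).im = 2 * (η.re * η.im) := by
      rw [sq, mul_im]
      ring
    rw [h1] at him2
    by_contra hneg
    rw [not_le] at hneg
    have := mul_neg_of_pos_of_neg hηre hneg
    linarith
  rw [hXr, mul_re]
  have h1 := mul_nonneg hq1 hηre.le
  have h2 := mul_nonneg (neg_nonneg.2 hq2) hηim
  linarith

end EQG1
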