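import Pool.Agent.Lib.MP_226de1_co.E1.G.LoopP
import Pool.Agent.Lib.MP_226de1_co.E1.G.PW

/-! `Im D ≤ 0` in the loop. -/

set_option autoImplicit false

namespace EQG1

open Complex Set Filter Topology
open EQ2 (dd dr xv ell pt NNS)

variable {k μ : ℝ} {F : ℕ → ℝ} {ly : ℂ → ℂ} {r : ℝ}

/-- the pointwise step: `J_step` with `d = D x`, `d' = D (x-ℓ)`, `X = X x` (`HF.Xx_eq`),
`Re (X/rg d) ≥ 0` by `re_X_div_r` (`Y = Y x`, `q x = X/Y`), and `HF.Dx_sum` -/
theorem QB_J (h : HF k μ F) (hy : HY k μ F ly) (hr : r < 0) (hQ : QB k μ F ly r) {x : ℂ}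
    (hx : x.re ≤ r) (h0 : 0 ≤ x.im) (h1 : x.im ≤ Real.pi / 2) (hd : (Dx F x).im < 0)
    (hd' : (Dx F (x - (ell μ : ℂ))).im ≤ 0) :
    (Dx F x + Dx F (x + (ell μ : ℂ))).im ≤ 0 := by
  have hl := EQ2.ell_pos h.hμ
  have hx0 : x.re < 0 := lt_of_le_of_lt hx hr
  have hxl : x.re < ell μ := by linarith
  have hxl' : (x - (ell μ : ℂ)).re < 0 := by
    rw [Complex.sub_re, Complex.ofReal_re]
    linarith
  obtain ⟨hq1, hq2⟩ := hQ x hx h0 h1
  obtain ⟨hY1, hY2⟩ := QB_Y h hy hr hQ x (by linarith) h0 h1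
  have hre : 0 ≤ (Xx k μ F x / rg (Dx F x)).re :=
    re_X_div_r hd (Yx_ne ly x) (HY.XY_sq h hy hxl) hq1 hq2 hY1 hY2
  have hμ1 : (2 * ((μ : ℂ) - 1)) ≠ 0 := by
    have h2 : (μ : ℂ) - 1 ≠ 0 := by
      rw [sub_ne_zero]
      exact_mod_cast h.hμ.ne'
    exact mul_ne_zero two_ne_zero h2
  have hX : 2 * ((μ : ℂ) - 1) * Xx k μ F x = 2 * ((μ : ℂ) - 1) + Dx F x +
      ps k μ (Dx F (x - (ell μ : ℂ))) := by
    rw [HF.Xx_eq h, mul_add, mul_div_cancel₀ _ hμ1, mul_one]
    ring
  rw [HF.Dx_sum h hx0]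
  exact J_step h.hk h.hk2 h.hμ (HF.norm_Dx_lt h hx0) hd (HF.norm_Dx_lt h hxl') hd' hX hre

private theorem LoopP1_im_bot (h : HF k μ F) {t : ℝ} (ht : t < ell μ) :
    (Dx F (⟨t, 0⟩ : ℂ)).im = 0 := by
  have e : (⟨t, 0⟩ : ℂ) = (t : ℂ) := rfl
  rw [e, HF.Dx_ofReal h ht, Complex.ofReal_im]

private theorem LoopP1_im_top (h : HF k μ F) {t : ℝ} (ht : t < ell μ) :
    (Dx F (⟨t, Real.pi / 2⟩ : ℂ)).im = 0 := by
  have e := HF.Dx_top h ht
  show (Dx F (pt t (Real.pi / 2))).im = 0
  rw [e, Complex.ofReal_im]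

/-- `P1`: `Im D ≤ 0` on `Re x ≤ r + ℓ/2`.
Start from `P1_base` (true on `Re x ≤ r₀`).  Step: if true on `Re x ≤ ρ` then true on
`Re x ≤ min (ρ + ℓ/2) (r + ℓ/2)`: for smaller `c`, on the line `Re x = c - ℓ/2 < min ρ r` and
`0 < Im x < π/2` we have `Im D x < 0` (`EQ2.im_neg_of_nonpos`, `Dx_not_loc_const`), so `QB_J`; by
continuity `Im (D x + D (x+ℓ)) ≤ 0` also at the ends of the segment; apply `EQ2.halfstep_sum` to
`f = -Dx F`, `h = ℓ/2` (`D` is real on `Im x = 0` and on `Im x = π/2`).  The right end by continuity.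
Iterate finitely often. -/
theorem QB_P1 (h : HF k μ F) (hy : HY k μ F ly) (hr : r < 0) (hQ : QB k μ F ly r) :
    ∀ x : ℂ, x.re ≤ r + ell μ / 2 → 0 ≤ x.im → x.im ≤ Real.pi / 2 → (Dx F x).im ≤ 0 := by
  have hμ := h.hμ
  have hl := EQ2.ell_pos hμ
  obtain ⟨r₀, _, hr₀⟩ := P1_base h
  have hstep : ∀ ρ : ℝ, (∀ x : ℂ, x.re ≤ ρ → x.re < r + ell μ / 2 → 0 ≤ x.im →
      x.im ≤ Real.pi / 2 → (Dx F x).im ≤ 0) → ∀ x : ℂ, x.re ≤ ρ + ell μ / 4 →
      x.re < r + ell μ / 2 → 0 ≤ x.im → x.im ≤ Real.pi / 2 → (Dx F x).im ≤ 0 := by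
    intro ρ hρ x hxρ hx h0 h1
    have key := EQ2.halfstep_sum (f := fun z => -Dx F z) (c := x.re) (h := ell μ / 2) (by linarith)
      (fun z hz _ _ => (HF.Dx_differentiableAt h
        (by have := (abs_le.1 hz).2; linarith)).neg)
      (fun t ht => by
        have ht' : t < ell μ := by have := (abs_le.1 ht).2; linarith
        rw [Complex.neg_im, LoopP1_im_bot h ht', neg_zero])
      (fun t ht => by
        have ht' : t < ell μ := by have := (abs_le.1 ht).2; linarith
        rw [Complex.neg_im, LoopP1_im_top h ht', neg_zero])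
      (fun s hs0 hs1 => by
        have ha0 : x.re - ell μ / 2 < ell μ := by linarith
        have ha1 : x.re + ell μ / 2 < ell μ := by linarith
        rcases hs0.eq_or_lt with hs0' | hs0'
        · rw [← hs0', Complex.neg_im, Complex.neg_im, LoopP1_im_bot h ha0, LoopP1_im_bot h ha1]
          simp
        rcases hs1.eq_or_lt with hs1' | hs1'
        · rw [hs1', Complex.neg_im, Complex.neg_im, LoopP1_im_top h ha0, LoopP1_im_top h ha1]
          simp
        set z : ℂ := ⟨x.re - ell μ / 2, s⟩ with hz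
        have hzre : z.re = x.re - ell μ / 2 := rfl
        have hzim : z.im = s := rfl
        have hnear : ∀ᶠ w in 𝓝 z, (Dx F w).im ≤ 0 := by
          have o1 : ∀ᶠ w : ℂ in 𝓝 z, w.re < ρ :=
            (isOpen_lt Complex.continuous_re continuous_const).mem_nhds
              (by show z.re < ρ; rw [hzre]; linarith)
          have o2 : ∀ᶠ w : ℂ in 𝓝 z, w.re < r + ell μ / 2 :=
            (isOpen_lt Complex.continuous_re continuous_const).mem_nhds
              (by show z.re < r + ell μ / 2; rw [hzre]; linarith)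
          have o3 : ∀ᶠ w : ℂ in 𝓝 z, 0 < w.im :=
            (isOpen_lt continuous_const Complex.continuous_im).mem_nhds
              (by show 0 < z.im; rw [hzim]; exact hs0')
          have o4 : ∀ᶠ w : ℂ in 𝓝 z, w.im < Real.pi / 2 :=
            (isOpen_lt Complex.continuous_im continuous_const).mem_nhds
              (by show z.im < Real.pi / 2; rw [hzim]; exact hs1')
          filter_upwards [o1, o2, o3, o4] with w w1 w2 w3 w4
          exact hρ w w1.le w2 w3.le w4.le
        have hzl : z.re < ell μ := by rw [hzre]; exact ha0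
        have han : AnalyticAt ℂ (Dx F) z := by
          have hopen : IsOpen {w : ℂ | w.re < ell μ} :=
            isOpen_lt Complex.continuous_re continuous_const
          have hdo : DifferentiableOn ℂ (Dx F) {w : ℂ | w.re < ell μ} := fun w hw =>
            (HF.Dx_differentiableAt h hw).differentiableWithinAt
          exact hdo.analyticAt (hopen.mem_nhds hzl)
        have hneg : (Dx F z).im < 0 :=
          EQ2.im_neg_of_nonpos han hnear (Dx_not_loc_const h hzl)
        have hneg' : (Dx F (z - (ell μ : ℂ))).im ≤ 0 := by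
          have e2 : z - (ell μ : ℂ) = ⟨x.re - ell μ / 2 - ell μ, s⟩ := by
            rw [hz]
            apply Complex.ext <;> simp
          rw [e2]
          exact hρ _ (by show x.re - ell μ / 2 - ell μ ≤ ρ; linarith)
            (by show x.re - ell μ / 2 - ell μ < r + ell μ / 2; linarith) hs0 hs1
        have hJ := QB_J h hy hr hQ (x := z) (by rw [hzre]; linarith) (by rw [hzim]; exact hs0)
          (by rw [hzim]; exact hs1) hneg hneg'
        have e1 : z + (ell μ : ℂ) = ⟨x.re + ell μ / 2, s⟩ := by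
          rw [hz]
          apply Complex.ext
          · simp
            ring
          · simp
        rw [e1, Complex.add_im] at hJ
        rw [Complex.neg_im, Complex.neg_im]
        linarith)
    have k := key x.im h0 h1
    have hxe : (⟨x.re, x.im⟩ : ℂ) = x := Complex.ext rfl rfl
    rw [hxe, Complex.neg_im] at k
    linarith
  have hall : ∀ n : ℕ, ∀ x : ℂ, x.re ≤ r₀ + n * (ell μ / 4) → x.re < r + ell μ / 2 →
      0 ≤ x.im → x.im ≤ Real.pi / 2 → (Dx F x).im ≤ 0 := by
    intro n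
    induction n with
    | zero =>
      intro x hx _ h0 h1
      exact hr₀ x (by simpa using hx) h0 h1
    | succ n ih =>
      intro x hx hx' h0 h1
      refine hstep _ ih x ?_ hx' h0 h1
      push_cast at hx
      linarith
  obtain ⟨n, hn⟩ := exists_nat_ge ((r + ell μ / 2 - r₀) / (ell μ / 4))
  have hn' : r + ell μ / 2 ≤ r₀ + n * (ell μ / 4) := by
    rw [div_le_iff₀ (by linarith)] at hn
    linarith
  have hlt : ∀ x : ℂ, x.re < r + ell μ / 2 → 0 ≤ x.im → x.im ≤ Real.pi / 2 →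
      (Dx F x).im ≤ 0 := fun x hx h0 h1 => hall n x (hx.le.trans hn') hx h0 h1
  intro x hx h0 h1
  have hcont : ContinuousAt (Dx F) x := (HF.Dx_differentiableAt h (by linarith)).continuousAt
  have ht : Tendsto (fun t : ℝ => (Dx F (x - (t : ℂ))).im) (𝓝[>] (0 : ℝ)) (𝓝 (Dx F x).im) := by
    have h2 : Tendsto (fun t : ℝ => x - (t : ℂ)) (𝓝[>] (0 : ℝ)) (𝓝 x) := by
      have h3 : Continuous (fun t : ℝ => x - (t : ℂ)) := by fun_prop
      have h4 := h3.tendsto 0
      rw [Complex.ofReal_zero, sub_zero] at h4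
      exact h4.mono_left nhdsWithin_le_nhds
    exact (Complex.continuous_im.tendsto _).comp (hcont.tendsto.comp h2)
  refine le_of_tendsto ht ?_
  filter_upwards [self_mem_nhdsWithin] with t ht0
  have ht1 : (0 : ℝ) < t := ht0
  refine hlt (x - (t : ℂ)) ?_ ?_ ?_
  · rw [Complex.sub_re, Complex.ofReal_re]; linarith
  · rw [Complex.sub_im, Complex.ofReal_im]; linarith
  · rw [Complex.sub_im, Complex.ofReal_im]; linarith

end EQG1
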