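import Pool.Agent.Lib.MP_226de1_co.E1.G.LoopP1
import Pool.Agent.Lib.MP_226de1_co.LoopReal

/-! Real line (compare `LoopReal.lean`, `k = 2`; `EQ2.hasDerivAt_real_of`,
`EQ2.monotoneOn_Iic_of_Iio`, `EQ2.analyticAt_of_halfplane`, `EQ2.eventually_lt_real`,
`EQ2.eventually_strip` can be used). -/

set_option autoImplicit false

namespace EQG1

open Complex Set Filter Topology
open EQ2 (dd dr xv ell pt NNS)

variable {k μ : ℝ} {F : ℕ → ℝ} {ly : ℂ → ℂ} {r : ℝ}

private theorem GLR_psr_deriv (hk : 1 ≤ k) (hμ : 1 < μ) {d : ℝ} (h0 : 1 - cT k μ < d)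
    (h1 : d < 1) : ∃ p : ℝ, 0 < p ∧ HasDerivAt (psr k μ) p d := by
  have hT : 0 < 1 - d := by linarith
  have hk0 : 0 < k := by linarith
  have hc : 0 < cK k μ := by
    have := cK_gt hk hμ
    linarith
  have he : 0 < 1 + μ ^ k - (1 - d) ^ (k / 2) := by
    have h2 : (1 - d) ^ (k / 2) < cT k μ ^ (k / 2) :=
      Real.rpow_lt_rpow hT.le (by linarith) (by positivity)
    have h3 : cT k μ ^ (k / 2) = cK k μ := by
      unfold cT
      rw [← Real.rpow_mul hc.le]
      have : 2 / k * (k / 2) = 1 := by field_simp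
      rw [this, Real.rpow_one]
    rw [h3] at h2
    unfold cK at h2
    linarith
  have d1 : HasDerivAt (fun y : ℝ => 1 - y) (-1) d := by
    simpa using (hasDerivAt_id d).const_sub 1
  have d2 := d1.rpow_const (p := k / 2) (Or.inl hT.ne')
  have d3 := (d2.const_sub (1 + μ ^ k)).rpow_const (p := 2 / k) (Or.inl he.ne')
  have d4 := d3.sub_const (μ ^ 2)
  refine ⟨_, ?_, d4⟩
  have p1 : 0 < (1 - d) ^ (k / 2 - 1) := Real.rpow_pos_of_pos hT _
  have p2 : 0 < (1 + μ ^ k - (1 - d) ^ (k / 2)) ^ (2 / k - 1) := Real.rpow_pos_of_pos he _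
  have p3 : 0 < -(-1 * (k / 2) * (1 - d) ^ (k / 2 - 1)) := by
    have : -(-1 * (k / 2) * (1 - d) ^ (k / 2 - 1)) = k / 2 * (1 - d) ^ (k / 2 - 1) := by ring
    rw [this]
    positivity
  positivity

private theorem GLR_half_lt_ell (h : HF k μ F) (hr : r < 0) : r + ell μ / 2 < ell μ := by
  have := EQ2.ell_pos h.hμ
  linarith

/-- If `Im D ≤ 0` on `Re x ≤ b`, `0 ≤ Im x ≤ π/2` then `rD` has negative derivative at real
`t < b` (`EQ2.deriv_neg_of_im_nonpos_up`, `Dx_not_loc_const`). -/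
theorem rD_deriv_neg (h : HF k μ F) {b : ℝ} (hb : b ≤ ell μ)
    (hP : ∀ x : ℂ, x.re < b → 0 ≤ x.im → x.im ≤ Real.pi / 2 → (Dx F x).im ≤ 0)
    {t : ℝ} (ht : t < b) : (deriv (Dx F) (t : ℂ)).re < 0 ∧
      HasDerivAt (rD F) (deriv (Dx F) (t : ℂ)).re t := by
  have htl : t < ell μ := lt_of_lt_of_le ht hb
  have hev : ∀ᶠ s : ℝ in 𝓝 t, Dx F (s : ℂ) = (rD F s : ℂ) := by
    filter_upwards [EQ2.eventually_lt_real htl] with s hs
    exact h.Dx_ofReal hs
  refine ⟨?_, EQ2.hasDerivAt_real_of (h.Dx_differentiableAt (by simpa using htl)) hev⟩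
  apply EQ2.deriv_neg_of_im_nonpos_up
  · exact EQ2.analyticAt_of_halfplane (fun x hx => h.Dx_differentiableAt hx) (by simpa using htl)
  · filter_upwards [hev] with s hs
    rw [hs]
    simp
  · filter_upwards [EQ2.eventually_strip ht] with z hz h0
    exact hP z hz.1 h0 hz.2
  · exact Dx_not_loc_const h (by simpa using htl)

theorem rD_strictAnti (h : HF k μ F) {b : ℝ} (hb : b ≤ ell μ)
    (hP : ∀ x : ℂ, x.re < b → 0 ≤ x.im → x.im ≤ Real.pi / 2 → (Dx F x).im ≤ 0) :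
    StrictAntiOn (rD F) (Set.Iio b) := by
  apply strictAntiOn_of_deriv_neg (convex_Iio b)
  · intro t ht
    exact (rD_deriv_neg h hb hP ht).2.continuousAt.continuousWithinAt
  · intro t ht
    rw [interior_Iio] at ht
    have := rD_deriv_neg h hb hP ht
    rw [this.2.deriv]
    exact this.1

/-- `rD t < 0` for `t < b` (`rD` is decreasing and tends to `0` at `-∞`) -/
theorem rD_neg (h : HF k μ F) {b : ℝ} (hb : b ≤ ell μ)
    (hP : ∀ x : ℂ, x.re < b → 0 ≤ x.im → x.im ≤ Real.pi / 2 → (Dx F x).im ≤ 0)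
    {t : ℝ} (ht : t < b) : rD F t < 0 := by
  have hanti := rD_strictAnti h hb hP
  have h1 : rD F t < rD F (t - 1) := hanti (show t - 1 < b by linarith) ht (by linarith)
  have hlim : Tendsto (rD F) atBot (𝓝 0) := by
    have h2 : Tendsto (fun s : ℝ => Real.exp (2 * s)) atBot (𝓝 0) :=
      Real.tendsto_exp_atBot.comp (tendsto_id.const_mul_atBot (by norm_num : (0 : ℝ) < 2))
    refine squeeze_zero_norm' ?_ h2
    filter_upwards [Filter.eventually_le_atBot (0 : ℝ)] with s hs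
    have h3 : |(-Real.exp (2 * s))| = Real.exp (2 * s) := by
      rw [abs_neg, abs_of_pos (Real.exp_pos _)]
    have h4 : Real.exp (2 * s) ≤ 1 := Real.exp_le_one_iff.mpr (by linarith)
    have h5 := h.abs_dr_le (t := -Real.exp (2 * s)) (by rw [h3]; exact h4)
    rw [h3] at h5
    exact h5
  have h2 : rD F (t - 1) ≤ 0 := by
    refine ge_of_tendsto hlim ?_
    filter_upwards [Filter.eventually_lt_atBot (t - 1)] with s hs
    exact (hanti (show s < b by linarith) (show t - 1 < b by linarith) hs).le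
  linarith

/-- `rY` is nondecreasing where `Im LY ≥ 0` (`EQ2.deriv_neg_of_im_nonpos_up` for `-LY`;
`LY_not_loc_const`) -/
theorem rY_mono (h : HF k μ F) (hy : HY k μ F ly) {b : ℝ} (hb : b ≤ ell μ)
    (hP : ∀ x : ℂ, x.re < b → 0 ≤ x.im → x.im ≤ Real.pi / 2 → 0 ≤ (LY ly x).im) :
    MonotoneOn (rY ly) (Set.Iio b) := by
  have hder : ∀ t : ℝ, t < b → ∃ d : ℝ, 0 < d ∧ HasDerivAt (rL ly) d t := by
    intro t ht
    have htl : t < ell μ := lt_of_lt_of_le ht hb
    have hev : ∀ᶠ s : ℝ in 𝓝 t, LY ly (s : ℂ) = (rL ly s : ℂ) := by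
      filter_upwards [EQ2.eventually_lt_real htl] with s hs
      exact hy.LY_ofReal h hs
    have hdiff : DifferentiableAt ℂ (LY ly) (t : ℂ) :=
      hy.LY_differentiableAt h (by simpa using htl)
    refine ⟨_, ?_, EQ2.hasDerivAt_real_of hdiff hev⟩
    have hneg : (deriv (fun z => - LY ly z) (t : ℂ)).re < 0 := by
      apply EQ2.deriv_neg_of_im_nonpos_up
      · exact (EQ2.analyticAt_of_halfplane (fun x hx => hy.LY_differentiableAt h hx)
          (by simpa using htl)).neg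
      · filter_upwards [hev] with s hs
        rw [hs]
        simp
      · filter_upwards [EQ2.eventually_strip ht] with z hz h0
        have := hP z hz.1 h0 hz.2
        simpa using this
      · intro hc
        apply LY_not_loc_const h hy (x := (t : ℂ)) (by simpa using htl)
        filter_upwards [hc] with z hz
        simpa using hz
    rw [deriv.fun_neg] at hneg
    simpa using hneg
  have hmono : StrictMonoOn (rL ly) (Set.Iio b) := by
    apply strictMonoOn_of_deriv_pos (convex_Iio b)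
    · intro t ht
      obtain ⟨d, hd, hd'⟩ := hder t ht
      exact hd'.continuousAt.continuousWithinAt
    · intro t ht
      rw [interior_Iio] at ht
      obtain ⟨d, hd, hd'⟩ := hder t ht
      rw [hd'.deriv]
      exact hd
  intro s hs t ht hst
  unfold rY
  exact Real.exp_le_exp.2 (hmono.monotoneOn hs ht hst)

/-- derivative of `rX`: `(rD' t + psr'(rD (t-ℓ)) rD' (t-ℓ))/(2(μ-1))`, `psr' > 0`
(`psr' = (s/r)^(2-k)`, compare `ps_deriv`) -/
theorem rX_deriv_neg (h : HF k μ F) {b : ℝ} (hb : b ≤ ell μ)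
    (hP : ∀ x : ℂ, x.re < b → 0 ≤ x.im → x.im ≤ Real.pi / 2 → (Dx F x).im ≤ 0)
    {t : ℝ} (ht : t < b) : ∃ d : ℝ, d < 0 ∧ HasDerivAt (rX k μ F) d t := by
  have hl := EQ2.ell_pos h.hμ
  have hμ : 0 < μ - 1 := by have := h.hμ; linarith
  obtain ⟨hd1, hd1'⟩ := rD_deriv_neg h hb hP ht
  obtain ⟨hd2, hd2'⟩ := rD_deriv_neg h hb hP (show t - ell μ < b by linarith)
  have hlt : |rD F (t - ell μ)| < 1 := by
    have h1 := h.norm_Dx_lt (x := ((t - ell μ : ℝ) : ℂ)) (by
      rw [Complex.ofReal_re]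
      linarith)
    rw [h.Dx_ofReal (by linarith), Complex.norm_real, Real.norm_eq_abs] at h1
    exact h1
  rw [abs_lt] at hlt
  have hcT := cT_ge h.hk h.hk2 h.hμ
  have hμ2 : 0 < μ ^ 2 := by have := h.hμ; positivity
  have hμ1 : 1 < μ ^ 2 := by have := h.hμ; nlinarith
  obtain ⟨p, hp, hp'⟩ := GLR_psr_deriv (k := k) (μ := μ) h.hk h.hμ (d := rD F (t - ell μ))
    (by linarith [hlt.1]) hlt.2
  have h3 : HasDerivAt (fun s => rD F (s - ell μ)) (deriv (Dx F) ((t - ell μ : ℝ) : ℂ)).re t := by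
    have h4 : HasDerivAt (fun s : ℝ => s - ell μ) 1 t := (hasDerivAt_id t).sub_const (ell μ)
    have h5 := HasDerivAt.comp (h₂ := rD F) t hd2' h4
    rw [mul_one] at h5
    exact h5
  have h6 : HasDerivAt (fun s => psr k μ (rD F (s - ell μ)))
      (p * (deriv (Dx F) ((t - ell μ : ℝ) : ℂ)).re) t :=
    HasDerivAt.comp (h₂ := psr k μ) t hp' h3
  refine ⟨((deriv (Dx F) (t : ℂ)).re + p * (deriv (Dx F) ((t - ell μ : ℝ) : ℂ)).re) /
    (2 * (μ - 1)), ?_, ((hd1'.add h6).div_const _).const_add 1⟩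
  have h7 := mul_neg_of_pos_of_neg hp hd2
  exact div_neg_of_neg_of_pos (by linarith) (by positivity)

private theorem GLR_rX_cont (h : HF k μ F) {t : ℝ} (ht : t < ell μ) :
    ContinuousAt (rX k μ F) t := by
  have hev : ∀ᶠ s : ℝ in 𝓝 t, Xx k μ F (s : ℂ) = (rX k μ F s : ℂ) := by
    filter_upwards [EQ2.eventually_lt_real ht] with s hs
    exact h.Xx_ofReal hs
  exact (EQ2.hasDerivAt_real_of (h.Xx_differentiableAt (by simpa using ht)) hev).continuousAt

/-- on `Re ≤ r + ℓ/2`, `rX` is antitone and `rY` is monotone -/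
theorem QB_rX_anti (h : HF k μ F) (hy : HY k μ F ly) (hr : r < 0) (hQ : QB k μ F ly r) :
    AntitoneOn (rX k μ F) (Set.Iic (r + ell μ / 2)) := by
  have hb := GLR_half_lt_ell h hr
  have hP := QB_P1 h hy hr hQ
  have hX : ∀ t : ℝ, t < r + ell μ / 2 → ∃ d : ℝ, d < 0 ∧ HasDerivAt (rX k μ F) d t :=
    fun t ht => rX_deriv_neg h hb.le (fun x hx h0 h1 => hP x hx.le h0 h1) ht
  apply antitoneOn_of_deriv_nonpos (convex_Iic _)
  · intro t ht
    exact (GLR_rX_cont h (lt_of_le_of_lt ht hb)).continuousWithinAt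
  · intro t ht
    rw [interior_Iic] at ht
    obtain ⟨d, hd, hd'⟩ := hX t ht
    exact hd'.differentiableAt.differentiableWithinAt
  · intro t ht
    rw [interior_Iic] at ht
    obtain ⟨d, hd, hd'⟩ := hX t ht
    rw [hd'.deriv]
    exact hd.le

private theorem GLR_rY_hasDeriv (h : HF k μ F) (hy : HY k μ F ly) {t : ℝ} (ht : t < ell μ) :
    HasDerivAt (rY ly) (deriv (Yx ly) (t : ℂ)).re t := by
  have hev : ∀ᶠ s : ℝ in 𝓝 t, Yx ly (s : ℂ) = (rY ly s : ℂ) := by
    filter_upwards [EQ2.eventually_lt_real ht] with s hs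
    exact hy.Yx_ofReal h hs
  exact EQ2.hasDerivAt_real_of (hy.Yx_differentiableAt h (by simpa using ht)) hev

theorem QB_rY_mono (h : HF k μ F) (hy : HY k μ F ly) (hr : r < 0) (hQ : QB k μ F ly r) :
    MonotoneOn (rY ly) (Set.Iic (r + ell μ / 2)) := by
  have hb := GLR_half_lt_ell h hr
  have hP := QB_LY h hy hr hQ
  exact EQ2.monotoneOn_Iic_of_Iio (rY_mono h hy hb.le (fun x hx h0 h1 => (hP x hx.le h0 h1).1))
    (GLR_rY_hasDeriv h hy hb).continuousAt

theorem rY_hasDeriv (h : HF k μ F) (hy : HY k μ F ly) {t : ℝ} (ht : t < ell μ) :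
    HasDerivAt (rY ly) (deriv (Yx ly) (t : ℂ)).re t :=
  GLR_rY_hasDeriv h hy ht

theorem QB_rq_nonneg (h : HF k μ F) (hy : HY k μ F ly) (hr : r < 0) (hQ : QB k μ F ly r) {t : ℝ}
    (ht : t ≤ r) : 0 ≤ rq k μ F ly t := by
  have hl := EQ2.ell_pos h.hμ
  have h1 := (hQ (t : ℂ) (by simpa using ht) (by simp) (by
    have := Real.pi_pos
    simp only [Complex.ofReal_im]
    linarith)).1
  rw [hy.qx_ofReal h (by linarith)] at h1
  simpa using h1

private theorem GLR_rX_nonneg {t : ℝ} (hq : 0 ≤ rq k μ F ly t) : 0 ≤ rX k μ F t := by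
  unfold rq at hq
  by_contra hc
  push Not at hc
  have := div_neg_of_neg_of_pos hc (rY_pos ly t)
  linarith

/-- reflection comparison on the real line: `s₁ ≤ s₂`, `s₁ ≤ r`, `s₂ ≤ r + ℓ/2` implies
`q s₂ ≤ q s₁`.  (`rX` decreasing, `rY` increasing up to `r + ℓ/2`; `q s₁ ≥ 0` by `QB`;
if `rX s₂ ≥ 0` compare the quotients, otherwise `q s₂ < 0 ≤ q s₁`.) -/
theorem QB_real (h : HF k μ F) (hy : HY k μ F ly) (hr : r < 0) (hQ : QB k μ F ly r) {s1 s2 : ℝ}
    (h12 : s1 ≤ s2) (h1 : s1 ≤ r) (h2 : s2 ≤ r + ell μ / 2) :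
    rq k μ F ly s2 ≤ rq k μ F ly s1 := by
  have hl := EQ2.ell_pos h.hμ
  have hX := QB_rX_anti h hy hr hQ (show s1 ≤ r + ell μ / 2 by linarith) h2 h12
  have hY := QB_rY_mono h hy hr hQ (show s1 ≤ r + ell μ / 2 by linarith) h2 h12
  have hY1 : 0 < rY ly s1 := rY_pos ly s1
  have hY2 : 0 < rY ly s2 := rY_pos ly s2
  have hX1 : 0 ≤ rX k μ F s1 := GLR_rX_nonneg (QB_rq_nonneg h hy hr hQ h1)
  unfold rq
  rw [div_le_div_iff₀ hY2 hY1]
  calc rX k μ F s2 * rY ly s1 ≤ rX k μ F s1 * rY ly s1 := mul_le_mul_of_nonneg_right hX hY1.le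
    _ ≤ rX k μ F s1 * rY ly s2 := mul_le_mul_of_nonneg_left hY hX1

/-- strict negativity of `q'` at real `t ≤ r`: `q' = X'/Y - q Y'/Y`, `X' < 0`, `q ≥ 0`,
`Y' ≥ 0`. -/
theorem QB_real_deriv (h : HF k μ F) (hy : HY k μ F ly) (hr : r < 0) (hQ : QB k μ F ly r) {t : ℝ}
    (ht : t ≤ r) : (deriv (qx k μ F ly) (t : ℂ)).re < 0 := by
  have hl := EQ2.ell_pos h.hμ
  have hb := GLR_half_lt_ell h hr
  have htl : t < ell μ := by linarith
  have htb : t < r + ell μ / 2 := by linarith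
  have hP := QB_P1 h hy hr hQ
  obtain ⟨d, hd, hX⟩ := rX_deriv_neg h hb.le (fun x hx h0 h1 => hP x hx.le h0 h1) htb
  have hY := rY_hasDeriv h hy htl
  have hYpos : 0 < rY ly t := rY_pos ly t
  have hX1 : 0 ≤ rX k μ F t := GLR_rX_nonneg (QB_rq_nonneg h hy hr hQ ht)
  have hY' : 0 ≤ (deriv (Yx ly) (t : ℂ)).re := by
    have hmono := QB_rY_mono h hy hr hQ
    have hU : Set.Iic (r + ell μ / 2) ∈ 𝓝 t := Iic_mem_nhds htb
    have h3 := hmono.derivWithin_nonneg (x := t)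
    rw [derivWithin_of_mem_nhds hU, hY.deriv] at h3
    exact h3
  have hquot : HasDerivAt (rq k μ F ly) _ t := hX.div hY hYpos.ne'
  have hev : ∀ᶠ s : ℝ in 𝓝 t, qx k μ F ly (s : ℂ) = (rq k μ F ly s : ℂ) := by
    filter_upwards [EQ2.eventually_lt_real htl] with s hs
    exact hy.qx_ofReal h hs
  have hqd := EQ2.hasDerivAt_real_of (hy.qx_differentiableAt h (by simpa using htl)) hev
  rw [hqd.unique hquot]
  apply div_neg_of_neg_of_pos
  · have e1 : d * rY ly t < 0 := mul_neg_of_neg_of_pos hd hYpos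
    have e2 : 0 ≤ rX k μ F t * (deriv (Yx ly) (t : ℂ)).re := mul_nonneg hX1 hY'
    linarith
  · positivity

end EQG1
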