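import Pool.Agent.Lib.MP_226de1_co.E1.G.NCorner

/-! No window (compare `NCorner2.lean`, `k = 2`). -/

set_option autoImplicit false

namespace EQG1

open Complex Set Filter Topology
open EQ2 (dd dr xv ell pt NNS Dom US)

variable {k μ : ℝ} {Q P : ℂ → ℂ} {u w : ℝ → ℝ}

private theorem NCorner2_tendsto {f : ℕ → ℂ} {a b : ℝ} (h1 : Tendsto (fun n => (f n).re) atTop (𝓝 a))
    (h2 : Tendsto (fun n => (f n).im) atTop (𝓝 b)) :
    Tendsto f atTop (𝓝 ((a : ℂ) + (b : ℂ) * Complex.I)) := by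
  have e1 : Tendsto (fun n => ((f n).re : ℂ)) atTop (𝓝 (a : ℂ)) :=
    (Complex.continuous_ofReal.tendsto a).comp h1
  have e2 : Tendsto (fun n => ((f n).im : ℂ)) atTop (𝓝 (b : ℂ)) :=
    (Complex.continuous_ofReal.tendsto b).comp h2
  have e3 := e1.add (e2.mul_const Complex.I)
  refine e3.congr (fun n => ?_)
  exact Complex.re_add_im (f n)

/-- Take `τ_n → π/2` and pairs of `exists_top`; they are bounded (`Win_lower`), so a subsequence
converges to `(x*, z*)`, `Im x* = π/2`, `Im z* = -π/2`, `Re x* ∈ [κ-ℓ/2, κ+ℓ/2]`,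
`Re x* + Re z* ≤ 2κ`.  Cases:
* `0 ≤ Re x* < ℓ`: `VM x (z-ℓ)` (`LM.vm`), `Re z* - ℓ ≤ 2κ - ℓ < ℓ`;
* `Re x* ≥ ℓ`: `VM (x-ℓ) z` (`LM.vm'`), `Re z* ≤ 2κ - ℓ < ℓ`;
* `Re x* < 0`: shift first (`LM.shift`), `VM (x+ℓ) (z-2ℓ)`; `Re x* + ℓ ≥ κ + ℓ/2 ≥ 0`.
In each case `VM_limit` applies. -/
theorem no_window (hp : Pack k μ Q P u w) {κ : ℝ} (h0 : 0 < κ) (hκ : κ < ell μ)
    (hne : (Win k μ Q P κ 0).Nonempty) : False := by
  have hl : 0 < ell μ := Real.log_pos hp.hμ
  have hpi : 0 < Real.pi / 2 := by positivity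
  obtain ⟨A, hA⟩ := Win_lower hp hκ
  have hτ0 : ∀ n : ℕ, 0 ≤ Real.pi / 2 * ((n : ℝ) / (n + 1)) := fun n => by positivity
  have hτ1 : ∀ n : ℕ, Real.pi / 2 * ((n : ℝ) / (n + 1)) < Real.pi / 2 := by
    intro n
    have h1 : (n : ℝ) / (n + 1) < 1 := by
      rw [div_lt_one (by positivity)]
      linarith
    have h2 := mul_lt_mul_of_pos_left h1 hpi
    linarith
  have hτt : Tendsto (fun n : ℕ => Real.pi / 2 * ((n : ℝ) / (n + 1))) atTop (𝓝 (Real.pi / 2)) := by
    have h1 := (tendsto_natCast_div_add_atTop (1 : ℝ)).const_mul (Real.pi / 2)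
    rwa [mul_one] at h1
  have hsub : ∀ n : ℕ, (Win k μ Q P κ (Real.pi / 2 * ((n : ℝ) / (n + 1)))).Nonempty := by
    intro n
    refine hne.mono (fun p hp' => ?_)
    obtain ⟨a1, a2, a3, a4, a5, a6, a7⟩ := hp'
    exact ⟨a1, a2, a3, a4, a5.trans (hτ0 n), a6, a7⟩
  choose p hpW hpim using fun n => exists_top hp hκ (hτ0 n) (hτ1 n) (hsub n)
  have hbox : ∀ n, ((p n).1.re, (p n).2.re) ∈
      Icc (κ - ell μ / 2) (κ + ell μ / 2) ×ˢ Icc A (κ + ell μ / 2) := by
    intro n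
    obtain ⟨a1, a2, a3, a4, a5, a6, a7⟩ := hpW n
    refine ⟨⟨a2, a3⟩, ⟨hA _ _ (hpW n), ?_⟩⟩
    show (p n).2.re ≤ κ + ell μ / 2
    linarith
  obtain ⟨⟨a, b⟩, hab, φ, hφ, hlim⟩ := (isCompact_Icc.prod isCompact_Icc).tendsto_subseq hbox
  have ta : Tendsto (fun n => (p (φ n)).1.re) atTop (𝓝 a) :=
    (continuous_fst.tendsto (a, b)).comp hlim
  have tb : Tendsto (fun n => (p (φ n)).2.re) atTop (𝓝 b) :=
    (continuous_snd.tendsto (a, b)).comp hlim
  have tia : Tendsto (fun n => (p (φ n)).1.im) atTop (𝓝 (Real.pi / 2)) := by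
    have h1 := hτt.comp hφ.tendsto_atTop
    refine h1.congr (fun n => ?_)
    exact (hpim (φ n)).symm
  have tib : Tendsto (fun n => (p (φ n)).2.im) atTop (𝓝 (-(Real.pi / 2))) := by
    refine tia.neg.congr (fun n => ?_)
    exact ((hpW (φ n)).2.2.2.2.2.1).symm
  have tx := NCorner2_tendsto ta tia
  have tz := NCorner2_tendsto tb tib
  have hab1 : a + b ≤ 2 * κ := by
    refine le_of_tendsto (ta.add tb) (Eventually.of_forall (fun n => ?_))
    exact (hpW (φ n)).2.2.2.2.2.2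
  obtain ⟨⟨ha1, ha2⟩, ⟨hb1, hb2⟩⟩ := hab
  simp only at ha1 ha2 hb1 hb2
  have hg : ∀ n, GG k μ Q P (p n).1 (p n).2 := fun n => (hpW n).1
  rcases lt_or_ge a 0 with hneg | hnn
  · -- shift first
    have hev : ∀ᶠ n in atTop, (p (φ n)).1.re < 0 := ta.eventually_lt_const hneg
    obtain ⟨N, hN⟩ := eventually_atTop.1 hev
    refine VM_limit (xs := fun n => (p (φ (n + N))).1 + (ell μ : ℂ))
      (ws := fun n => (p (φ (n + N))).2 - (ell μ : ℂ) - (ell μ : ℂ)) hp ?_
      (((tendsto_add_atTop_iff_nat N).2 tx).add_const _)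
      ((((tendsto_add_atTop_iff_nat N).2 tz).sub_const _).sub_const _) ?_ ?_ ?_ ?_ ?_
    · intro n
      have h1 := hN (n + N) (Nat.le_add_left _ _)
      have h2 := (hg (φ (n + N))).shift hp (by linarith)
      exact LM.vm hp h2.1 h2.2.1 h2.lm
    · simp
    · simp
    · simp
      linarith
    · simp
      linarith
    · simp
      linarith
  · rcases lt_or_ge a (ell μ) with hlt | hge
    · refine VM_limit (xs := fun n => (p (φ n)).1)
        (ws := fun n => (p (φ n)).2 - (ell μ : ℂ)) hp ?_ tx (tz.sub_const _) ?_ ?_ ?_ ?_ ?_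
      · intro n
        have h2 := hg (φ n)
        exact LM.vm hp h2.1 h2.2.1 h2.lm
      · simp
      · simp
      · simp
        linarith
      · simp
        linarith
      · simp
        linarith
    · refine VM_limit (xs := fun n => (p (φ n)).1 - (ell μ : ℂ))
        (ws := fun n => (p (φ n)).2) hp ?_ (tx.sub_const _) tz ?_ ?_ ?_ ?_ ?_
      · intro n
        have h2 := hg (φ n)
        exact LM.vm' hp h2.1 h2.2.1 h2.lm
      · simp
      · simp
      · simp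
        linarith
      · simp
        linarith
      · simp
        linarith

end EQG1
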