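import Pool.Agent.Lib.MP_226de1_co.E1.G.ExtImm
import Pool.Agent.Lib.MP_226de1_co.PackDef

/-! The properties of the chart used in the end game (compare `PackDef.lean`, `k = 2`).
`EQ2.US μ x`: open strip `Re x < 3ℓ/2`, `|Im x| < π/2`. -/

set_option autoImplicit false

namespace EQG1

open Complex Set Filter Topology
open EQ2 (dd dr xv ell pt NNS Dom US)

structure Pack (k μ : ℝ) (Q P : ℂ → ℂ) (u w : ℝ → ℝ) : Prop where
  hk : 1 ≤ k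
  hk2 : k ≤ 2
  hμ : 1 < μ
  dQ : ∀ x : ℂ, Dom μ x → DifferentiableAt ℂ Q x
  dP : ∀ x : ℂ, Dom μ x → DifferentiableAt ℂ P x
  conjQ : ∀ x : ℂ, Dom μ x → Q ((starRingEnd ℂ) x) = (starRingEnd ℂ) (Q x)
  conjP : ∀ x : ℂ, Dom μ x → P ((starRingEnd ℂ) x) = (starRingEnd ℂ) (P x)
  nz : ∀ x : ℂ, x.re < ell μ → |x.im| < Real.pi / 2 → 1 + Q x ^ 2 ∈ Complex.slitPlane
  stepS : ∀ x : ℂ, x.re < ell μ / 2 → |x.im| < Real.pi / 2 →
    P (x + (ell μ : ℂ)) ∈ Complex.slitPlane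
  stepD : ∀ x : ℂ, x.re < ell μ / 2 → |x.im| < Real.pi / 2 →
    Q x - Q (x + (ell μ : ℂ)) = Complex.exp (-Complex.log (P (x + (ell μ : ℂ))) / (k : ℂ))
  rel : ∀ x : ℂ, x.re < ell μ / 2 → |x.im| < Real.pi / 2 →
    P x + P (x + (ell μ : ℂ)) = GC k μ (Q x)
  imm : ∀ x : ℂ, US μ x → deriv Q x ≠ 0 ∨ deriv P x ≠ 0
  large : ∀ M : ℝ, ∃ A : ℝ, ∀ x : ℂ, x.re < A → M < ‖Q x‖
  bdd : ∀ a b : ℝ, b < 3 * ell μ / 2 → ∃ M : ℝ, ∀ x : ℂ, a ≤ x.re → x.re ≤ b →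
    |x.im| < Real.pi / 2 → ‖Q x‖ ≤ M
  topQ : ∀ s : ℝ, s < ell μ → Q ⟨s, Real.pi / 2⟩ = -Complex.I * (u s : ℂ)
  topP : ∀ s : ℝ, s < ell μ →
    P ⟨s, Real.pi / 2⟩ = Complex.exp ((k * Real.pi / 2 : ℝ) * Complex.I) * (w s : ℂ)
  upos : ∀ s : ℝ, s < ell μ → 0 < u s
  wpos : ∀ s : ℝ, s < ell μ → 0 < w s
  u_gt : ∀ s : ℝ, s < 0 → 1 < u s
  u_zero : u 0 = 1
  u_lt : ∀ s : ℝ, 0 < s → s < ell μ → u s < 1

theorem pack_of {k μ : ℝ} {F : ℕ → ℝ} {ly : ℂ → ℂ} (h : HF k μ F) (hy : HY k μ F ly) :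
    Pack k μ (qE k μ F ly) (pE k μ F ly) (tu k μ F ly) (tw k μ ly) where
  hk := h.hk
  hk2 := h.hk2
  hμ := h.hμ
  dQ := fun _ hx => qE_differentiableAt h hy hx
  dP := fun _ hx => pE_differentiableAt h hy hx
  conjQ := fun _ hx => qE_conj h hy hx
  conjP := fun _ hx => pE_conj h hy hx
  nz := fun _ hx hi => nzE h hy hx hi
  stepS := fun _ hx hi => pE_slit h hy hx hi
  stepD := fun _ hx hi => qE_step h hy hx hi
  rel := fun _ hx hi => qpE_rel h hy hx hi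
  imm := fun _ hx => immersion h hy hx.1 hx.2
  large := fun M => by
    obtain ⟨A, hA, hb⟩ := qx_large h hy M
    refine ⟨A, fun x hx => ?_⟩
    have hl := EQ2.ell_pos h.hμ
    rw [qE_eq h hy (by linarith)]
    exact hb x hx
  bdd := fun a b hb => qE_bdd h hy a b hb
  topQ := fun s hs => by
    rw [qE_eq h hy (x := ⟨s, Real.pi / 2⟩) hs]
    exact HY.qx_top h hy hs
  topP := fun s hs => by
    rw [pE_eq h hy (x := ⟨s, Real.pi / 2⟩) hs]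
    exact HY.px_top h hy hs
  upos := fun s hs => HY.tu_pos h hy hs
  wpos := fun s _ => tw_pos h.hμ ly s
  u_gt := fun s hs => HY.one_lt_tu h hy hs
  u_zero := HY.tu_zero h hy
  u_lt := fun s hs hs' => HY.tu_lt_one h hy hs hs'

end EQG1
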