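import Pool.Agent.Lib.MP_226de1_co.E1.G.Basic

/-! Elementary facts on `rk`, `ek`, `Lg`, `Sg`, `ps` (the analogue of `SqBasic.lean`). -/

set_option autoImplicit false

namespace EQG1

open Complex Set Filter Topology
open EQ2 (dd dr xv ell pt NNS)

variable {k μ : ℝ}

private theorem sqb_cT_rpow (hk : 1 ≤ k) (hμ : 1 < μ) : cT k μ ^ (k / 2) = cK k μ := by
  have h : 0 < cK k μ := by
    have h1 : 1 < μ ^ k := Real.one_lt_rpow hμ (by linarith)
    unfold cK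
    linarith
  unfold cT
  rw [← Real.rpow_mul h.le]
  have h3 : 2 / k * (k / 2) = 1 := by
    have : k ≠ 0 := by linarith
    field_simp
  rw [h3, Real.rpow_one]

private theorem sqb_cT_gt (hk : 1 ≤ k) (hμ : 1 < μ) : 1 < cT k μ := by
  have h : 1 < cK k μ := by
    have h1 : 1 < μ ^ k := Real.one_lt_rpow hμ (by linarith)
    unfold cK
    linarith
  exact Real.one_lt_rpow h (by positivity)

private theorem sqb_rpow_k (hk : 1 ≤ k) (hμ : 1 < μ) : (μ ^ k) ^ (2 / k) = μ ^ 2 := by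
  have hk0 : k ≠ 0 := by linarith
  rw [← Real.rpow_mul (by linarith)]
  have h3 : k * (2 / k) = ((2 : ℕ) : ℝ) := by
    push_cast
    field_simp
  rw [h3, Real.rpow_natCast]

private theorem sqb_base_pos (hk : 1 ≤ k) (hμ : 1 < μ) {T : ℝ} (h0 : 0 < T) (h1 : T < cT k μ) :
    0 < cK k μ - T ^ (k / 2) := by
  have h2 : T ^ (k / 2) < cT k μ ^ (k / 2) := Real.rpow_lt_rpow h0.le h1 (by positivity)
  rw [sqb_cT_rpow hk hμ] at h2
  linarith

private theorem sqb_rk_real {d : ℝ} (h1 : d < 1) :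
    rk k (d : ℂ) = (((1 - d) ^ (k / 2) : ℝ) : ℂ) := by
  unfold rk
  have e : (1 : ℂ) - (d : ℂ) = ((1 - d : ℝ) : ℂ) := by push_cast; rfl
  rw [e, ← Complex.ofReal_log (by linarith), Real.rpow_def_of_pos (by linarith)]
  push_cast
  congr 1
  ring

private theorem sqb_ek_real {d : ℝ} (h1 : d < 1) :
    ek k μ (d : ℂ) = ((cK k μ - (1 - d) ^ (k / 2) : ℝ) : ℂ) := by
  unfold ek
  rw [sqb_rk_real h1]
  push_cast
  rfl

private theorem sqb_mul_re (k : ℝ) (w : ℂ) :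
    ((k : ℂ) / 2 * Complex.log w).re = k / 2 * (Complex.log w).re := by
  have h2 : (k : ℂ) / 2 = ((k / 2 : ℝ) : ℂ) := by push_cast; rfl
  rw [h2, Complex.re_ofReal_mul]

private theorem sqb_mul_im (k : ℝ) (w : ℂ) :
    ((k : ℂ) / 2 * Complex.log w).im = k / 2 * Complex.arg w := by
  have h2 : (k : ℂ) / 2 = ((k / 2 : ℝ) : ℂ) := by push_cast; rfl
  rw [h2, Complex.im_ofReal_mul, Complex.log_im]

private theorem sqb_rk_im (k : ℝ) (d : ℂ) : (rk k d).im =
    Real.exp ((k : ℂ) / 2 * Complex.log (1 - d)).re * Real.sin (k / 2 * Complex.arg (1 - d)) := by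
  unfold rk
  rw [Complex.exp_im, sqb_mul_im]

private theorem sqb_rk_re (k : ℝ) (d : ℂ) : (rk k d).re =
    Real.exp ((k : ℂ) / 2 * Complex.log (1 - d)).re * Real.cos (k / 2 * Complex.arg (1 - d)) := by
  unfold rk
  rw [Complex.exp_re, sqb_mul_im]

private theorem sqb_arg (hk : 1 ≤ k) (hk2 : k ≤ 2) {d : ℂ} (hd : d.im < 0) :
    0 < k / 2 * Complex.arg (1 - d) ∧ k / 2 * Complex.arg (1 - d) < Real.pi := by
  have him : 0 < (1 - d).im := by
    rw [sub_im, one_im]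
    linarith
  have h0 : 0 < Complex.arg (1 - d) := by
    rcases (Complex.arg_nonneg_iff.mpr him.le).lt_or_eq with h | h
    · exact h
    · exact absurd (Complex.arg_eq_zero_iff.mp h.symm).2 him.ne'
  have h1 : Complex.arg (1 - d) < Real.pi := Complex.arg_lt_pi_iff.mpr (Or.inr him.ne')
  constructor
  · positivity
  · have h2 : k / 2 ≤ 1 := by linarith
    nlinarith

private theorem sqb_rk_conj {d : ℂ} (hd : 1 - d ∈ Complex.slitPlane) :
    rk k ((starRingEnd ℂ) d) = (starRingEnd ℂ) (rk k d) := by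
  unfold rk
  rw [← Complex.exp_conj]
  congr 1
  have h1 : 1 - (starRingEnd ℂ) d = (starRingEnd ℂ) (1 - d) := by simp
  rw [h1, Complex.log_conj _ (Complex.slitPlane_arg_ne_pi hd), map_mul, map_div₀,
    Complex.conj_ofReal, Complex.conj_ofNat]

private theorem sqb_Lg_real (hk : 1 ≤ k) (hμ : 1 < μ) {d : ℝ} (h0 : 1 - cT k μ < d) (h1 : d < 1) :
    Lg k μ (d : ℂ) = (Real.log (Sr k μ d) : ℂ) := by
  have hk0 : 0 < k := by linarith
  have hb := sqb_base_pos (T := 1 - d) hk hμ (by linarith) (by linarith)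
  have hd : 0 < 1 - d := by linarith
  have e1 : (1 : ℝ) + μ ^ k - (1 - d) ^ (k / 2) = cK k μ - (1 - d) ^ (k / 2) := rfl
  have hS : 0 < ST k μ (1 - d) := by
    unfold ST
    rw [e1]
    exact Real.rpow_pos_of_pos hb _
  have h2 : Real.log (Sr k μ d) =
      Real.log (cK k μ - (1 - d) ^ (k / 2)) / k - Real.log (1 - d) / 2 := by
    unfold Sr
    rw [Real.log_sqrt (div_pos hS hd).le, Real.log_div hS.ne' hd.ne']
    unfold ST
    rw [e1, Real.log_rpow hb]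
    field_simp
  have e2 : (1 : ℂ) - (d : ℂ) = ((1 - d : ℝ) : ℂ) := by push_cast; rfl
  unfold Lg
  rw [sqb_ek_real h1, e2, ← Complex.ofReal_log hb.le, ← Complex.ofReal_log hd.le, h2]
  push_cast
  rfl

theorem cK_gt (hk : 1 ≤ k) (hμ : 1 < μ) : 2 < cK k μ := by
  have h1 : 1 < μ ^ k := Real.one_lt_rpow hμ (by linarith)
  unfold cK
  linarith

/-- `(1 + μ^k)^(2/k) ≥ 1 + μ²` as `2/k ≥ 1` (superadditivity of `t ↦ t^(2/k)`) -/
theorem cT_ge (hk : 1 ≤ k) (hk2 : k ≤ 2) (hμ : 1 < μ) : 1 + μ ^ 2 ≤ cT k μ := by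
  have h0 : (0 : ℝ) ≤ μ ^ k := by positivity
  have h1 : (1 : ℝ) ≤ 2 / k := by
    rw [le_div_iff₀ (by linarith)]
    linarith
  have h2 := Real.add_rpow_le_rpow_add zero_le_one h0 h1
  rw [Real.one_rpow, ← Real.rpow_mul (by linarith)] at h2
  have h3 : k * (2 / k) = ((2 : ℕ) : ℝ) := by
    push_cast
    field_simp
  rw [h3, Real.rpow_natCast] at h2
  exact h2

/-- the admissible values `d`: off the real rays `d ≥ 1` and `d ≤ 1 - c^(2/k)` -/
def Adm (k μ : ℝ) (d : ℂ) : Prop := d.im ≠ 0 ∨ (1 - cT k μ < d.re ∧ d.re < 1)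

theorem Adm.of_norm (hk : 1 ≤ k) (hk2 : k ≤ 2) (hμ : 1 < μ) {d : ℂ} (hd : ‖d‖ < 1) :
    Adm k μ d := by
  right
  have h1 := abs_le.mp (Complex.abs_re_le_norm d)
  have h2 := cT_ge hk hk2 hμ
  have hm : 1 < μ ^ 2 := by nlinarith
  constructor
  · linarith [h1.1]
  · linarith [h1.2]

theorem Adm.conj {d : ℂ} (hd : Adm k μ d) : Adm k μ ((starRingEnd ℂ) d) := by
  rcases hd with h | h
  · left
    rw [Complex.conj_im]
    exact neg_ne_zero.mpr h
  · right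
    rw [Complex.conj_re]
    exact h

theorem Adm.slit1 {d : ℂ} (hd : Adm k μ d) : 1 - d ∈ Complex.slitPlane := by
  rw [Complex.mem_slitPlane_iff]
  rcases hd with h | h
  · right
    rw [sub_im, one_im, zero_sub]
    exact neg_ne_zero.mpr h
  · left
    rw [sub_re, one_re]
    linarith [h.2]

theorem Adm.ne1 {d : ℂ} (hd : Adm k μ d) : 1 - d ≠ 0 := by
  exact Complex.slitPlane_ne_zero hd.slit1

theorem rk_ne (k : ℝ) (d : ℂ) : rk k d ≠ 0 := Complex.exp_ne_zero _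

theorem rg_ne (d : ℂ) : rg d ≠ 0 := Complex.exp_ne_zero _

theorem Sg_ne (k μ : ℝ) (d : ℂ) : Sg k μ d ≠ 0 := Complex.exp_ne_zero _

/-- for `Im d < 0`: `arg (1-d) ∈ (0, π)`, so `arg rk = (k/2) arg (1-d) ∈ (0, π)` -/
theorem rk_im_pos (hk : 1 ≤ k) (hk2 : k ≤ 2) {d : ℂ} (hd : d.im < 0) : 0 < (rk k d).im := by
  obtain ⟨h0, h1⟩ := sqb_arg hk hk2 hd
  rw [sqb_rk_im]
  exact mul_pos (Real.exp_pos _) (Real.sin_pos_of_pos_of_lt_pi h0 h1)

theorem ek_im_neg (hk : 1 ≤ k) (hk2 : k ≤ 2) {d : ℂ} (hd : d.im < 0) : (ek k μ d).im < 0 := by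
  have h := rk_im_pos hk hk2 hd
  unfold ek
  rw [sub_im, ofReal_im, zero_sub]
  linarith

/-- `Im d ≠ 0`: `Im ek ≠ 0` (conjugation).  Real `d`: `ek = c - (1-d)^(k/2) > 0`. -/
theorem Adm.slit2 (hk : 1 ≤ k) (hk2 : k ≤ 2) (hμ : 1 < μ) {d : ℂ} (hd : Adm k μ d) :
    ek k μ d ∈ Complex.slitPlane := by
  rw [Complex.mem_slitPlane_iff]
  rcases lt_trichotomy d.im 0 with h | h | h
  · right
    exact (ek_im_neg hk hk2 h).ne
  · left
    rcases hd with h' | h'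
    · exact absurd h h'
    · have hd' : d = ((d.re : ℝ) : ℂ) := by
        apply Complex.ext
        · rw [ofReal_re]
        · rw [ofReal_im, h]
      rw [hd', sqb_ek_real h'.2, ofReal_re]
      exact sqb_base_pos hk hμ (by linarith [h'.2]) (by linarith [h'.1])
  · right
    have h1 : ((starRingEnd ℂ) d).im < 0 := by
      rw [Complex.conj_im]
      linarith
    have h2 := ek_im_neg (μ := μ) hk hk2 h1
    have h3 : ek k μ ((starRingEnd ℂ) d) = (starRingEnd ℂ) (ek k μ d) := by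
      unfold ek
      rw [sqb_rk_conj hd.slit1, map_sub, Complex.conj_ofReal]
    rw [h3, Complex.conj_im] at h2
    intro h4
    rw [h4, neg_zero] at h2
    exact lt_irrefl _ h2

theorem rk_conj {d : ℂ} (hd : Adm k μ d) : rk k ((starRingEnd ℂ) d) = (starRingEnd ℂ) (rk k d) := by
  exact sqb_rk_conj hd.slit1

theorem Lg_conj (hk : 1 ≤ k) (hk2 : k ≤ 2) (hμ : 1 < μ) {d : ℂ} (hd : Adm k μ d) :
    Lg k μ ((starRingEnd ℂ) d) = (starRingEnd ℂ) (Lg k μ d) := by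
  unfold Lg
  have h3 : ek k μ ((starRingEnd ℂ) d) = (starRingEnd ℂ) (ek k μ d) := by
    unfold ek
    rw [rk_conj hd, map_sub, Complex.conj_ofReal]
  have h1 : 1 - (starRingEnd ℂ) d = (starRingEnd ℂ) (1 - d) := by simp
  rw [h3, h1, Complex.log_conj _ (Complex.slitPlane_arg_ne_pi (hd.slit2 hk hk2 hμ)),
    Complex.log_conj _ (Complex.slitPlane_arg_ne_pi hd.slit1), map_sub, map_div₀, map_div₀,
    Complex.conj_ofReal, Complex.conj_ofNat]

theorem Sg_conj (hk : 1 ≤ k) (hk2 : k ≤ 2) (hμ : 1 < μ) {d : ℂ} (hd : Adm k μ d) :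
    Sg k μ ((starRingEnd ℂ) d) = (starRingEnd ℂ) (Sg k μ d) := by
  unfold Sg
  rw [Lg_conj hk hk2 hμ hd, Complex.exp_conj]

theorem ps_conj (hk : 1 ≤ k) (hk2 : k ≤ 2) (hμ : 1 < μ) {d : ℂ} (hd : Adm k μ d) :
    ps k μ ((starRingEnd ℂ) d) = (starRingEnd ℂ) (ps k μ d) := by
  unfold ps
  have h3 : ek k μ ((starRingEnd ℂ) d) = (starRingEnd ℂ) (ek k μ d) := by
    unfold ek
    rw [rk_conj hd, map_sub, Complex.conj_ofReal]
  rw [h3, Complex.log_conj _ (Complex.slitPlane_arg_ne_pi (hd.slit2 hk hk2 hμ)), map_sub,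
    ← Complex.exp_conj, map_mul, map_div₀, map_pow, Complex.conj_ofReal, Complex.conj_ofReal,
    Complex.conj_ofNat]

theorem rk_differentiableAt {d : ℂ} (hd : Adm k μ d) : DifferentiableAt ℂ (rk k) d := by
  have h1 : DifferentiableAt ℂ (fun x : ℂ => Complex.log (1 - x)) d :=
    DifferentiableAt.clog (by fun_prop) hd.slit1
  exact (h1.const_mul ((k : ℂ) / 2)).cexp

theorem Lg_differentiableAt (hk : 1 ≤ k) (hk2 : k ≤ 2) (hμ : 1 < μ) {d : ℂ} (hd : Adm k μ d) :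
    DifferentiableAt ℂ (Lg k μ) d := by
  have h1 : DifferentiableAt ℂ (fun x : ℂ => Complex.log (1 - x)) d :=
    DifferentiableAt.clog (by fun_prop) hd.slit1
  have h2 : DifferentiableAt ℂ (fun x : ℂ => Complex.log (ek k μ x)) d :=
    DifferentiableAt.clog ((differentiableAt_const _).sub (rk_differentiableAt hd))
      (hd.slit2 hk hk2 hμ)
  exact (h2.div_const (k : ℂ)).sub (h1.div_const 2)

theorem Sg_differentiableAt (hk : 1 ≤ k) (hk2 : k ≤ 2) (hμ : 1 < μ) {d : ℂ} (hd : Adm k μ d) :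
    DifferentiableAt ℂ (Sg k μ) d := by
  exact (Lg_differentiableAt hk hk2 hμ hd).cexp

theorem ps_differentiableAt (hk : 1 ≤ k) (hk2 : k ≤ 2) (hμ : 1 < μ) {d : ℂ} (hd : Adm k μ d) :
    DifferentiableAt ℂ (ps k μ) d := by
  have h2 : DifferentiableAt ℂ (fun x : ℂ => Complex.log (ek k μ x)) d :=
    DifferentiableAt.clog ((differentiableAt_const _).sub (rk_differentiableAt hd))
      (hd.slit2 hk hk2 hμ)
  exact ((h2.const_mul (2 / (k : ℂ))).cexp).sub (differentiableAt_const _)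

theorem rg_sq {d : ℂ} (hd : Adm k μ d) : rg d ^ 2 = 1 - d := by
  unfold rg
  rw [← Complex.exp_nat_mul]
  have h1 : ((2 : ℕ) : ℂ) * (Complex.log (1 - d) / 2) = Complex.log (1 - d) := by
    push_cast
    ring
  rw [h1, Complex.exp_log hd.ne1]

/-- `s² = (s/r)² r²` -/
theorem Sg_sq {d : ℂ} (hd : Adm k μ d) : Sg k μ d ^ 2 * (1 - d) = ps k μ d + (μ : ℂ) ^ 2 := by
  unfold Sg ps Lg
  rw [← Complex.exp_nat_mul, sub_add_cancel]
  have h1 : ((2 : ℕ) : ℂ) * (Complex.log (ek k μ d) / (k : ℂ) - Complex.log (1 - d) / 2) =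
      2 / (k : ℂ) * Complex.log (ek k μ d) - Complex.log (1 - d) := by
    push_cast
    ring
  rw [h1, Complex.exp_sub, Complex.exp_log hd.ne1, div_mul_cancel₀ _ hd.ne1]

/-- `(s/r)^k = ek / rk` -/
theorem exp_k_Lg (hk : 1 ≤ k) (hk2 : k ≤ 2) (hμ : 1 < μ) {d : ℂ} (hd : Adm k μ d) :
    Complex.exp ((k : ℂ) * Lg k μ d) = ek k μ d / rk k d := by
  have hk0 : (k : ℂ) ≠ 0 := by
    exact_mod_cast (by linarith : k ≠ 0)
  have h1 : (k : ℂ) * Lg k μ d = Complex.log (ek k μ d) - (k : ℂ) / 2 * Complex.log (1 - d) := by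
    unfold Lg
    field_simp
  rw [h1, Complex.exp_sub, Complex.exp_log (Complex.slitPlane_ne_zero (hd.slit2 hk hk2 hμ))]
  rfl

theorem one_add_exp_k_Lg (hk : 1 ≤ k) (hk2 : k ≤ 2) (hμ : 1 < μ) {d : ℂ} (hd : Adm k μ d) :
    1 + Complex.exp ((k : ℂ) * Lg k μ d) = (cK k μ : ℂ) / rk k d := by
  rw [exp_k_Lg hk hk2 hμ hd]
  have h := rk_ne k d
  unfold ek
  field_simp
  ring

/-- `k Im Lg = arg ek - arg rk = arg (c/rk - 1) ∈ (-π, 0)` for `Im d < 0`: with `rk = ρ e^{iφ}`,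
`0 < φ < π`, `arg (c - rk) ∈ (φ - π, 0)` since `Im ((c - rk) conj rk) = - c Im rk < 0`. -/
theorem Lg_im_lt (hk : 1 ≤ k) (hk2 : k ≤ 2) (hμ : 1 < μ) {d : ℂ} (hd : d.im < 0) :
    -Real.pi < k * (Lg k μ d).im ∧ (Lg k μ d).im < 0 := by
  have hk0 : 0 < k := by linarith
  obtain ⟨hφ0, hφ1⟩ := sqb_arg hk hk2 hd
  set φ : ℝ := k / 2 * Complex.arg (1 - d) with hφ
  set w : ℂ := ek k μ d with hw
  have hwim : w.im < 0 := ek_im_neg hk hk2 hd
  have hLim : k * (Lg k μ d).im = Complex.arg w - φ := by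
    unfold Lg
    rw [sub_im, Complex.div_ofReal_im, Complex.div_ofNat_im, Complex.log_im, Complex.log_im, ← hw]
    rw [hφ]
    field_simp
  have harg0 : Complex.arg w < 0 := Complex.arg_neg_iff.mpr hwim
  have harg1 := Complex.neg_pi_lt_arg w
  have hrim : (rk k d).im = Real.exp ((k : ℂ) / 2 * Complex.log (1 - d)).re * Real.sin φ :=
    sqb_rk_im k d
  have hrre : (rk k d).re = Real.exp ((k : ℂ) / 2 * Complex.log (1 - d)).re * Real.cos φ :=
    sqb_rk_re k d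
  set ρ : ℝ := Real.exp ((k : ℂ) / 2 * Complex.log (1 - d)).re with hρ
  have hρ0 : 0 < ρ := Real.exp_pos _
  have hwim2 : w.im = - (rk k d).im := by
    rw [hw]
    unfold ek
    rw [sub_im, ofReal_im, zero_sub]
  have hwre2 : w.re = cK k μ - (rk k d).re := by
    rw [hw]
    unfold ek
    rw [sub_re, ofReal_re]
  have hsin : ‖w‖ * ρ * Real.sin (Complex.arg w - φ) = - (cK k μ * (rk k d).im) := by
    rw [Real.sin_sub]
    have e1 : ‖w‖ * Real.sin (Complex.arg w) = w.im := Complex.norm_mul_sin_arg w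
    have e2 : ‖w‖ * Real.cos (Complex.arg w) = w.re := Complex.norm_mul_cos_arg w
    have e3 : ‖w‖ * ρ * (Real.sin (Complex.arg w) * Real.cos φ -
        Real.cos (Complex.arg w) * Real.sin φ) =
        (‖w‖ * Real.sin (Complex.arg w)) * (ρ * Real.cos φ) -
        (‖w‖ * Real.cos (Complex.arg w)) * (ρ * Real.sin φ) := by ring
    rw [e3, e1, e2, ← hrim, ← hrre, hwim2, hwre2]
    ring
  have hneg : Real.sin (Complex.arg w - φ) < 0 := by
    have h1 : 0 < cK k μ * (rk k d).im :=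
      mul_pos (by linarith [cK_gt hk hμ]) (rk_im_pos hk hk2 hd)
    by_contra hcon
    rw [not_lt] at hcon
    have h2 : 0 ≤ ‖w‖ * ρ * Real.sin (Complex.arg w - φ) :=
      mul_nonneg (mul_nonneg (norm_nonneg _) hρ0.le) hcon
    linarith
  constructor
  · rw [hLim]
    by_contra hcon
    rw [not_lt] at hcon
    have h1 : Real.sin (Complex.arg w - φ + Real.pi) ≤ 0 :=
      Real.sin_nonpos_of_nonpos_of_neg_pi_le (by linarith) (by linarith)
    rw [Real.sin_add_pi] at h1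
    linarith
  · have h1 : k * (Lg k μ d).im < 0 := by
      rw [hLim]
      linarith
    by_contra hcon
    rw [not_lt] at hcon
    have := mul_nonneg hk0.le hcon
    linarith

theorem Lg_im_le (hk : 1 ≤ k) (hk2 : k ≤ 2) (hμ : 1 < μ) {d : ℂ} (hd : Adm k μ d)
    (hi : d.im ≤ 0) : -Real.pi < k * (Lg k μ d).im ∧ (Lg k μ d).im ≤ 0 := by
  rcases hi.lt_or_eq with h | h
  · obtain ⟨h1, h2⟩ := Lg_im_lt hk hk2 hμ h
    exact ⟨h1, h2.le⟩
  · have hd' : d = ((d.re : ℝ) : ℂ) := by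
      apply Complex.ext
      · rw [ofReal_re]
      · rw [ofReal_im, h]
    rcases hd with h' | h'
    · exact absurd h h'
    · have h1 : (Lg k μ d).im = 0 := by
        rw [hd', sqb_Lg_real hk hμ h'.1 h'.2, ofReal_im]
      rw [h1, mul_zero]
      exact ⟨by linarith [Real.pi_pos], le_rfl⟩

/-- `|rk| ≤ 2^(k/2) < c`, so `Re ek > 0` and `|arg s| < π/2` -/
theorem ek_re_pos (hk : 1 ≤ k) (hk2 : k ≤ 2) (hμ : 1 < μ) {d : ℂ} (hd : ‖d‖ < 1) :
    0 < (ek k μ d).re := by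
  have hne : 1 - d ≠ 0 := (Adm.of_norm hk hk2 hμ hd).ne1
  have h0 : 0 < ‖1 - d‖ := norm_pos_iff.mpr hne
  have h1 : ‖1 - d‖ ≤ 2 := by
    have := norm_sub_le (1 : ℂ) d
    rw [norm_one] at this
    linarith
  have h2 : ‖rk k d‖ ≤ 2 := by
    unfold rk
    rw [Complex.norm_exp, sqb_mul_re, Complex.log_re]
    have h3 : Real.log ‖1 - d‖ ≤ Real.log 2 := Real.log_le_log h0 h1
    have h4 : 0 ≤ Real.log 2 := Real.log_nonneg (by norm_num)
    have h5 : k / 2 * Real.log ‖1 - d‖ ≤ Real.log 2 := by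
      rcases le_total 0 (Real.log ‖1 - d‖) with h6 | h6
      · nlinarith
      · nlinarith
    calc Real.exp (k / 2 * Real.log ‖1 - d‖) ≤ Real.exp (Real.log 2) := Real.exp_le_exp.mpr h5
      _ = 2 := Real.exp_log (by norm_num)
  have h3 : (ek k μ d).re = cK k μ - (rk k d).re := by
    unfold ek
    rw [sub_re, ofReal_re]
  rw [h3]
  have h4 := Complex.re_le_norm (rk k d)
  have h5 := cK_gt hk hμ
  linarith

/-- `arg (s²) = (2/k) arg ek ∈ (-π/k, 0]` -/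
theorem ps_im_nonpos (hk : 1 ≤ k) (hk2 : k ≤ 2) (hμ : 1 < μ) {d : ℂ} (hd : ‖d‖ < 1)
    (hi : d.im ≤ 0) : (ps k μ d).im ≤ 0 := by
  have hk0 : 0 < k := by linarith
  have hre := ek_re_pos hk hk2 hμ hd
  have him : (ek k μ d).im ≤ 0 := by
    rcases hi.lt_or_eq with h | h
    · exact (ek_im_neg hk hk2 h).le
    · have hd' : d = ((d.re : ℝ) : ℂ) := by
        apply Complex.ext
        · rw [ofReal_re]
        · rw [ofReal_im, h]
      have h1 : d.re < 1 := lt_of_le_of_lt (Complex.re_le_norm d) hd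
      rw [hd', sqb_ek_real h1, ofReal_im]
  have harg1 := (abs_lt.mp (Complex.abs_arg_lt_pi_div_two_iff.mpr (Or.inl hre))).1
  have harg0 : Complex.arg (ek k μ d) ≤ 0 := by
    rcases him.lt_or_eq with h | h
    · exact (Complex.arg_neg_iff.mpr h).le
    · exact (Complex.arg_eq_zero_iff.mpr ⟨hre.le, h⟩).le
  have h1 : (ps k μ d).im = Real.exp (2 / (k : ℂ) * Complex.log (ek k μ d)).re *
      Real.sin (2 / k * Complex.arg (ek k μ d)) := by
    unfold ps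
    rw [sub_im, ← ofReal_pow, ofReal_im, sub_zero, Complex.exp_im]
    congr 2
    have h2 : (2 : ℂ) / (k : ℂ) = ((2 / k : ℝ) : ℂ) := by push_cast; rfl
    rw [h2, Complex.im_ofReal_mul, Complex.log_im]
  rw [h1]
  apply mul_nonpos_of_nonneg_of_nonpos (Real.exp_pos _).le
  have h2 : 0 < 2 / k := by positivity
  have h3 : 2 / k ≤ 2 := by
    rw [div_le_iff₀ hk0]
    linarith
  apply Real.sin_nonpos_of_nonpos_of_neg_pi_le
  · nlinarith
  · nlinarith

/-! ### real values -/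

theorem ST_pos (hk : 1 ≤ k) {T : ℝ} (h0 : 0 < T) (h1 : T < cT k μ) : 0 < ST k μ T := by
  have hk0 : 0 < k := by linarith
  have hk2' : 0 < 2 / k := by positivity
  unfold ST
  unfold cT at h1
  have hTk : 0 < T ^ (k / 2) := Real.rpow_pos_of_pos h0 _
  have e : (1 : ℝ) + μ ^ k - T ^ (k / 2) = cK k μ - T ^ (k / 2) := rfl
  rw [e]
  rcases lt_trichotomy (cK k μ) 0 with h | h | h
  · rw [Real.rpow_def_of_neg h] at h1
    have h2 : 0 < Real.cos (2 / k * Real.pi) :=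
      (pos_iff_pos_of_mul_pos (h0.trans h1)).mp (Real.exp_pos _)
    rw [Real.rpow_def_of_neg (by linarith)]
    exact mul_pos (Real.exp_pos _) h2
  · rw [h, Real.zero_rpow hk2'.ne'] at h1
    linarith
  · apply Real.rpow_pos_of_pos
    have h2 : T ^ (k / 2) < (cK k μ ^ (2 / k)) ^ (k / 2) :=
      Real.rpow_lt_rpow h0.le h1 (by positivity)
    rw [← Real.rpow_mul h.le] at h2
    have h3 : 2 / k * (k / 2) = 1 := by field_simp
    rw [h3, Real.rpow_one] at h2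
    linarith

theorem ST_one (hk : 1 ≤ k) (hμ : 1 < μ) : ST k μ 1 = μ ^ 2 := by
  unfold ST
  rw [Real.one_rpow, add_sub_cancel_left]
  exact sqb_rpow_k hk hμ

theorem ST_strictAnti (hk : 1 ≤ k) (hμ : 1 < μ) : StrictAntiOn (ST k μ) (Set.Icc 0 (cT k μ)) := by
  have hk0 : 0 < k := by linarith
  intro x hx y hy hxy
  have h1 : x ^ (k / 2) < y ^ (k / 2) := Real.rpow_lt_rpow hx.1 hxy (by positivity)
  have h2 : y ^ (k / 2) ≤ cK k μ := by
    have h3 : y ^ (k / 2) ≤ cT k μ ^ (k / 2) := Real.rpow_le_rpow hy.1 hy.2 (by positivity)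
    rwa [sqb_cT_rpow hk hμ] at h3
  unfold cK at h2
  unfold ST
  exact Real.rpow_lt_rpow (by linarith) (by linarith) (by positivity)

/-- concavity of `t ↦ t^(k/2)`: `1 + m^(k/2) ≤ T^(k/2) + (1+m-T)^(k/2)` for `1 ≤ T ≤ m` -/
theorem ST_le (hk : 1 ≤ k) (hk2 : k ≤ 2) (hμ : 1 < μ) {T : ℝ} (h0 : 1 ≤ T) (h1 : T ≤ μ ^ 2) :
    ST k μ T ≤ 1 + μ ^ 2 - T := by
  have hk0 : 0 < k := by linarith
  have hm : 1 < μ ^ 2 := by nlinarith
  have hmk : (μ ^ 2) ^ (k / 2) = μ ^ k := by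
    rw [← Real.rpow_natCast, ← Real.rpow_mul (by linarith)]
    congr 1
    push_cast
    ring
  have hconc := Real.concaveOn_rpow (p := k / 2) (by positivity) (by linarith)
  set θ : ℝ := (T - 1) / (μ ^ 2 - 1) with hθ
  have hden : 0 < μ ^ 2 - 1 := by linarith
  have hθ0 : 0 ≤ θ := div_nonneg (by linarith) hden.le
  have hθ1 : θ ≤ 1 := by
    rw [hθ, div_le_one hden]
    linarith
  have hθm : θ * (μ ^ 2 - 1) = T - 1 := by
    rw [hθ]
    field_simp
  have hT : (1 - θ) * 1 + θ * μ ^ 2 = T := by linarith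
  have hT' : θ * 1 + (1 - θ) * μ ^ 2 = 1 + μ ^ 2 - T := by linarith
  have m1 : (1 : ℝ) ∈ Set.Ici (0 : ℝ) := by simp
  have m2 : μ ^ 2 ∈ Set.Ici (0 : ℝ) := by
    rw [Set.mem_Ici]
    linarith
  have c1 := hconc.2 m1 m2 (by linarith : 0 ≤ 1 - θ) hθ0 (by ring)
  have c2 := hconc.2 m1 m2 hθ0 (by linarith : 0 ≤ 1 - θ) (by ring)
  simp only [smul_eq_mul] at c1 c2
  rw [hT, Real.one_rpow, hmk] at c1
  rw [hT', Real.one_rpow, hmk] at c2
  have hTle : T ^ (k / 2) ≤ μ ^ k := by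
    rw [← hmk]
    exact Real.rpow_le_rpow (by linarith) h1 (by positivity)
  have hfin : 1 + μ ^ k - T ^ (k / 2) ≤ (1 + μ ^ 2 - T) ^ (k / 2) := by linarith
  unfold ST
  have h3 : (1 + μ ^ k - T ^ (k / 2)) ^ (2 / k) ≤ ((1 + μ ^ 2 - T) ^ (k / 2)) ^ (2 / k) :=
    Real.rpow_le_rpow (by linarith) hfin (by positivity)
  rw [← Real.rpow_mul (by linarith)] at h3
  have h4 : k / 2 * (2 / k) = 1 := by field_simp
  rwa [h4, Real.rpow_one] at h3

/-- `1 + μ^k - z - μ^k/z = (z-1)(μ^k-z)/z ≥ 0` with `z = T^(k/2)` -/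
theorem ST_ge (hk : 1 ≤ k) (hμ : 1 < μ) {T : ℝ} (h0 : 1 ≤ T) (h1 : T ≤ μ ^ 2) :
    μ ^ 2 / T ≤ ST k μ T := by
  have hk0 : 0 < k := by linarith
  have hm : 1 < μ ^ 2 := by nlinarith
  have hT0 : 0 < T := by linarith
  have hmk : (μ ^ 2) ^ (k / 2) = μ ^ k := by
    rw [← Real.rpow_natCast, ← Real.rpow_mul (by linarith)]
    congr 1
    push_cast
    ring
  set z : ℝ := T ^ (k / 2) with hz
  have hz1 : 1 ≤ z := Real.one_le_rpow h0 (by positivity)
  have hzm : z ≤ μ ^ k := by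
    rw [← hmk]
    exact Real.rpow_le_rpow hT0.le h1 (by positivity)
  have hfin : (μ ^ 2 / T) ^ (k / 2) ≤ 1 + μ ^ k - z := by
    rw [Real.div_rpow (by linarith) hT0.le, hmk, ← hz, div_le_iff₀ (by linarith)]
    nlinarith [mul_nonneg (by linarith : 0 ≤ z - 1) (by linarith : 0 ≤ μ ^ k - z)]
  unfold ST
  have h3 : ((μ ^ 2 / T) ^ (k / 2)) ^ (2 / k) ≤ (1 + μ ^ k - z) ^ (2 / k) :=
    Real.rpow_le_rpow (by positivity) hfin (by positivity)
  rw [← Real.rpow_mul (by positivity)] at h3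
  have h4 : k / 2 * (2 / k) = 1 := by field_simp
  rwa [h4, Real.rpow_one] at h3

theorem psr_zero (hk : 1 ≤ k) (hμ : 1 < μ) : psr k μ 0 = 0 := by
  unfold psr
  rw [sub_zero, ST_one hk hμ, sub_self]

theorem psr_strictMono (hk : 1 ≤ k) (hμ : 1 < μ) :
    StrictMonoOn (psr k μ) (Set.Icc (1 - cT k μ) 1) := by
  intro x hx y hy hxy
  unfold psr
  have := ST_strictAnti hk hμ (a := 1 - y) (b := 1 - x) ⟨by linarith [hy.2], by linarith [hy.1]⟩
    ⟨by linarith [hx.2], by linarith [hx.1]⟩ (by linarith)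
  linarith

theorem Sr_pos (hk : 1 ≤ k) {d : ℝ} (h0 : 1 - cT k μ < d) (h1 : d < 1) : 0 < Sr k μ d := by
  unfold Sr
  apply Real.sqrt_pos.mpr
  exact div_pos (ST_pos hk (by linarith) (by linarith)) (by linarith)

theorem ps_ofReal (hk : 1 ≤ k) (hμ : 1 < μ) {d : ℝ} (h0 : 1 - cT k μ < d) (h1 : d < 1) :
    ps k μ (d : ℂ) = (psr k μ d : ℂ) := by
  have hk0 : 0 < k := by linarith
  have hb := sqb_base_pos (T := 1 - d) hk hμ (by linarith) (by linarith)
  unfold ps psr ST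
  rw [sqb_ek_real h1, ← Complex.ofReal_log hb.le]
  have e1 : (1 : ℝ) + μ ^ k - (1 - d) ^ (k / 2) = cK k μ - (1 - d) ^ (k / 2) := rfl
  rw [e1, Real.rpow_def_of_pos hb]
  push_cast
  congr 2
  ring

theorem Lg_ofReal (hk : 1 ≤ k) (hμ : 1 < μ) {d : ℝ} (h0 : 1 - cT k μ < d) (h1 : d < 1) :
    Lg k μ (d : ℂ) = (Real.log (Sr k μ d) : ℂ) := by
  exact sqb_Lg_real hk hμ h0 h1

theorem Sg_ofReal (hk : 1 ≤ k) (hμ : 1 < μ) {d : ℝ} (h0 : 1 - cT k μ < d) (h1 : d < 1) :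
    Sg k μ (d : ℂ) = (Sr k μ d : ℂ) := by
  unfold Sg
  rw [Lg_ofReal hk hμ h0 h1, ← Complex.ofReal_exp, Real.exp_log (Sr_pos hk h0 h1)]

theorem ps_zero (hk : 1 ≤ k) (hμ : 1 < μ) : ps k μ 0 = 0 := by
  have h := ps_ofReal (μ := μ) (d := 0) hk hμ (by linarith [sqb_cT_gt hk hμ]) one_pos
  rw [psr_zero hk hμ] at h
  simpa using h

theorem Lg_zero (hk : 1 ≤ k) (hμ : 1 < μ) : Lg k μ 0 = (Real.log μ : ℂ) := by
  have h := Lg_ofReal (μ := μ) (d := 0) hk hμ (by linarith [sqb_cT_gt hk hμ]) one_pos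
  have h2 : Sr k μ 0 = μ := by
    unfold Sr
    rw [sub_zero, ST_one hk hμ, div_one]
    exact Real.sqrt_sq (by linarith)
  rw [h2] at h
  simpa using h

end EQG1
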