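import Pool.Agent.Lib.MP_226de1_co.E1.G.DDBasic
import Pool.Agent.Lib.MP_226de1_co.E1.G.Ser

/-! The vertical coordinate.  `R = 1 - D - X²` satisfies `R(μ²v) = S² R(v)`. -/

set_option autoImplicit false

namespace EQG1

open Complex Set Filter Topology
open EQ2 (dd dr xv ell pt NNS)

variable {k μ : ℝ} {F : ℕ → ℝ}

/-- functional equation of `X` : `X(μ²v) = S X(v) - (μ-1)` -/
theorem HF.Xv_feq (h : HF k μ F) {v : ℂ} (hv : ‖v‖ < 1) :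
    Xv k μ F ((μ : ℂ) ^ 2 * v) = Sg k μ (dd F v) * Xv k μ F v - ((μ : ℂ) - 1) := by
  have hμ := h.hμ
  have hμ0 : (μ : ℂ) ≠ 0 := by
    rw [Complex.ofReal_ne_zero]; linarith
  have hμ1 : (μ : ℂ) - 1 ≠ 0 := by
    rw [sub_ne_zero, Ne, Complex.ofReal_eq_one]; exact hμ.ne'
  have h1 : (μ : ℂ) ^ 2 * v / (μ : ℂ) ^ 2 = v := by
    field_simp
  have h2 := h.feq v hv
  have h3 : dd F ((μ : ℂ) ^ 2 * v) + ps k μ (dd F v) =
      Sg k μ (dd F v) * (2 * ((μ : ℂ) - 1) + dd F v + ps k μ (dd F (v / (μ : ℂ) ^ 2))) -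
        2 * (μ : ℂ) * ((μ : ℂ) - 1) := by
    rw [← h2]; ring
  unfold Xv
  rw [h1, h3]
  field_simp
  ring

/-- functional equation of `R` : `R(μ²v) = S² R(v)`; uses `4aX_+ = s² - r_+² - 4a²`, i.e.
`1 - D(μ²v) = s² - 2(μ-1)(X(μ²v)) - (μ-1)²`, `s² = ps (D v) + μ² = S² (1 - D v)` (`Sg_sq`) -/
theorem HF.Rv_feq (h : HF k μ F) {v : ℂ} (hv : ‖v‖ < 1) :
    Rv k μ F ((μ : ℂ) ^ 2 * v) = Sg k μ (dd F v) ^ 2 * Rv k μ F v := by
  have hμ := h.hμ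
  have hμ0 : (μ : ℂ) ≠ 0 := by
    rw [Complex.ofReal_ne_zero]; linarith
  have hμ1 : (μ : ℂ) - 1 ≠ 0 := by
    rw [sub_ne_zero, Ne, Complex.ofReal_eq_one]; exact hμ.ne'
  have h1 : (μ : ℂ) ^ 2 * v / (μ : ℂ) ^ 2 = v := by
    field_simp
  have hX := h.Xv_feq hv
  have hS' : Sg k μ (dd F v) ^ 2 * (1 - dd F v) = ps k μ (dd F v) + (μ : ℂ) ^ 2 :=
    Sg_sq (h.adm hv)
  have hD : dd F ((μ : ℂ) ^ 2 * v) =
      2 * ((μ : ℂ) - 1) * (Xv k μ F ((μ : ℂ) ^ 2 * v) - 1) - ps k μ (dd F v) := by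
    unfold Xv
    rw [h1]
    field_simp
    ring
  have hR : Rv k μ F ((μ : ℂ) ^ 2 * v) =
      1 - dd F ((μ : ℂ) ^ 2 * v) - Xv k μ F ((μ : ℂ) ^ 2 * v) ^ 2 := rfl
  have hR' : Rv k μ F v = 1 - dd F v - Xv k μ F v ^ 2 := rfl
  rw [hR, hD, hX, hR']
  linear_combination -hS'

theorem HF.Xv_zero (h : HF k μ F) : Xv k μ F 0 = 1 := by
  unfold Xv
  rw [zero_div, h.dd_zero, ps_zero h.hk h.hμ]
  simp

/-- `X - 1 = (D + ps(D_-))/(2(μ-1))` has nonnegative coefficients on `|v| < μ²` -/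
theorem HF.NNS_X (h : HF k μ F) : NNS (μ ^ 2) (fun v => Xv k μ F v - 1) := by
  have hμ := h.hμ
  have hμ2 : 1 ≤ μ ^ 2 := by nlinarith
  have hμ2' : (0 : ℝ) < μ ^ 2 := by nlinarith
  have hD : NNS (μ ^ 2) (dd F) := ⟨F, h.nonneg, fun z hz => h.hasSum hz⟩
  have hD2 : NNS (μ ^ 2) (fun z => dd F (z / ((μ ^ 2 : ℝ) : ℂ))) := hD.scale (μ ^ 2) hμ2
  have hps : NNS (μ ^ 2) (fun z => ps k μ (dd F (z / ((μ ^ 2 : ℝ) : ℂ)))) := by
    refine EQ2.NNS.comp (NNS_ps h.hk h.hk2 h.hμ) hD2 ?_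
    intro t ht hts
    refine lt_of_le_of_lt (Complex.re_le_norm _) (h.norm_dd_lt ?_)
    rw [norm_div, Complex.norm_real, Complex.norm_real, Real.norm_of_nonneg ht,
      Real.norm_of_nonneg hμ2'.le, div_lt_one hμ2']
    exact hts
  have hc : 0 ≤ 1 / (2 * (μ - 1)) := by
    have : 0 < μ - 1 := by linarith
    positivity
  have hW := (EQ2.NNS.const (μ ^ 2) _ hc).mul (hD.add hps)
  refine NNS_congr hW fun z _ => ?_
  unfold Xv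
  push_cast
  ring

end EQG1
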