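import Pool.Agent.Lib.MP_226de1_co.E1.G.ExtImm
import Pool.Agent.Lib.MP_226de1_co.E1.K.LineSys
import Pool.Agent.Lib.MP_226de1_co.E1.NNreal

/-! The lines of a body lie on the chart. -/

set_option autoImplicit false

namespace EQG1

open Complex Set Filter Topology
open EQ2 (dd dr xv ell pt NNS)

variable {k μ : ℝ} {F : ℕ → ℝ} {ly : ℂ → ℂ} {dn dp : Bool → ℝ → ℝ}

/-- `lam R = s/r`: `(c R^(-k/2) - 1)^(1/k) = ((c - R^(k/2))^(2/k)/R)^(1/2)` -/
theorem lam_eq_Sr (hk : 1 ≤ k) (hμ : 1 < μ) {d : ℝ} (h0 : 1 - cT k μ < d) (h1 : d < 1) :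
    EQK.lam k μ (1 - d) = Sr k μ d := by
  have hk0 : 0 < k := by linarith
  obtain ⟨T, hT⟩ : ∃ T : ℝ, T = 1 - d := ⟨_, rfl⟩
  have hT0 : 0 < T := by rw [hT]; linarith
  have hTc : T < cT k μ := by rw [hT]; linarith
  have hc : 0 < cK k μ := by
    have : 0 < μ ^ k := Real.rpow_pos_of_pos (by linarith) k
    unfold cK
    linarith
  have hb : 0 < cK k μ - T ^ (k / 2) := by
    have h2 : T ^ (k / 2) < (cK k μ ^ (2 / k)) ^ (k / 2) :=
      Real.rpow_lt_rpow hT0.le hTc (by positivity)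
    rw [← Real.rpow_mul hc.le] at h2
    have h3 : 2 / k * (k / 2) = 1 := by field_simp
    rw [h3, Real.rpow_one] at h2
    linarith
  have e1 : EQK.cc k μ * T ^ (-(k / 2)) - 1 = (cK k μ - T ^ (k / 2)) / T ^ (k / 2) := by
    have h2 : T ^ (k / 2) ≠ 0 := (Real.rpow_pos_of_pos hT0 _).ne'
    rw [Real.rpow_neg hT0.le]
    unfold EQK.cc cK
    field_simp
  unfold EQK.lam Sr ST
  rw [← hT, e1]
  have e2 : (1 : ℝ) + μ ^ k - T ^ (k / 2) = cK k μ - T ^ (k / 2) := rfl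
  rw [e2, Real.div_rpow hb.le (Real.rpow_pos_of_pos hT0 _).le, ← Real.rpow_mul hT0.le,
    Real.sqrt_div (Real.rpow_nonneg hb.le _), Real.sqrt_eq_rpow, Real.sqrt_eq_rpow,
    ← Real.rpow_mul hb.le]
  congr 2
  · field_simp
  · field_simp

/-- the curve of the chart as a function of `t = e^x` -/
noncomputable def Wc (k μ : ℝ) (F : ℕ → ℝ) (ly : ℂ → ℂ) (t : ℝ) : ℝ × ℝ :=
  (rX k μ F (Real.log t), rY ly (Real.log t))

private theorem uq_abs_rD (h : HF k μ F) {x : ℝ} (hx : x ≤ 0) : |rD F x| ≤ Real.exp (2 * x) := by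
  have h3 : |(-Real.exp (2 * x))| = Real.exp (2 * x) := by
    rw [abs_neg, abs_of_pos (Real.exp_pos _)]
  have h4 : Real.exp (2 * x) ≤ 1 := Real.exp_le_one_iff.mpr (by linarith)
  have h5 := h.abs_dr_le (t := -Real.exp (2 * x)) (by rw [h3]; exact h4)
  rw [h3] at h5
  exact h5

private theorem uq_bd (h : HF k μ F) {x : ℝ} (hx : x < 0) :
    1 - cT k μ < rD F x ∧ rD F x < 1 := by
  have h1 := uq_abs_rD h hx.le
  have h0 : Real.exp (2 * x) < 1 := Real.exp_lt_one_iff.mpr (by linarith)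
  have h2 := cT_ge h.hk h.hk2 h.hμ
  have h3 : 1 < μ ^ 2 := by
    have := h.hμ
    nlinarith
  have h4 := abs_le.1 h1
  exact ⟨by linarith [h4.1], by linarith [h4.2]⟩

private theorem uq_step (h : HF k μ F) (hy : HY k μ F ly) {x : ℝ} (hx : x < 0) :
    (rX k μ F (x + ell μ), rY ly (x + ell μ)) = EQK.TT k μ (rX k μ F x, rY ly x) := by
  have hl := EQ2.ell_pos h.hμ
  have h1 := HY.rXY_sq h hy (t := x) (by linarith)
  obtain ⟨h2, h3⟩ := uq_bd h hx
  have h4 : EQK.RR (rX k μ F x, rY ly x) = 1 - rD F x := by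
    unfold EQK.RR
    exact h1
  unfold EQK.TT
  rw [h4, lam_eq_Sr h.hk h.hμ h2 h3, h.rX_shift hx, HY.rY_shift h hy hx]

/-- `rX_shift`, `rY_shift`, `RR (Wc t) = 1 - rD` (`HY.rXY_sq`), `lam_eq_Sr` -/
theorem Wc_step (h : HF k μ F) (hy : HY k μ F ly) {t : ℝ} (h0 : 0 < t) (h1 : t < 1) :
    Wc k μ F ly (μ * t) = EQK.TT k μ (Wc k μ F ly t) := by
  have hμ0 : 0 < μ := by linarith [h.hμ]
  have h2 : Real.log (μ * t) = Real.log t + ell μ := by
    rw [Real.log_mul hμ0.ne' h0.ne']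
    unfold ell
    ring
  unfold Wc
  rw [h2]
  exact uq_step h hy (Real.log_neg h0 h1)

/-- as `t → 0+`: `X → 1`, `Y = t exp (ly (-t²)) → 0` -/
theorem Wc_tendsto (h : HF k μ F) (hy : HY k μ F ly) :
    Tendsto (Wc k μ F ly) (𝓝[>] 0) (𝓝 (1, 0)) := by
  have hμ0 : 0 < μ := by linarith [h.hμ]
  have hl := EQ2.ell_pos h.hμ
  have hid : Tendsto (fun t : ℝ => t) (𝓝[>] 0) (𝓝 0) := tendsto_id.mono_left nhdsWithin_le_nhds
  have hsm : ∀ᶠ t : ℝ in 𝓝[>] 0, t < 1 := hid.eventually_lt_const one_pos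
  have hpos : ∀ᶠ t : ℝ in 𝓝[>] 0, 0 < t := eventually_mem_nhdsWithin
  -- second coordinate
  have hY : Tendsto (fun t : ℝ => rY ly (Real.log t)) (𝓝[>] 0) (𝓝 0) := by
    have hc : ContinuousAt ly 0 :=
      (hy.an.differentiableAt (Metric.isOpen_ball.mem_nhds (by
        rw [mem_ball_zero_iff, norm_zero]; positivity))).continuousAt
    have h1 : Tendsto (fun t : ℝ => (((-(t ^ 2) : ℝ)) : ℂ)) (𝓝[>] 0) (𝓝 0) := by
      have h2 : Continuous fun t : ℝ => (((-(t ^ 2) : ℝ)) : ℂ) := by fun_prop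
      have h3 := (h2.tendsto 0).comp hid
      have h4 : (((-((0 : ℝ) ^ 2) : ℝ)) : ℂ) = 0 := by norm_num
      rw [h4] at h3
      exact h3
    have h2 : Tendsto (fun t : ℝ => (ly (((-(t ^ 2) : ℝ)) : ℂ)).re) (𝓝[>] 0) (𝓝 (ly 0).re) :=
      (Complex.continuous_re.tendsto _).comp (hc.tendsto.comp h1)
    have h3 := hid.mul ((Real.continuous_exp.tendsto _).comp h2)
    rw [zero_mul] at h3
    refine h3.congr' ?_
    filter_upwards [hpos] with t ht
    show t * Real.exp ((ly (((-(t ^ 2) : ℝ)) : ℂ)).re) = rY ly (Real.log t)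
    have h4 : Real.exp (2 * Real.log t) = t ^ 2 := by
      rw [two_mul, Real.exp_add, Real.exp_log ht]
      ring
    unfold rY rL
    rw [h4, Real.exp_add, Real.exp_log ht]
  -- rD
  have hD : Tendsto (fun t : ℝ => rD F (Real.log t)) (𝓝[>] 0) (𝓝 0) := by
    have h2 : Tendsto (fun t : ℝ => t ^ 2) (𝓝[>] 0) (𝓝 0) := by
      have := hid.pow 2
      rwa [zero_pow two_ne_zero] at this
    refine squeeze_zero_norm' ?_ h2
    filter_upwards [hpos, hsm] with t ht ht1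
    have h4 : Real.exp (2 * Real.log t) = t ^ 2 := by
      rw [two_mul, Real.exp_add, Real.exp_log ht]
      ring
    have h5 := uq_abs_rD h (Real.log_neg ht ht1).le
    rw [h4] at h5
    exact h5
  have hX : Tendsto (fun t : ℝ => rX k μ F (Real.log t)) (𝓝[>] 0) (𝓝 1) := by
    have h1 := (Real.continuous_sqrt.tendsto _).comp
      (((tendsto_const_nhds (x := (1 : ℝ))).sub hD).sub (hY.pow 2))
    have e : Real.sqrt (1 - 0 - 0 ^ 2) = 1 := by norm_num
    rw [e] at h1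
    refine h1.congr' ?_
    filter_upwards [hpos, hsm] with t ht ht1
    have hlt := Real.log_neg ht ht1
    have h2 := HY.rXY_sq h hy (t := Real.log t) (by linarith)
    have h3 := rX_pos h hy hlt.le
    show Real.sqrt (1 - rD F (Real.log t) - rY ly (Real.log t) ^ 2) = rX k μ F (Real.log t)
    have h4 : 1 - rD F (Real.log t) - rY ly (Real.log t) ^ 2 = rX k μ F (Real.log t) ^ 2 := by
      linarith
    rw [h4]
    exact Real.sqrt_sq h3.le
  exact hX.prodMk_nhds hY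

private theorem uq_rX_cont (h : HF k μ F) {x : ℝ} (hx : x < ell μ) :
    ContinuousAt (rX k μ F) x := by
  have h1 : ContinuousAt (fun x : ℝ => (Xx k μ F (x : ℂ)).re) x := by
    have h2 : ContinuousAt (Xx k μ F) ((x : ℝ) : ℂ) :=
      (h.Xx_differentiableAt (by rw [Complex.ofReal_re]; exact hx)).continuousAt
    have h3 : ContinuousAt (fun x : ℝ => Xx k μ F (x : ℂ)) x :=
      ContinuousAt.comp (g := Xx k μ F) (f := fun x : ℝ => (x : ℂ)) h2
        Complex.continuous_ofReal.continuousAt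
    exact Complex.continuous_re.continuousAt.comp h3
  refine h1.congr ?_
  filter_upwards [gt_mem_nhds hx] with s hs
  rw [h.Xx_ofReal hs, Complex.ofReal_re]

private theorem uq_rY_cont (h : HF k μ F) (hy : HY k μ F ly) {x : ℝ} (hx : x < ell μ) :
    ContinuousAt (rY ly) x := by
  have h1 : ContinuousAt (fun x : ℝ => (Yx ly (x : ℂ)).re) x := by
    have h2 : ContinuousAt (Yx ly) ((x : ℝ) : ℂ) :=
      (HY.Yx_differentiableAt h hy (by rw [Complex.ofReal_re]; exact hx)).continuousAt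
    have h3 : ContinuousAt (fun x : ℝ => Yx ly (x : ℂ)) x :=
      ContinuousAt.comp (g := Yx ly) (f := fun x : ℝ => (x : ℂ)) h2
        Complex.continuous_ofReal.continuousAt
    exact Complex.continuous_re.continuousAt.comp h3
  refine h1.congr ?_
  filter_upwards [gt_mem_nhds hx] with s hs
  rw [HY.Yx_ofReal h hy hs, Complex.ofReal_re]

theorem Wc_continuousOn (h : HF k μ F) (hy : HY k μ F ly) :
    ContinuousOn (Wc k μ F ly) (Ioc 0 1) := by
  have hl := EQ2.ell_pos h.hμ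
  intro t ht
  have h1 : Real.log t < ell μ := lt_of_le_of_lt (Real.log_nonpos ht.1.le ht.2) hl
  have h2 : ContinuousAt Real.log t := Real.continuousAt_log ht.1.ne'
  have h3 : ContinuousAt (fun t => rX k μ F (Real.log t)) t :=
    ContinuousAt.comp (g := rX k μ F) (f := Real.log) (uq_rX_cont h h1) h2
  have h4 : ContinuousAt (fun t => rY ly (Real.log t)) t :=
    ContinuousAt.comp (g := rY ly) (f := Real.log) (uq_rY_cont h hy h1) h2
  exact (h3.prodMk h4).continuousWithinAt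

/-- near the end: `EQK.NS.shadow` with `EQK.NS_TT` applied to `Wc` on `(0, r₀]`, `r₀ < 1` small; the same
argument as `EQK1.LineSys.near` (proved in `K/LineNear.lean`, for a curve `V` instead of `Wc`) -/
theorem line_near (h : HF k μ F) (hy : HY k μ F ly) (hL : EQK1.LineSys k μ dn dp) :
    ∃ Q : ℝ, 0 < Q ∧ ∀ s q, Q ≤ q →
      ∃ t, 0 < t ∧ t ≤ 1 ∧ Wc k μ F ly t = EQK1.Vx μ dp s q := by
  obtain ⟨ε, L, θ, hNS⟩ := EQN.NN_TT hL.hk hL.hμ
  have hμ := hL.hμ
  -- the curve near the saddle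
  have hlim := Wc_tendsto h hy
  have hbox : ∀ ε > 0, {W : ℝ × ℝ | EQK.Bx ε W} ∈ 𝓝 ((1 : ℝ), (0 : ℝ)) := by
    intro ε' hε'
    have : Metric.closedBall (1 : ℝ) ε' ×ˢ Metric.closedBall (0 : ℝ) ε' ∈ 𝓝 ((1 : ℝ), (0 : ℝ)) :=
      prod_mem_nhds (Metric.closedBall_mem_nhds _ hε') (Metric.closedBall_mem_nhds _ hε')
    filter_upwards [this] with W hW
    obtain ⟨h1, h2⟩ := hW
    rw [Metric.mem_closedBall, Real.dist_eq] at h1 h2
    rw [sub_zero] at h2
    exact ⟨h1, h2⟩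
  have hev : ∀ᶠ t in 𝓝[>] (0 : ℝ), EQK.Bx ε (Wc k μ F ly t) :=
    hlim.eventually (hbox ε hNS.hε)
  obtain ⟨r₁, hr₁, hr₁b⟩ := mem_nhdsGT_iff_exists_Ioo_subset.1 hev
  rw [mem_Ioi] at hr₁
  obtain ⟨r₀, hr₀, hr₀m⟩ : ∃ r₀, 0 < r₀ ∧ r₀ < min 1 r₁ := ⟨min 1 r₁ / 2, by positivity, by
    have : 0 < min 1 r₁ := lt_min one_pos hr₁
    linarith⟩
  have hr₀r : r₀ < 1 := hr₀m.trans_le (min_le_left _ _)
  have hr₀1 : r₀ < r₁ := hr₀m.trans_le (min_le_right _ _)
  obtain ⟨ε', hε', H⟩ := hNS.shadow (μ := μ) (r := r₀) (W := Wc k μ F ly) hμ hr₀ (by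
      exact (Wc_continuousOn h hy).mono (fun t ht => ⟨ht.1, ht.2.trans hr₀r.le⟩)) hlim (by
      intro t ht ht'
      exact ⟨hr₁b ⟨ht, ht'.trans_lt hr₀1⟩, rY_pos ly _⟩) (fun t ht ht' => by
      refine Wc_step h hy ht ?_
      have h1 : t ≤ μ * t := le_mul_of_one_le_left ht.le hμ.le
      linarith)
  -- neighbourhoods of the saddle
  have hU : ∀ U ∈ 𝓝 ((1 : ℝ), (0 : ℝ)), ∃ Q : ℝ, ∀ s q, Q ≤ q → EQK1.Vx μ dp s q ∈ U := by
    intro U hU
    obtain ⟨Q1, hQ1⟩ := (Filter.eventually_atTop).1 ((hL.Vx_tendsto true).eventually hU)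
    obtain ⟨Q2, hQ2⟩ := (Filter.eventually_atTop).1 ((hL.Vx_tendsto false).eventually hU)
    refine ⟨max Q1 Q2, fun s q hq => ?_⟩
    cases s with
    | true => exact hQ1 q ((le_max_left _ _).trans hq)
    | false => exact hQ2 q ((le_max_right _ _).trans hq)
  obtain ⟨Q, hQ⟩ := hU {W | EQK.Bx ε' W} (hbox ε' hε')
  obtain ⟨δ, hδ, hδb⟩ := hL.δpos
  refine ⟨max Q 1, lt_max_of_lt_right one_pos, fun s q hq => ?_⟩
  have hqQ : Q ≤ q := (le_max_left _ _).trans hq
  -- the backward orbit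
  let f : Bool × ℝ → Bool × ℝ := fun x => (!x.1, x.2 + dp x.1 x.2)
  let a : ℕ → Bool × ℝ := fun j => f^[j] (s, q)
  have ha : ∀ j, a (j + 1) = (!(a j).1, (a j).2 + dp (a j).1 (a j).2) := fun j =>
    Function.iterate_succ_apply' f j (s, q)
  have hge : ∀ j : ℕ, q + j * δ ≤ (a j).2 := by
    intro j
    induction j with
    | zero =>
      show q + ((0 : ℕ) : ℝ) * δ ≤ q
      simp
    | succ j ih =>
      rw [ha j]
      have h1 := (hδb (a j).1 (a j).2).2
      push_cast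
      linarith
  have hgeQ : ∀ j : ℕ, Q ≤ (a j).2 := by
    intro j
    have h1 := hge j
    have h2 : 0 ≤ (j : ℝ) * δ := by positivity
    linarith
  obtain ⟨t, h1, h2, h3⟩ := H (fun j => EQK1.Vx μ dp (a j).1 (a j).2) (by
      intro j
      simp only [ha j]
      exact hL.TT_Vx' _ _) (by
      intro j
      refine ⟨hQ _ _ (hgeQ j), ?_⟩
      show 0 < (μ - 1) / dp (a j).1 (a j).2
      exact div_pos (by linarith) (hL.dp_pos _ _)) (by
      intro U hUm
      obtain ⟨Q', hQ'⟩ := hU U hUm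
      obtain ⟨n, hn⟩ := exists_nat_ge ((Q' - q) / δ)
      rw [div_le_iff₀ hδ] at hn
      rw [mem_map, mem_atTop_sets]
      refine ⟨n, fun j hj => hQ' _ _ ?_⟩
      have h1 := hge j
      have h2 : (n : ℝ) * δ ≤ j * δ := mul_le_mul_of_nonneg_right (by exact_mod_cast hj) hδ.le
      linarith)
  exact ⟨t, h1, h2.trans hr₀r.le, h3⟩

/-- the ratio of the coordinates of `Vx s q` is `q` -/
private theorem uq_ratio (hL : EQK1.LineSys k μ dn dp) (s : Bool) {q x : ℝ}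
    (hc : EQK1.Vx μ dp s q = (rX k μ F x, rY ly x)) : q = rq k μ F ly x := by
  have h1 := congrArg Prod.fst hc
  have h2 := congrArg Prod.snd hc
  have hp := hL.dp_pos s q
  have hμ1 : 0 < μ - 1 := by linarith [hL.hμ]
  unfold EQK1.Vx at h1 h2
  simp only at h1 h2
  unfold rq
  rw [← h1, ← h2]
  field_simp

/-- near `-∞`: choose `X₀ ≤ 0` with `rq ≥ Q` on `x ≤ X₀` (`rq → ∞`).  For `q = rq x` take `t` from
`line_near`: `rq (log t) = q` (ratio of the coordinates of `Vx`), so `log t = x` (`rq_strictAnti`). -/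
theorem on_local (h : HF k μ F) (hy : HY k μ F ly) (hL : EQK1.LineSys k μ dn dp) :
    ∃ X₀ : ℝ, X₀ < 0 ∧ ∀ s : Bool, ∀ x ≤ X₀,
      EQK1.Vx μ dp s (rq k μ F ly x) = (rX k μ F x, rY ly x) := by
  obtain ⟨Q, hQ0, hQ⟩ := line_near h hy hL
  have hlim := Wc_tendsto h hy
  have h1 : Tendsto (fun t : ℝ => rX k μ F (Real.log t)) (𝓝[>] 0) (𝓝 1) :=
    (continuous_fst.tendsto _).comp hlim
  have h2 : Tendsto (fun t : ℝ => rY ly (Real.log t)) (𝓝[>] 0) (𝓝 0) :=
    (continuous_snd.tendsto _).comp hlim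
  have e1 : ∀ᶠ t : ℝ in 𝓝[>] 0, 1 / 2 < rX k μ F (Real.log t) :=
    h1.eventually_const_lt (by norm_num)
  have e2 : ∀ᶠ t : ℝ in 𝓝[>] 0, rY ly (Real.log t) < 1 / (2 * Q) :=
    h2.eventually_lt_const (by positivity)
  obtain ⟨r, hr, hrb⟩ := mem_nhdsGT_iff_exists_Ioo_subset.1 (e1.and e2)
  rw [mem_Ioi] at hr
  have hrq : ∀ x, x < Real.log r → Q ≤ rq k μ F ly x := by
    intro x hx
    have h3 : Real.exp x < r := by
      rw [← Real.lt_log_iff_exp_lt hr]
      exact hx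
    obtain ⟨h4, h5⟩ := hrb ⟨Real.exp_pos x, h3⟩
    rw [Real.log_exp] at h4 h5
    have h6 := rY_pos ly x
    unfold rq
    rw [le_div_iff₀ h6]
    have h7 : Q * rY ly x ≤ Q * (1 / (2 * Q)) := mul_le_mul_of_nonneg_left h5.le hQ0.le
    have h8 : Q * (1 / (2 * Q)) = 1 / 2 := by field_simp
    linarith
  refine ⟨min (Real.log r - 1) (-1), lt_of_le_of_lt (min_le_right _ _) (by norm_num), ?_⟩
  intro s x hx
  have hx1 : x ≤ Real.log r - 1 := hx.trans (min_le_left _ _)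
  have hx2 : x ≤ -1 := hx.trans (min_le_right _ _)
  obtain ⟨t, ht0, ht1, htV⟩ := hQ s (rq k μ F ly x) (hrq x (by linarith))
  have h3 : rq k μ F ly x = rq k μ F ly (Real.log t) := uq_ratio hL s htV.symm
  have h4 : x = Real.log t :=
    (rq_strictAnti h hy).injOn (by rw [mem_Iic]; linarith)
      (by rw [mem_Iic]; exact Real.log_nonpos ht0.le ht1) h3
  rw [← htV]
  unfold Wc
  rw [← h4]

/-- one step forward (`EQK1.LineSys.TT_Vx`, `Wc_step`; the ratio of the coordinates of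
`Vx (!s) (q - dn s q)` is `q - dn s q`, so it is `rq (x+ℓ)`) -/
theorem on_propagate (h : HF k μ F) (hy : HY k μ F ly) (hL : EQK1.LineSys k μ dn dp) {x : ℝ}
    (hx : x < 0)
    (hc : ∀ s : Bool, EQK1.Vx μ dp s (rq k μ F ly x) = (rX k μ F x, rY ly x)) :
    ∀ s : Bool, EQK1.Vx μ dp s (rq k μ F ly (x + ell μ)) =
      (rX k μ F (x + ell μ), rY ly (x + ell μ)) := by
  intro s
  have h1 := hL.TT_Vx (!s) (rq k μ F ly x)
  rw [hc (!s), Bool.not_not, ← uq_step h hy hx] at h1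
  have h2 := uq_ratio hL s h1.symm
  rw [← h2]
  exact h1.symm

theorem on_all (h : HF k μ F) (hy : HY k μ F ly) (hL : EQK1.LineSys k μ dn dp) {x : ℝ}
    (hx : x < ell μ) (s : Bool) :
    EQK1.Vx μ dp s (rq k μ F ly x) = (rX k μ F x, rY ly x) := by
  have hl := EQ2.ell_pos h.hμ
  obtain ⟨X₀, hX₀, hloc⟩ := on_local h hy hL
  have key : ∀ n : ℕ, ∀ x : ℝ, x < ell μ → x - n * ell μ ≤ X₀ → ∀ s : Bool,
      EQK1.Vx μ dp s (rq k μ F ly x) = (rX k μ F x, rY ly x) := by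
    intro n
    induction n with
    | zero =>
      intro x _ hx0 s
      refine hloc s x ?_
      simpa using hx0
    | succ n ih =>
      intro x hx hx0 s
      have h1 := on_propagate h hy hL (x := x - ell μ) (by linarith)
        (ih (x - ell μ) (by linarith) (by push_cast at hx0; linarith)) s
      rw [sub_add_cancel] at h1
      exact h1
  obtain ⟨n, hn⟩ := exists_nat_ge ((x - X₀) / ell μ)
  rw [div_le_iff₀ hl] at hn
  exact key n x hx (by linarith) s

/-- second coordinates of `on_all` -/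
theorem dp_all (h : HF k μ F) (hy : HY k μ F ly) (hL : EQK1.LineSys k μ dn dp) {x : ℝ}
    (hx : x < ell μ) (s : Bool) : (μ - 1) / dp s (rq k μ F ly x) = rY ly x := by
  have h1 := congrArg Prod.snd (on_all h hy hL hx s)
  exact h1

/-- mirrored: apply `dp_all` to `LineSys.mirror` -/
theorem dn_all (h : HF k μ F) (hy : HY k μ F ly) (hL : EQK1.LineSys k μ dn dp) {x : ℝ}
    (hx : x < ell μ) (s : Bool) : (μ - 1) / dn s (-rq k μ F ly x) = rY ly x :=
  dp_all h hy hL.mirror hx s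

/-- the body identity: `q = rq x = -rq z`, `(μ-1)/dp = rY x`, `(μ-1)/dn = rY z`, and `rel`:
`(1+q²)^(k/2) (rY x^k + rY z^k) = c`. -/
theorem body_identity (h : HF k μ F) (hy : HY k μ F ly) (hL : EQK1.LineSys k μ dn dp) {x z : ℝ}
    (hx : x < ell μ) (hz : z < ell μ) (hq : rq k μ F ly x + rq k μ F ly z = 0) :
    rp k μ ly x + rp k μ ly z = Cc k μ * (1 + rq k μ F ly x ^ 2) ^ (-(k / 2)) := by
  have h1 := dp_all h hy hL hx true
  have h2 := dn_all h hy hL hz true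
  have e : -rq k μ F ly z = rq k μ F ly x := by linarith
  rw [e] at h2
  have h3 := hL.rel true (rq k μ F ly x)
  have hμ1 : 0 < μ - 1 := by linarith [h.hμ]
  have hYx := rY_pos ly x
  have hYz := rY_pos ly z
  set q := rq k μ F ly x with hqdef
  have hpos : 0 < 1 + q ^ 2 := by positivity
  have hs : Real.sqrt (1 + q ^ 2) ^ k = (1 + q ^ 2) ^ (k / 2) := by
    rw [Real.sqrt_eq_rpow, ← Real.rpow_mul hpos.le]
    congr 1
    ring
  have e1 : (μ - 1) * Real.sqrt (1 + q ^ 2) / dn true q = Real.sqrt (1 + q ^ 2) * rY ly z := by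
    rw [← h2]; ring
  have e2 : (μ - 1) * Real.sqrt (1 + q ^ 2) / dp true q = Real.sqrt (1 + q ^ 2) * rY ly x := by
    rw [← h1]; ring
  rw [e1, e2, Real.mul_rpow (Real.sqrt_nonneg _) hYz.le, Real.mul_rpow (Real.sqrt_nonneg _) hYx.le,
    hs] at h3
  have h4 : 0 < (1 + q ^ 2) ^ (k / 2) := Real.rpow_pos_of_pos hpos _
  have h5 : 0 < (μ - 1) ^ k := Real.rpow_pos_of_pos hμ1 _
  unfold rp Cc cK
  rw [Real.div_rpow hYx.le hμ1.le, Real.div_rpow hYz.le hμ1.le, Real.rpow_neg hpos.le, ← h3]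
  field_simp
  ring

/-- complex form of the right side for real `q` -/
theorem GC_ofReal (k μ q : ℝ) :
    GC k μ (q : ℂ) = ((Cc k μ * (1 + q ^ 2) ^ (-(k / 2)) : ℝ) : ℂ) := by
  have hpos : 0 < 1 + q ^ 2 := by positivity
  unfold GC
  rw [Real.rpow_def_of_pos hpos, Complex.ofReal_mul, Complex.ofReal_exp, Complex.ofReal_mul,
    Complex.ofReal_log hpos.le]
  push_cast
  congr 2
  ring

end EQG1
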