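import Pool.Agent.Lib.MP_226de1_co.E1.G.XRel

/-! Real values of the chart (compare `XReal.lean`, `k = 2`). -/

set_option autoImplicit false

namespace EQG1

open Complex Set Filter Topology
open EQ2 (dd dr xv ell pt NNS)

noncomputable section

/-- real values on the real line -/
def rD (F : ℕ → ℝ) (t : ℝ) : ℝ := dr F (-Real.exp (2 * t))
def rX (k μ : ℝ) (F : ℕ → ℝ) (t : ℝ) : ℝ :=
  1 + (rD F t + psr k μ (rD F (t - ell μ))) / (2 * (μ - 1))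
/-- `log Y` -/
def rL (ly : ℂ → ℂ) (t : ℝ) : ℝ := t + (ly ((-Real.exp (2 * t) : ℝ) : ℂ)).re
def rY (ly : ℂ → ℂ) (t : ℝ) : ℝ := Real.exp (rL ly t)
def rq (k μ : ℝ) (F : ℕ → ℝ) (ly : ℂ → ℂ) (t : ℝ) : ℝ := rX k μ F t / rY ly t
def rp (k μ : ℝ) (ly : ℂ → ℂ) (t : ℝ) : ℝ := (rY ly t / (μ - 1)) ^ k

end

variable {k μ : ℝ} {F : ℕ → ℝ} {ly : ℂ → ℂ}

theorem rY_pos (ly : ℂ → ℂ) (t : ℝ) : 0 < rY ly t := Real.exp_pos _

private theorem XReal_abs (h : HF k μ F) {t : ℝ} (ht : t < ell μ) :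
    |-Real.exp (2 * t)| < μ ^ 2 := by
  have h1 := (EQ2.norm_xv_lt_iff h.hμ (t : ℂ)).2 (by simpa using ht)
  rw [EQ2.xv_ofReal, Complex.norm_real] at h1
  exact h1

theorem HF.Dx_ofReal (h : HF k μ F) {t : ℝ} (ht : t < ell μ) : Dx F (t : ℂ) = (rD F t : ℂ) := by
  unfold Dx rD
  rw [EQ2.xv_ofReal, h.dd_ofReal (XReal_abs h ht)]

private theorem XReal_bd (h : HF k μ F) {t : ℝ} (ht : t < 0) :
    1 - cT k μ < rD F t ∧ rD F t < 1 := by
  have h1 : ‖Dx F (t : ℂ)‖ < 1 := h.norm_Dx_lt (by simpa using ht)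
  rw [h.Dx_ofReal (ht.trans (EQ2.ell_pos h.hμ)), Complex.norm_real, Real.norm_eq_abs, abs_lt] at h1
  have h2 := cT_ge h.hk h.hk2 h.hμ
  have h3 : 1 < μ ^ 2 := by
    have := h.hμ
    nlinarith
  exact ⟨by linarith [h1.1], h1.2⟩

theorem HF.Xx_ofReal (h : HF k μ F) {t : ℝ} (ht : t < ell μ) :
    Xx k μ F (t : ℂ) = (rX k μ F t : ℂ) := by
  have h0 : t - ell μ < 0 := by linarith
  have h1 := XReal_bd h h0
  rw [h.Xx_eq, ← Complex.ofReal_sub, h.Dx_ofReal ht,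
    h.Dx_ofReal (t := t - ell μ) (h0.trans (EQ2.ell_pos h.hμ)), ps_ofReal h.hk h.hμ h1.1 h1.2]
  unfold rX
  push_cast
  ring

theorem HY.LY_ofReal (h : HF k μ F) (hy : HY k μ F ly) {t : ℝ} (ht : t < ell μ) :
    LY ly (t : ℂ) = (rL ly t : ℂ) := by
  have hmem : ((-Real.exp (2 * t) : ℝ) : ℂ) ∈ Metric.ball (0 : ℂ) (μ ^ 2) := by
    rw [mem_ball_zero_iff, Complex.norm_real]
    exact XReal_abs h ht
  have h1 := hy.conj _ hmem
  rw [Complex.conj_ofReal] at h1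
  have h2 : ly ((-Real.exp (2 * t) : ℝ) : ℂ) =
      (((ly ((-Real.exp (2 * t) : ℝ) : ℂ)).re : ℝ) : ℂ) :=
    (Complex.conj_eq_iff_re.1 h1.symm).symm
  unfold LY rL
  rw [EQ2.xv_ofReal, Complex.ofReal_add, ← h2]

theorem HY.Yx_ofReal (h : HF k μ F) (hy : HY k μ F ly) {t : ℝ} (ht : t < ell μ) :
    Yx ly (t : ℂ) = (rY ly t : ℂ) := by
  unfold Yx rY
  rw [HY.LY_ofReal h hy ht, Complex.ofReal_exp]

theorem HY.qx_ofReal (h : HF k μ F) (hy : HY k μ F ly) {t : ℝ} (ht : t < ell μ) :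
    qx k μ F ly (t : ℂ) = (rq k μ F ly t : ℂ) := by
  unfold qx rq
  rw [h.Xx_ofReal ht, HY.Yx_ofReal h hy ht, Complex.ofReal_div]

theorem HY.px_ofReal (h : HF k μ F) (hy : HY k μ F ly) {t : ℝ} (ht : t < ell μ) :
    px k μ ly (t : ℂ) = (rp k μ ly t : ℂ) := by
  have hμ1 : 0 < μ - 1 := by linarith [h.hμ]
  have h1 : rp k μ ly t = Real.exp (k * (rL ly t - Real.log (μ - 1))) := by
    unfold rp rY
    rw [Real.rpow_def_of_pos (div_pos (Real.exp_pos _) hμ1),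
      Real.log_div (Real.exp_pos _).ne' hμ1.ne', Real.log_exp, mul_comm]
  rw [h1]
  unfold px lp
  rw [HY.LY_ofReal h hy ht]
  push_cast
  rfl

/-- `X² + Y² = 1 - D` -/
theorem HY.rXY_sq (h : HF k μ F) (hy : HY k μ F ly) {t : ℝ} (ht : t < ell μ) :
    rX k μ F t ^ 2 + rY ly t ^ 2 = 1 - rD F t := by
  have h1 := HY.XY_sq h hy (x := (t : ℂ)) (by simpa using ht)
  rw [h.Xx_ofReal ht, HY.Yx_ofReal h hy ht, h.Dx_ofReal ht] at h1
  exact_mod_cast h1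

theorem HF.rX_shift (h : HF k μ F) {t : ℝ} (ht : t < 0) :
    rX k μ F (t + ell μ) = Sr k μ (rD F t) * rX k μ F t - (μ - 1) := by
  have h1 := h.Xx_shift (x := (t : ℂ)) (by simpa using ht)
  have h2 := XReal_bd h ht
  have h3 : t < ell μ := ht.trans (EQ2.ell_pos h.hμ)
  rw [← Complex.ofReal_add, h.Xx_ofReal (t := t + ell μ) (by linarith), h.Xx_ofReal h3,
    h.Dx_ofReal h3, Sg_ofReal h.hk h.hμ h2.1 h2.2] at h1
  exact_mod_cast h1

theorem HY.rY_shift (h : HF k μ F) (hy : HY k μ F ly) {t : ℝ} (ht : t < 0) :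
    rY ly (t + ell μ) = Sr k μ (rD F t) * rY ly t := by
  have h1 := HY.Yx_shift h hy (x := (t : ℂ)) (by simpa using ht)
  have h2 := XReal_bd h ht
  have h3 : t < ell μ := ht.trans (EQ2.ell_pos h.hμ)
  rw [← Complex.ofReal_add, HY.Yx_ofReal h hy (t := t + ell μ) (by linarith),
    HY.Yx_ofReal h hy h3, h.Dx_ofReal h3, Sg_ofReal h.hk h.hμ h2.1 h2.2] at h1
  exact_mod_cast h1

end EQG1
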