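import Pool.Agent.Lib.MP_226de1_co.E1.G.DDBasic
import Pool.Agent.Lib.MP_226de1_co.E1.G.SqrtY

/-! The chart in the variable `x` (compare `XRel.lean`, `k = 2`). -/

set_option autoImplicit false

namespace EQG1

open Complex Set Filter Topology
open EQ2 (dd dr xv ell pt NNS)

variable {k μ : ℝ} {F : ℕ → ℝ} {ly : ℂ → ℂ}

private theorem XRel_mu_ne (hμ : 1 < μ) : (μ : ℂ) - 1 ≠ 0 := by
  have h : μ - 1 ≠ 0 := by linarith
  intro h0
  apply h
  have : ((μ - 1 : ℝ) : ℂ) = 0 := by push_cast; exact h0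
  exact_mod_cast this

private theorem XRel_mem (hμ : 1 < μ) {x : ℂ} (hx : x.re < ell μ) :
    xv x ∈ Metric.ball (0 : ℂ) (μ ^ 2) := (EQ2.xv_mem_ball_iff hμ x).2 hx

private theorem XRel_re_add {x : ℂ} (hx : x.re < 0) : (x + (ell μ : ℂ)).re < ell μ := by
  simp only [Complex.add_re, Complex.ofReal_re]
  linarith

private theorem XRel_re_sub {x : ℂ} (hx : x.re < ell μ) : (x - (ell μ : ℂ)).re < 0 := by
  simp only [Complex.sub_re, Complex.ofReal_re]
  linarith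

private theorem XRel_re_lt (hμ : 1 < μ) {x : ℂ} (hx : x.re < 0) : x.re < ell μ :=
  hx.trans (EQ2.ell_pos hμ)

theorem HF.norm_Dx_lt (h : HF k μ F) {x : ℂ} (hx : x.re < 0) : ‖Dx F x‖ < 1 := by
  unfold Dx
  exact h.norm_dd_lt ((EQ2.norm_xv_lt_one_iff x).2 hx)

theorem HF.adm_Dx (h : HF k μ F) {x : ℂ} (hx : x.re < 0) : Adm k μ (Dx F x) :=
  Adm.of_norm h.hk h.hk2 h.hμ (h.norm_Dx_lt hx)

theorem HF.Dx_differentiableAt (h : HF k μ F) {x : ℂ} (hx : x.re < ell μ) :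
    DifferentiableAt ℂ (Dx F) x := by
  have h1 : DifferentiableAt ℂ (dd F) (xv x) :=
    h.dd_differentiableOn.differentiableAt (Metric.isOpen_ball.mem_nhds (XRel_mem h.hμ hx))
  exact h1.comp x EQ2.xv_differentiable.differentiableAt

private theorem XRel_Xx_eq (h : HF k μ F) (x : ℂ) :
    Xx k μ F x = 1 + (Dx F x + ps k μ (Dx F (x - (ell μ : ℂ)))) / (2 * ((μ : ℂ) - 1)) := by
  unfold Xx Xv Dx
  rw [EQ2.xv_sub_ell h.hμ]

theorem HF.Xx_differentiableAt (h : HF k μ F) {x : ℂ} (hx : x.re < ell μ) :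
    DifferentiableAt ℂ (Xx k μ F) x := by
  have h1 : Xx k μ F =
      fun x => 1 + (Dx F x + ps k μ (Dx F (x - (ell μ : ℂ)))) / (2 * ((μ : ℂ) - 1)) := by
    funext z
    exact XRel_Xx_eq h z
  rw [h1]
  have h2 : (x - (ell μ : ℂ)).re < 0 := XRel_re_sub hx
  have h3 : DifferentiableAt ℂ (fun x : ℂ => Dx F (x - (ell μ : ℂ))) x :=
    DifferentiableAt.comp (g := Dx F) (f := fun x : ℂ => x - (ell μ : ℂ)) x
      (h.Dx_differentiableAt (XRel_re_lt h.hμ h2)) (differentiableAt_id.sub_const _)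
  have h4 : DifferentiableAt ℂ (ps k μ) (Dx F (x - (ell μ : ℂ))) :=
    ps_differentiableAt h.hk h.hk2 h.hμ (h.adm_Dx h2)
  have h5 : DifferentiableAt ℂ (fun x : ℂ => ps k μ (Dx F (x - (ell μ : ℂ)))) x :=
    DifferentiableAt.comp (g := ps k μ) (f := fun x : ℂ => Dx F (x - (ell μ : ℂ))) x h4 h3
  exact (((h.Dx_differentiableAt hx).add h5).div_const _).const_add _

theorem HY.LY_differentiableAt (h : HF k μ F) (hy : HY k μ F ly) {x : ℂ} (hx : x.re < ell μ) :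
    DifferentiableAt ℂ (LY ly) x := by
  have h1 : DifferentiableAt ℂ ly (xv x) :=
    hy.an.differentiableAt (Metric.isOpen_ball.mem_nhds (XRel_mem h.hμ hx))
  have h2 : DifferentiableAt ℂ (fun x => ly (xv x)) x :=
    h1.comp x EQ2.xv_differentiable.differentiableAt
  exact differentiableAt_id.add h2

theorem Yx_ne (ly : ℂ → ℂ) (x : ℂ) : Yx ly x ≠ 0 := Complex.exp_ne_zero _

theorem px_ne (k μ : ℝ) (ly : ℂ → ℂ) (x : ℂ) : px k μ ly x ≠ 0 := Complex.exp_ne_zero _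

theorem HY.Yx_differentiableAt (h : HF k μ F) (hy : HY k μ F ly) {x : ℂ} (hx : x.re < ell μ) :
    DifferentiableAt ℂ (Yx ly) x := by
  exact (HY.LY_differentiableAt h hy hx).cexp

theorem HY.qx_differentiableAt (h : HF k μ F) (hy : HY k μ F ly) {x : ℂ} (hx : x.re < ell μ) :
    DifferentiableAt ℂ (qx k μ F ly) x := by
  exact (h.Xx_differentiableAt hx).div (HY.Yx_differentiableAt h hy hx) (Yx_ne ly x)

theorem HY.px_differentiableAt (h : HF k μ F) (hy : HY k μ F ly) {x : ℂ} (hx : x.re < ell μ) :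
    DifferentiableAt ℂ (px k μ ly) x := by
  have h1 : DifferentiableAt ℂ (lp k μ ly) x :=
    ((HY.LY_differentiableAt h hy hx).sub_const _).const_mul _
  exact h1.cexp

theorem HF.Dx_conj (h : HF k μ F) (x : ℂ) :
    Dx F ((starRingEnd ℂ) x) = (starRingEnd ℂ) (Dx F x) := by
  unfold Dx
  rw [EQ2.xv_conj, h.dd_conj]

theorem HF.Xx_conj (h : HF k μ F) {x : ℂ} (hx : x.re < ell μ) :
    Xx k μ F ((starRingEnd ℂ) x) = (starRingEnd ℂ) (Xx k μ F x) := by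
  rw [XRel_Xx_eq h, XRel_Xx_eq h]
  have h1 : (starRingEnd ℂ) x - (ell μ : ℂ) = (starRingEnd ℂ) (x - (ell μ : ℂ)) := by
    rw [map_sub, Complex.conj_ofReal]
  rw [h1, h.Dx_conj, h.Dx_conj, ps_conj h.hk h.hk2 h.hμ (h.adm_Dx (XRel_re_sub hx))]
  simp only [map_add, map_div₀, map_one, map_mul, map_sub, Complex.conj_ofReal, map_ofNat]

theorem HY.LY_conj (h : HF k μ F) (hy : HY k μ F ly) {x : ℂ} (hx : x.re < ell μ) :
    LY ly ((starRingEnd ℂ) x) = (starRingEnd ℂ) (LY ly x) := by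
  unfold LY
  rw [EQ2.xv_conj, hy.conj _ (XRel_mem h.hμ hx), map_add]

theorem HY.Yx_conj (h : HF k μ F) (hy : HY k μ F ly) {x : ℂ} (hx : x.re < ell μ) :
    Yx ly ((starRingEnd ℂ) x) = (starRingEnd ℂ) (Yx ly x) := by
  unfold Yx
  rw [HY.LY_conj h hy hx, Complex.exp_conj]

theorem HY.qx_conj (h : HF k μ F) (hy : HY k μ F ly) {x : ℂ} (hx : x.re < ell μ) :
    qx k μ F ly ((starRingEnd ℂ) x) = (starRingEnd ℂ) (qx k μ F ly x) := by
  unfold qx
  rw [h.Xx_conj hx, HY.Yx_conj h hy hx, map_div₀]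

theorem HY.px_conj (h : HF k μ F) (hy : HY k μ F ly) {x : ℂ} (hx : x.re < ell μ) :
    px k μ ly ((starRingEnd ℂ) x) = (starRingEnd ℂ) (px k μ ly x) := by
  unfold px lp
  rw [HY.LY_conj h hy hx, ← Complex.exp_conj]
  simp only [map_mul, map_sub, Complex.conj_ofReal]

/-- `v` has period `π i` in `x`; `Y` changes sign -/
theorem LY_add_pi (ly : ℂ → ℂ) (x : ℂ) :
    LY ly (x + Real.pi * Complex.I) = LY ly x + Real.pi * Complex.I := by
  have h1 : xv (x + Real.pi * Complex.I) = xv x := by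
    unfold xv
    have h2 : 2 * (x + Real.pi * Complex.I) = 2 * x + 2 * Real.pi * Complex.I := by ring
    rw [h2, Complex.exp_add, Complex.exp_two_pi_mul_I, mul_one]
  unfold LY
  rw [h1]
  ring

theorem qx_add_pi (k μ : ℝ) (F : ℕ → ℝ) (ly : ℂ → ℂ) (x : ℂ) :
    qx k μ F ly (x + Real.pi * Complex.I) = - qx k μ F ly x := by
  have h1 : xv (x + Real.pi * Complex.I) = xv x := by
    unfold xv
    have h2 : 2 * (x + Real.pi * Complex.I) = 2 * x + 2 * Real.pi * Complex.I := by ring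
    rw [h2, Complex.exp_add, Complex.exp_two_pi_mul_I, mul_one]
  have h3 : Yx ly (x + Real.pi * Complex.I) = - Yx ly x := by
    unfold Yx
    rw [LY_add_pi, Complex.exp_add, Complex.exp_pi_mul_I]
    ring
  unfold qx
  rw [h3]
  unfold Xx
  rw [h1, div_neg]

theorem HF.Xx_eq (h : HF k μ F) (x : ℂ) :
    Xx k μ F x = 1 + (Dx F x + ps k μ (Dx F (x - (ell μ : ℂ)))) / (2 * ((μ : ℂ) - 1)) := by
  exact XRel_Xx_eq h x

/-- `X² + Y² = 1 - D` -/
theorem HY.XY_sq (h : HF k μ F) (hy : HY k μ F ly) {x : ℂ} (hx : x.re < ell μ) :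
    Xx k μ F x ^ 2 + Yx ly x ^ 2 = 1 - Dx F x := by
  have h1 := hy.sq _ (XRel_mem h.hμ hx)
  have h2 : Yx ly x ^ 2 = - (xv x * Complex.exp (2 * ly (xv x))) := by
    unfold Yx LY
    rw [← Complex.exp_nat_mul]
    push_cast
    rw [mul_add, Complex.exp_add]
    unfold xv
    ring
  rw [h2, h1]
  unfold Rv Xx Dx
  ring

theorem HF.Xx_shift (h : HF k μ F) {x : ℂ} (hx : x.re < 0) :
    Xx k μ F (x + (ell μ : ℂ)) = Sg k μ (Dx F x) * Xx k μ F x - ((μ : ℂ) - 1) := by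
  unfold Xx Dx
  rw [EQ2.xv_add_ell h.hμ]
  exact h.Xv_feq ((EQ2.norm_xv_lt_one_iff x).2 hx)

theorem HY.LY_shift (h : HF k μ F) (hy : HY k μ F ly) {x : ℂ} (hx : x.re < 0) :
    LY ly (x + (ell μ : ℂ)) = LY ly x + Lg k μ (Dx F x) := by
  have h1 := hy.feq (xv x) ((EQ2.norm_xv_lt_one_iff x).2 hx)
  have h2 : (ell μ : ℂ) = (Real.log μ : ℂ) := rfl
  unfold LY Dx
  rw [EQ2.xv_add_ell h.hμ, h2]
  linear_combination h1

theorem HY.Yx_shift (h : HF k μ F) (hy : HY k μ F ly) {x : ℂ} (hx : x.re < 0) :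
    Yx ly (x + (ell μ : ℂ)) = Sg k μ (Dx F x) * Yx ly x := by
  unfold Yx Sg
  rw [HY.LY_shift h hy hx, Complex.exp_add]
  ring

/-- `D_n = q_n - q_{n+1} = 2a / Y_{n+1}` -/
theorem HY.qx_shift (h : HF k μ F) (hy : HY k μ F ly) {x : ℂ} (hx : x.re < 0) :
    qx k μ F ly x - qx k μ F ly (x + (ell μ : ℂ)) = ((μ : ℂ) - 1) / Yx ly (x + (ell μ : ℂ)) := by
  have hS := Sg_ne k μ (Dx F x)
  have hY := Yx_ne ly x
  unfold qx
  rw [h.Xx_shift hx, HY.Yx_shift h hy hx]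
  field_simp
  ring

/-- `p(x) + p(x+ℓ) = p(x) (1 + (s/r)^k) = p(x) c / rk(D x) = C exp (-(k/2) LQ)` -/
theorem HY.px_sum (h : HF k μ F) (hy : HY k μ F ly) {x : ℂ} (hx : x.re < 0) :
    px k μ ly x + px k μ ly (x + (ell μ : ℂ)) =
      (Cc k μ : ℂ) * Complex.exp (-((k : ℂ) / 2) * LQ F ly x) := by
  have hadm := h.adm_Dx hx
  have h1 : px k μ ly (x + (ell μ : ℂ)) =
      px k μ ly x * Complex.exp ((k : ℂ) * Lg k μ (Dx F x)) := by
    unfold px lp
    rw [HY.LY_shift h hy hx, ← Complex.exp_add]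
    congr 1
    ring
  have h2 : px k μ ly x + px k μ ly (x + (ell μ : ℂ)) =
      px k μ ly x * ((cK k μ : ℂ) / rk k (Dx F x)) := by
    rw [h1, ← one_add_exp_k_Lg h.hk h.hk2 h.hμ hadm]
    ring
  have hμ1 : 0 < μ - 1 := by linarith [h.hμ]
  have h3 : ((μ - 1 : ℝ) ^ k : ℝ) = Real.exp (k * Real.log (μ - 1)) := by
    rw [Real.rpow_def_of_pos hμ1, mul_comm]
  have h4 : (Cc k μ : ℂ) = (cK k μ : ℂ) * Complex.exp (-((k : ℂ) * (Real.log (μ - 1) : ℂ))) := by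
    unfold Cc
    rw [h3, Complex.ofReal_div, Complex.ofReal_exp, Complex.exp_neg, Complex.ofReal_mul]
    rfl
  have h5 : (cK k μ : ℂ) / rk k (Dx F x) =
      (cK k μ : ℂ) * Complex.exp (-((k : ℂ) / 2 * Complex.log (1 - Dx F x))) := by
    unfold rk
    rw [Complex.exp_neg]
    rfl
  rw [h2, h4, h5]
  unfold px lp LQ
  have h6 : ∀ A B C : ℂ, Complex.exp A * ((cK k μ : ℂ) * Complex.exp B) =
      (cK k μ : ℂ) * Complex.exp (A + B) := by
    intro A B C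
    rw [Complex.exp_add]
    ring
  rw [h6 _ _ 0, mul_assoc, ← Complex.exp_add]
  congr 2
  ring

/-- `exp LQ = 1 + q²` -/
theorem HY.exp_LQ (h : HF k μ F) (hy : HY k μ F ly) {x : ℂ} (hx : x.re < ell μ)
    (hn : Dx F x ≠ 1) : Complex.exp (LQ F ly x) = 1 + qx k μ F ly x ^ 2 := by
  have h1 : 1 - Dx F x ≠ 0 := by
    intro h0
    exact hn (sub_eq_zero.1 h0).symm
  have hXY := HY.XY_sq h hy hx
  have hY := Yx_ne ly x
  have h2 : Complex.exp (2 * LY ly x) = Yx ly x ^ 2 := by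
    unfold Yx
    rw [← Complex.exp_nat_mul]
    push_cast
    rfl
  unfold LQ
  rw [Complex.exp_sub, Complex.exp_log h1, h2, ← hXY]
  unfold qx
  field_simp
  ring

/-- the sum rule used for `P1` -/
theorem HF.Dx_sum (h : HF k μ F) {x : ℂ} (hx : x.re < 0) :
    Dx F x + Dx F (x + (ell μ : ℂ)) =
      Dx F x - ps k μ (Dx F x) + 2 * ((μ : ℂ) - 1) * (Sg k μ (Dx F x) * Xx k μ F x - (μ : ℂ)) := by
  have h1 := h.Xx_shift hx
  have h2 := XRel_Xx_eq h (x + (ell μ : ℂ))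
  have hm := XRel_mu_ne h.hμ
  rw [add_sub_cancel_right] at h2
  rw [h2] at h1
  field_simp at h1
  linear_combination h1

end EQG1
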