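import Pool.Agent.Lib.MP_226de1_co.E1.G.XReal
import Pool.Agent.Lib.MP_226de1_co.E1.G.SqrtY2

/-! Values of the chart on the top line `Im x = π/2` (compare `XTop.lean`, `k = 2`). -/

set_option autoImplicit false

namespace EQG1

open Complex Set Filter Topology
open EQ2 (dd dr xv ell pt NNS)

noncomputable section

/-- real values on the top line -/
def tD (F : ℕ → ℝ) (s : ℝ) : ℝ := dr F (Real.exp (2 * s))
def tX (k μ : ℝ) (F : ℕ → ℝ) (s : ℝ) : ℝ :=
  1 + (tD F s + psr k μ (tD F (s - ell μ))) / (2 * (μ - 1))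
def tY (ly : ℂ → ℂ) (s : ℝ) : ℝ := Real.exp (s + (ly ((Real.exp (2 * s) : ℝ) : ℂ)).re)
/-- `q = -i u` on the top line -/
def tu (k μ : ℝ) (F : ℕ → ℝ) (ly : ℂ → ℂ) (s : ℝ) : ℝ := tX k μ F s / tY ly s
/-- `p = e^{ikπ/2} w` on the top line -/
def tw (k μ : ℝ) (ly : ℂ → ℂ) (s : ℝ) : ℝ := (tY ly s / (μ - 1)) ^ k

end

variable {k μ : ℝ} {F : ℕ → ℝ} {ly : ℂ → ℂ}

private theorem GXT_exp_lt (hμ : 1 < μ) {s : ℝ} (hs : s < ell μ) : Real.exp (2 * s) < μ ^ 2 := by
  have h1 := (EQ2.norm_xv_lt_iff hμ (s : ℂ)).2 (by simpa using hs)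
  rwa [EQ2.norm_xv, Complex.ofReal_re] at h1

private theorem GXT_abs_lt (hμ : 1 < μ) {s : ℝ} (hs : s < ell μ) :
    |Real.exp (2 * s)| < μ ^ 2 := by
  rw [abs_of_pos (Real.exp_pos _)]
  exact GXT_exp_lt hμ hs

private theorem GXT_tD_nonneg (h : HF k μ F) (s : ℝ) : 0 ≤ tD F s :=
  h.dr_nonneg (Real.exp_pos _).le

private theorem GXT_tD_lt_one (h : HF k μ F) {s : ℝ} (hs : s < 0) : tD F s < 1 := by
  have h1 : Real.exp (2 * s) < 1 := by
    rw [Real.exp_lt_one_iff]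
    linarith
  have h2 := h.abs_dr_le (t := Real.exp (2 * s)) (by rw [abs_of_pos (Real.exp_pos _)]; exact h1.le)
  rw [abs_of_pos (Real.exp_pos _)] at h2
  exact lt_of_le_of_lt (le_abs_self _) (lt_of_le_of_lt h2 h1)

private theorem GXT_tD_zero (h : HF k μ F) : tD F 0 = 1 := by
  unfold tD
  rw [mul_zero, Real.exp_zero, h.dr_one]

private theorem GXT_cT (h : HF k μ F) : 1 - cT k μ < 0 := by
  have h1 := cT_ge h.hk h.hk2 h.hμ
  have h2 := h.hμ
  nlinarith

private theorem GXT_psr_nonneg (h : HF k μ F) {d : ℝ} (h0 : 0 ≤ d) (h1 : d < 1) :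
    0 ≤ psr k μ d := by
  have h2 := GXT_cT h
  have h3 := (psr_strictMono h.hk h.hμ).monotoneOn (a := 0) (b := d) ⟨h2.le, zero_le_one⟩
    ⟨by linarith, h1.le⟩ h0
  rwa [psr_zero h.hk h.hμ] at h3

/-- `psr' = (s/r)^(2-k) > 0` -/
private theorem GXT_psr_deriv (h : HF k μ F) {d : ℝ} (h0 : 0 ≤ d) (h1 : d < 1) :
    ∃ e : ℝ, 0 < e ∧ HasDerivAt (psr k μ) e d := by
  have h2 := GXT_cT h
  have hA : Adm k μ (d : ℂ) := Or.inr ⟨by simpa using by linarith, by simpa using h1⟩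
  have h3 := (ps_deriv h.hk h.hk2 h.hμ hA).real_of_complex
  rw [Lg_ofReal h.hk h.hμ (by linarith : 1 - cT k μ < d) h1] at h3
  have h4 : Complex.exp ((2 - (k : ℂ)) * (Real.log (Sr k μ d) : ℂ)) =
      ((Real.exp ((2 - k) * Real.log (Sr k μ d)) : ℝ) : ℂ) := by
    push_cast
    rfl
  rw [h4, Complex.ofReal_re] at h3
  refine ⟨_, Real.exp_pos _, h3.congr_of_eventuallyEq ?_⟩
  have h5 : ∀ᶠ x : ℝ in 𝓝 d, 1 - cT k μ < x := isOpen_Ioi.mem_nhds (by linarith : 1 - cT k μ < d)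
  have h6 : ∀ᶠ x : ℝ in 𝓝 d, x < 1 := isOpen_Iio.mem_nhds h1
  filter_upwards [h5, h6] with x hx1 hx2
  rw [ps_ofReal h.hk h.hμ hx1 hx2, Complex.ofReal_re]

private theorem GXT_exp (s : ℝ) :
    Complex.exp (Real.pi / 2 * Complex.I) = Complex.I := by
  have h2 : Complex.exp (((Real.pi / 2 : ℝ) : ℂ) * Complex.I) = Complex.I := by
    rw [Complex.exp_mul_I, ← Complex.ofReal_cos, ← Complex.ofReal_sin, Real.cos_pi_div_two,
      Real.sin_pi_div_two]
    simp
  push_cast at h2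
  exact h2

private theorem GXT_pt (s : ℝ) :
    pt s (Real.pi / 2) = (s : ℂ) + Real.pi / 2 * Complex.I := by
  have h1 : pt s (Real.pi / 2) = (s : ℂ) + ((Real.pi / 2 : ℝ) : ℂ) * Complex.I := by
    apply Complex.ext
    · simp
    · simp
  rw [h1]
  push_cast
  rfl

private theorem GXT_ly (h : HF k μ F) (hy : HY k μ F ly) {s : ℝ} (hs : s < ell μ) :
    ly ((Real.exp (2 * s) : ℝ) : ℂ) = (((ly ((Real.exp (2 * s) : ℝ) : ℂ)).re : ℝ) : ℂ) := by
  have h1 : ((Real.exp (2 * s) : ℝ) : ℂ) ∈ Metric.ball (0 : ℂ) (μ ^ 2) := by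
    rw [mem_ball_zero_iff, Complex.norm_real]
    exact GXT_abs_lt h.hμ hs
  have h2 := hy.conj _ h1
  rw [Complex.conj_ofReal] at h2
  exact (Complex.conj_eq_iff_real.1 h2.symm).elim fun r hr => by
    rw [hr, Complex.ofReal_re]

private theorem GXT_log (ly : ℂ → ℂ) (s : ℝ) :
    Real.log (tY ly s) = s + (ly ((Real.exp (2 * s) : ℝ) : ℂ)).re := by
  unfold tY
  rw [Real.log_exp]

theorem HF.Dx_top (h : HF k μ F) {s : ℝ} (hs : s < ell μ) :
    Dx F (pt s (Real.pi / 2)) = (tD F s : ℂ) := by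
  unfold Dx tD
  rw [EQ2.xv_top, h.dd_ofReal (GXT_abs_lt h.hμ hs)]

theorem HF.Xx_top (h : HF k μ F) {s : ℝ} (hs : s < ell μ) :
    Xx k μ F (pt s (Real.pi / 2)) = (tX k μ F s : ℂ) := by
  have h1 := EQ2.ell_pos h.hμ
  have h2 : pt s (Real.pi / 2) - (ell μ : ℂ) = pt (s - ell μ) (Real.pi / 2) := by
    apply Complex.ext
    · simp
    · simp
  have h3 := GXT_cT h
  have h4 := GXT_tD_nonneg h (s - ell μ)
  rw [h.Xx_eq, h2, h.Dx_top hs, h.Dx_top (by linarith),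
    ps_ofReal h.hk h.hμ (by linarith) (GXT_tD_lt_one h (by linarith))]
  unfold tX
  push_cast
  rfl

theorem HY.LY_top (h : HF k μ F) (hy : HY k μ F ly) {s : ℝ} (hs : s < ell μ) :
    LY ly (pt s (Real.pi / 2)) = (Real.log (tY ly s) : ℂ) + Real.pi / 2 * Complex.I := by
  unfold LY
  rw [EQ2.xv_top, GXT_log, GXT_ly h hy hs, GXT_pt]
  simp only [Complex.ofReal_add, Complex.ofReal_re]
  ring

theorem HY.Yx_top (h : HF k μ F) (hy : HY k μ F ly) {s : ℝ} (hs : s < ell μ) :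
    Yx ly (pt s (Real.pi / 2)) = Complex.I * (tY ly s : ℂ) := by
  unfold Yx
  rw [HY.LY_top h hy hs, Complex.exp_add, GXT_exp s, ← Complex.ofReal_exp,
    Real.exp_log (show 0 < tY ly s from Real.exp_pos _)]
  ring

theorem tY_pos (ly : ℂ → ℂ) (s : ℝ) : 0 < tY ly s := Real.exp_pos _

theorem HF.tX_ge_one (h : HF k μ F) {s : ℝ} (hs : s < ell μ) : 1 ≤ tX k μ F s := by
  have h1 := h.hμ
  have h2 := GXT_tD_nonneg h s
  have h3 := GXT_psr_nonneg h (GXT_tD_nonneg h (s - ell μ)) (GXT_tD_lt_one h (by linarith))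
  unfold tX
  have h4 : 0 ≤ (tD F s + psr k μ (tD F (s - ell μ))) / (2 * (μ - 1)) :=
    div_nonneg (by linarith) (by linarith)
  linarith

theorem HY.qx_top (h : HF k μ F) (hy : HY k μ F ly) {s : ℝ} (hs : s < ell μ) :
    qx k μ F ly (pt s (Real.pi / 2)) = -Complex.I * (tu k μ F ly s : ℂ) := by
  have h1 : 0 < tY ly s := tY_pos ly s
  have h2 : (tY ly s : ℂ) ≠ 0 := by exact_mod_cast h1.ne'
  unfold qx tu
  rw [h.Xx_top hs, HY.Yx_top h hy hs]
  push_cast
  field_simp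
  rw [Complex.I_sq]
  ring

theorem HY.px_top (h : HF k μ F) (hy : HY k μ F ly) {s : ℝ} (hs : s < ell μ) :
    px k μ ly (pt s (Real.pi / 2)) =
      Complex.exp ((k * Real.pi / 2 : ℝ) * Complex.I) * (tw k μ ly s : ℂ) := by
  have h1 : 0 < tY ly s := tY_pos ly s
  have h2 : 0 < μ - 1 := by
    have := h.hμ
    linarith
  have h3 : tw k μ ly s = Real.exp (k * (Real.log (tY ly s) - Real.log (μ - 1))) := by
    unfold tw
    rw [Real.rpow_def_of_pos (div_pos h1 h2), Real.log_div h1.ne' h2.ne', mul_comm]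
  unfold px lp
  rw [HY.LY_top h hy hs, h3, Complex.ofReal_exp, ← Complex.exp_add]
  congr 1
  push_cast
  ring

theorem HY.tu_pos (h : HF k μ F) (hy : HY k μ F ly) {s : ℝ} (hs : s < ell μ) :
    0 < tu k μ F ly s := by
  unfold tu
  exact div_pos (by linarith [h.tX_ge_one hs]) (tY_pos ly s)

theorem tw_pos (hμ : 1 < μ) (ly : ℂ → ℂ) (s : ℝ) : 0 < tw k μ ly s := by
  unfold tw
  exact Real.rpow_pos_of_pos (div_pos (tY_pos ly s) (by linarith)) k

private theorem GXT_rel (h : HF k μ F) (hy : HY k μ F ly) {s : ℝ} (hs : s < ell μ) :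
    tY ly s ^ 2 = tX k μ F s ^ 2 - (1 - tD F s) := by
  have h1 := HY.XY_sq h hy (x := pt s (Real.pi / 2)) hs
  rw [h.Xx_top hs, HY.Yx_top h hy hs, h.Dx_top hs, mul_pow, Complex.I_sq] at h1
  have h2 : (((tX k μ F s ^ 2 - tY ly s ^ 2 : ℝ)) : ℂ) = ((1 - tD F s : ℝ) : ℂ) := by
    push_cast
    rw [← h1]
    ring
  have h3 : tX k μ F s ^ 2 - tY ly s ^ 2 = 1 - tD F s := by exact_mod_cast h2
  linarith

/-- `u² = X²/(X² - (1 - D))`, i.e. `tY² = tX² - (1 - tD)`; for `s < 0`, `tD < 1` -/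
theorem HY.one_lt_tu (h : HF k μ F) (hy : HY k μ F ly) {s : ℝ} (hs : s < 0) :
    1 < tu k μ F ly s := by
  have h0 : s < ell μ := hs.trans (EQ2.ell_pos h.hμ)
  have h1 := GXT_rel h hy h0
  have h2 := GXT_tD_lt_one h hs
  have h3 := tY_pos ly s
  have h4 := h.tX_ge_one h0
  unfold tu
  rw [one_lt_div h3]
  by_contra hcon
  rw [not_lt] at hcon
  nlinarith

theorem HY.tu_zero (h : HF k μ F) (hy : HY k μ F ly) : tu k μ F ly 0 = 1 := by
  have h0 : 0 < ell μ := EQ2.ell_pos h.hμ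
  have h1 := GXT_rel h hy h0
  have h3 := tY_pos ly 0
  have h4 := h.tX_ge_one h0
  rw [GXT_tD_zero h, sub_self, sub_zero] at h1
  have h5 : tY ly 0 = tX k μ F 0 := (pow_left_inj₀ h3.le (by linarith) two_ne_zero).1 h1
  unfold tu
  rw [h5, div_self (by linarith)]

theorem HY.tu_lt_one (h : HF k μ F) (hy : HY k μ F ly) {s : ℝ} (hs : 0 < s) (hs' : s < ell μ) :
    tu k μ F ly s < 1 := by
  have h1 := GXT_rel h hy hs'
  have h3 := tY_pos ly s
  have h4 := h.tX_ge_one hs'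
  have hm : 1 < μ ^ 2 := by
    have := h.hμ
    nlinarith
  have h2 : 1 < tD F s := by
    rw [← h.dr_one]
    unfold tD
    refine h.dr_strictMonoOn ⟨zero_le_one, hm⟩ ⟨(Real.exp_pos _).le, GXT_exp_lt h.hμ hs'⟩ ?_
    exact Real.one_lt_exp_iff.2 (by linarith)
  unfold tu
  rw [div_lt_one h3]
  by_contra hcon
  rw [not_lt] at hcon
  nlinarith

private theorem GXT_tD_deriv (h : HF k μ F) {s : ℝ} (hs : s < ell μ) :
    ∃ d : ℝ, 0 < d ∧ HasDerivAt (tD F) d s := by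
  have h1 := (h.dr_differentiableAt (GXT_abs_lt h.hμ hs)).hasDerivAt
  have h2 := h.deriv_dr_pos (Real.exp_pos (2 * s)).le (GXT_exp_lt h.hμ hs)
  have h3 : HasDerivAt (fun s : ℝ => Real.exp (2 * s)) (Real.exp (2 * s) * (2 * 1)) s :=
    ((hasDerivAt_id s).const_mul 2).exp
  have h4 := HasDerivAt.comp (h₂ := dr F) (h := fun s : ℝ => Real.exp (2 * s)) s h1 h3
  refine ⟨_, ?_, h4⟩
  exact mul_pos h2 (by positivity)

private theorem GXT_tX_deriv (h : HF k μ F) {s : ℝ} (hs : s < ell μ) :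
    ∃ d : ℝ, 0 < d ∧ HasDerivAt (tX k μ F) d s := by
  have hμ := h.hμ
  obtain ⟨d1, hd1, h1⟩ := GXT_tD_deriv h hs
  obtain ⟨d2, hd2, h2⟩ := GXT_tD_deriv h (s := s - ell μ) (by linarith [EQ2.ell_pos h.hμ])
  obtain ⟨d3, hd3, h5⟩ := GXT_psr_deriv h (GXT_tD_nonneg h (s - ell μ))
    (GXT_tD_lt_one h (by linarith : s - ell μ < 0))
  have h3 : HasDerivAt (fun s => tD F (s - ell μ)) (d2 * 1) s :=
    HasDerivAt.comp (h₂ := tD F) (h := fun s : ℝ => s - ell μ) s h2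
      ((hasDerivAt_id s).sub_const (ell μ))
  have h6 : HasDerivAt (fun s => psr k μ (tD F (s - ell μ))) (d3 * (d2 * 1)) s :=
    HasDerivAt.comp (h₂ := psr k μ) (h := fun s : ℝ => tD F (s - ell μ)) s h5 h3
  have h4 := (((h1.add h6).div_const (2 * (μ - 1))).const_add 1)
  refine ⟨_, ?_, h4⟩
  have h7 : 0 < d3 * (d2 * 1) := by positivity
  exact div_pos (by linarith) (by linarith)

/-- derivative of `tu`: `1/u² = 1 - (1 - tD)/tX²`, `tD` and `tX` are increasing with positive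
derivative of `tD` (nonnegative coefficients, `NNS_ps`), so `u` has negative derivative for
`s ≤ 0`. -/
theorem HY.tu_deriv (h : HF k μ F) (hy : HY k μ F ly) {s : ℝ} (hs : s ≤ 0) :
    ∃ d : ℝ, d < 0 ∧ HasDerivAt (tu k μ F ly) d s := by
  have h0 : s < ell μ := lt_of_le_of_lt hs (EQ2.ell_pos h.hμ)
  obtain ⟨d1, hd1, h1⟩ := GXT_tD_deriv h h0
  obtain ⟨d2, hd2, h2⟩ := GXT_tX_deriv h h0
  have hY := tY_pos ly s
  have hX := h.tX_ge_one h0
  have hD : tD F s ≤ 1 := by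
    rcases hs.lt_or_eq with h3 | h3
    · exact (GXT_tD_lt_one h h3).le
    · rw [h3, GXT_tD_zero h]
  have hrel := GXT_rel h hy h0
  set G : ℝ → ℝ := fun s => tX k μ F s ^ 2 - (1 - tD F s) with hG
  have hGs : G s = tY ly s ^ 2 := by
    rw [hG, hrel]
  have h5 : HasDerivAt G (2 * tX k μ F s * d2 + d1) s := by
    have h6 := (h2.pow 2).sub ((h1.const_sub 1))
    refine h6.congr_deriv ?_
    simp only [Nat.cast_ofNat, Nat.add_one_sub_one, pow_one]
    ring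
  have h7 : HasDerivAt (fun s => Real.sqrt (G s)) ((2 * tX k μ F s * d2 + d1) / (2 * √(G s))) s :=
    h5.sqrt (by rw [hGs]; positivity)
  have h8 : √(G s) = tY ly s := by
    rw [hGs, Real.sqrt_sq hY.le]
  rw [h8] at h7
  have h9 : HasDerivAt (tY ly) ((2 * tX k μ F s * d2 + d1) / (2 * tY ly s)) s := by
    refine h7.congr_of_eventuallyEq ?_
    filter_upwards [isOpen_Iio.mem_nhds h0] with r hr
    have h10 : G r = tY ly r ^ 2 := by
      rw [hG, GXT_rel h hy hr]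
    rw [h10, Real.sqrt_sq (tY_pos ly r).le]
  have h11 : HasDerivAt (tu k μ F ly)
      ((d2 * tY ly s - tX k μ F s * ((2 * tX k μ F s * d2 + d1) / (2 * tY ly s))) / tY ly s ^ 2)
      s := h2.div h9 hY.ne'
  refine ⟨_, ?_, h11⟩
  have h12 : d2 * tY ly s - tX k μ F s * ((2 * tX k μ F s * d2 + d1) / (2 * tY ly s)) =
      (-(d2 * (1 - tD F s)) - tX k μ F s * d1 / 2) / tY ly s := by
    have h13 : d2 * tY ly s = d2 * (tX k μ F s ^ 2 - (1 - tD F s)) / tY ly s := by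
      rw [← hrel]
      field_simp
    rw [h13]
    field_simp
    ring
  rw [h12]
  refine div_neg_of_neg_of_pos (div_neg_of_neg_of_pos ?_ hY) (by positivity)
  have h14 : 0 ≤ d2 * (1 - tD F s) := mul_nonneg hd2.le (by linarith)
  have h15 : 0 < tX k μ F s * d1 := mul_pos (by linarith) hd1
  linarith

/-- hence `Im q'(s + iπ/2) = -u'(s) > 0` for `s ≤ 0` -/
theorem HY.deriv_qx_top_im (h : HF k μ F) (hy : HY k μ F ly) {s : ℝ} (hs : s ≤ 0) :
    0 < (deriv (qx k μ F ly) (pt s (Real.pi / 2))).im := by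
  have h0 : s < ell μ := lt_of_le_of_lt hs (EQ2.ell_pos h.hμ)
  obtain ⟨d, hd, h1⟩ := HY.tu_deriv h hy hs
  have h2 : HasDerivAt (qx k μ F ly) (deriv (qx k μ F ly) (pt s (Real.pi / 2)))
      (pt s (Real.pi / 2)) :=
    (HY.qx_differentiableAt h hy (x := pt s (Real.pi / 2)) h0).hasDerivAt
  have h3 : HasDerivAt (fun r : ℝ => pt r (Real.pi / 2)) (1 : ℂ) s := by
    have h4 : (fun r : ℝ => pt r (Real.pi / 2)) =
        fun r : ℝ => (r : ℂ) + Real.pi / 2 * Complex.I := by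
      funext r
      exact GXT_pt r
    rw [h4]
    exact (Complex.ofRealCLM.hasDerivAt (x := s)).add_const _
  have h5 : HasDerivAt (fun r : ℝ => qx k μ F ly (pt r (Real.pi / 2)))
      (deriv (qx k μ F ly) (pt s (Real.pi / 2)) * 1) s :=
    HasDerivAt.comp_of_eq (h₂ := qx k μ F ly) (h := fun r : ℝ => pt r (Real.pi / 2)) s h2 h3 rfl
  have h6 : HasDerivAt (fun r : ℝ => -Complex.I * (tu k μ F ly r : ℂ)) (-Complex.I * (d : ℂ)) s :=
    (h1.ofReal_comp).const_mul _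
  have h7 : HasDerivAt (fun r : ℝ => qx k μ F ly (pt r (Real.pi / 2))) (-Complex.I * (d : ℂ)) s := by
    refine h6.congr_of_eventuallyEq ?_
    filter_upwards [isOpen_Iio.mem_nhds h0] with r hr
    exact HY.qx_top h hy hr
  have h8 := h5.unique h7
  rw [mul_one] at h8
  rw [h8]
  simp only [neg_mul, Complex.neg_im, Complex.mul_im, Complex.I_re, Complex.I_im,
    Complex.ofReal_re, Complex.ofReal_im, zero_mul, one_mul, zero_add]
  linarith

/-- comparison used for the reflection principle: monotone on `s ≤ 0`, `> 1` before `0`, `≤ 1`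
after `0`. -/
theorem HY.tu_reflect (h : HF k μ F) (hy : HY k μ F ly) {s1 s2 : ℝ} (h1 : s1 ≤ s2) (h2 : s1 < 0)
    (h3 : s2 < ell μ) : tu k μ F ly s2 ≤ tu k μ F ly s1 := by
  rcases le_or_gt s2 0 with h4 | h4
  · have h5 : AntitoneOn (tu k μ F ly) (Set.Iic 0) := by
      refine antitoneOn_of_deriv_nonpos (convex_Iic 0) ?_ ?_ ?_
      · intro s hs
        obtain ⟨d, -, hd⟩ := HY.tu_deriv h hy hs
        exact hd.continuousAt.continuousWithinAt
      · intro s hs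
        rw [interior_Iic] at hs
        obtain ⟨d, -, hd⟩ := HY.tu_deriv h hy (le_of_lt hs)
        exact hd.differentiableAt.differentiableWithinAt
      · intro s hs
        rw [interior_Iic] at hs
        obtain ⟨d, hd0, hd⟩ := HY.tu_deriv h hy (le_of_lt hs)
        rw [hd.deriv]
        exact hd0.le
    exact h5 h2.le h4 h1
  · exact ((HY.tu_lt_one h hy h4 h3).trans (HY.one_lt_tu h hy h2)).le

end EQG1
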